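import Mathlib

/-!
A totally real number field `K` of degree `r` generated by an element `u` all of whose conjugates
are real, distinct and greater than `1`, such that every nonzero power of `u` generates `K`.
-/

set_option autoImplicit false

namespace Pool.Agent.Lib.MP_aba4aa_al

open Polynomial

/-- the integer polynomial `∏ (X - 8 (i+1)) + 2` -/
noncomputable def pz (r : ℕ) : ℤ[X] := ∏ i ∈ Finset.range r, (X - C (8 * ((i : ℤ) + 1))) + C 2

theorem pz_aux_monic (r : ℕ) : (∏ i ∈ Finset.range r, (X - C (8 * ((i : ℤ) + 1)))).Monic :=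
  monic_prod_of_monic _ _ fun _ _ => monic_X_sub_C _

theorem pz_aux_natDegree (r : ℕ) :
    (∏ i ∈ Finset.range r, (X - C (8 * ((i : ℤ) + 1)))).natDegree = r := by
  rw [natDegree_prod_of_monic _ _ fun _ _ => monic_X_sub_C _]
  simp only [natDegree_X_sub_C, Finset.sum_const, Finset.card_range, smul_eq_mul, mul_one]

theorem pz_natDegree (r : ℕ) : (pz r).natDegree = r := by
  unfold pz
  rw [natDegree_add_C, pz_aux_natDegree]

theorem pz_monic {r : ℕ} (hr : 0 < r) : (pz r).Monic := by
  unfold pz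
  apply (pz_aux_monic r).add_of_left
  apply lt_of_le_of_lt degree_C_le
  rw [← natDegree_pos_iff_degree_pos, pz_aux_natDegree]
  exact hr

theorem pz_coeff_zero {r : ℕ} (hr : 0 < r) : ∃ k : ℤ, (pz r).coeff 0 = 2 + 8 * k := by
  obtain ⟨s, rfl⟩ : ∃ s, r = s + 1 := ⟨r - 1, by omega⟩
  unfold pz
  rw [coeff_add, coeff_C_zero, coeff_zero_eq_eval_zero, eval_prod, Finset.prod_range_succ]
  refine ⟨(∏ j ∈ Finset.range s, eval 0 (X - C (8 * ((j : ℤ) + 1)))) * (-((s : ℤ) + 1)), ?_⟩
  simp only [eval_sub, eval_X, eval_C]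
  ring

theorem pz_map_two (r : ℕ) : (pz r).map (Int.castRingHom (ZMod 2)) = X ^ r := by
  unfold pz
  rw [Polynomial.map_add, Polynomial.map_prod]
  have h2 : (Int.castRingHom (ZMod 2)) 2 = 0 := by decide
  have h8 : ((8 : ℤ) : ZMod 2) = 0 := by decide
  have : ∀ i ∈ Finset.range r, Polynomial.map (Int.castRingHom (ZMod 2))
      (X - C (8 * ((i : ℤ) + 1))) = X := by
    intro i _
    rw [Polynomial.map_sub, map_X, map_C]
    have : (Int.castRingHom (ZMod 2)) (8 * ((i : ℤ) + 1)) = 0 := by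
      rw [map_mul]
      have : (Int.castRingHom (ZMod 2)) 8 = 0 := by decide
      rw [this, zero_mul]
    rw [this]; simp
  rw [Finset.prod_congr rfl this, map_C, h2]
  simp

theorem pz_irreducible {r : ℕ} (hr : 0 < r) : Irreducible (pz r) := by
  have hP : (Ideal.span {(2 : ℤ)}).IsPrime := by
    rw [Ideal.span_singleton_prime two_ne_zero]
    exact Int.prime_two
  apply irreducible_of_eisenstein_criterion hP
  · rw [(pz_monic hr).leadingCoeff, Ideal.mem_span_singleton]
    decide
  · intro n hn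
    rw [Ideal.mem_span_singleton]
    have h1 : ((pz r).map (Int.castRingHom (ZMod 2))).coeff n = 0 := by
      rw [pz_map_two, coeff_X_pow, if_neg]
      rintro rfl
      rw [degree_eq_natDegree (pz_monic hr).ne_zero, pz_natDegree] at hn
      exact lt_irrefl _ hn
    rw [coeff_map] at h1
    exact (ZMod.intCast_zmod_eq_zero_iff_dvd _ 2).mp h1
  · rw [← natDegree_pos_iff_degree_pos, pz_natDegree]; exact hr
  · rw [Ideal.span_singleton_pow, Ideal.mem_span_singleton]
    obtain ⟨k, hk⟩ := pz_coeff_zero hr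
    rw [hk]
    omega
  · exact (pz_monic hr).isPrimitive

/-- the rational polynomial -/
noncomputable def pq (r : ℕ) : ℚ[X] := (pz r).map (Int.castRingHom ℚ)

theorem pq_irreducible {r : ℕ} (hr : 0 < r) : Irreducible (pq r) := by
  have := (Monic.irreducible_iff_irreducible_map_fraction_map (K := ℚ) (pz_monic hr)).mp
    (pz_irreducible hr)
  exact this

/-- the real polynomial function -/
theorem sign_aux (j : ℕ) (r : ℕ) (hj : j ≤ r) :
    (4 : ℝ) ^ r ≤ (-1) ^ (r - j) * ∏ i ∈ Finset.range r, ((8 * (j : ℝ) + 4) - 8 * ((i : ℝ) + 1)) := by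
  induction r, hj using Nat.le_induction with
  | base =>
    rw [Nat.sub_self, pow_zero, one_mul]
    have : (4 : ℝ) ^ j = ∏ i ∈ Finset.range j, (4 : ℝ) := by simp
    rw [this]
    apply Finset.prod_le_prod
    · intro i _; norm_num
    · intro i hi
      have : (i : ℝ) + 1 ≤ j := by exact_mod_cast Finset.mem_range.mp hi
      linarith
  | succ r hj ih =>
    rw [Finset.prod_range_succ, Nat.succ_sub hj, pow_succ (-1 : ℝ), pow_succ (4 : ℝ)]
    have h1 : (j : ℝ) ≤ r := by exact_mod_cast hj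
    have h2 : (4 : ℝ) ≤ -((8 * (j : ℝ) + 4) - 8 * ((r : ℝ) + 1)) := by linarith
    calc (4 : ℝ) ^ r * 4 ≤ ((-1) ^ (r - j) *
          ∏ i ∈ Finset.range r, ((8 * (j : ℝ) + 4) - 8 * ((i : ℝ) + 1))) *
            (-((8 * (j : ℝ) + 4) - 8 * ((r : ℝ) + 1))) := by
          apply mul_le_mul ih h2 (by norm_num)
          exact le_trans (by positivity) ih
      _ = _ := by ring

/-- the real polynomial -/
noncomputable def pr (r : ℕ) : ℝ[X] := (pz r).map (Int.castRingHom ℝ)

theorem pr_eval (r : ℕ) (x : ℝ) :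
    (pr r).eval x = ∏ i ∈ Finset.range r, (x - 8 * ((i : ℝ) + 1)) + 2 := by
  unfold pr pz
  rw [Polynomial.map_add, eval_add, Polynomial.map_prod, eval_prod]
  simp

theorem pr_ne_zero {r : ℕ} (hr : 0 < r) : pr r ≠ 0 := ((pz_monic hr).map _).ne_zero

theorem pr_natDegree {r : ℕ} (hr : 0 < r) : (pr r).natDegree = r := by
  unfold pr
  rw [(pz_monic hr).natDegree_map, pz_natDegree]

theorem exists_root {r j : ℕ} (hj : j < r) :
    ∃ x : ℝ, 8 * (j : ℝ) + 4 < x ∧ x < 8 * (j : ℝ) + 12 ∧ (pr r).eval x = 0 := by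
  have h1 := sign_aux j r hj.le
  have h2 := sign_aux (j + 1) r hj
  have h4 : (4 : ℝ) ≤ 4 ^ r := by
    calc (4 : ℝ) = 4 ^ 1 := by norm_num
      _ ≤ 4 ^ r := pow_le_pow_right₀ (by norm_num) (by omega)
  have e1 : r - j = (r - (j + 1)) + 1 := by omega
  rw [e1, pow_succ] at h1
  have hc : Continuous fun x : ℝ => (pr r).eval x := (pr r).continuous
  have ha := pr_eval r (8 * (j : ℝ) + 4)
  have hb := pr_eval r (8 * ((j + 1 : ℕ) : ℝ) + 4)
  have e2 : (8 : ℝ) * ((j + 1 : ℕ) : ℝ) + 4 = 8 * (j : ℝ) + 12 := by push_cast; ring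
  rw [e2] at hb h2
  set P := ∏ i ∈ Finset.range r, ((8 * (j : ℝ) + 4) - 8 * ((i : ℝ) + 1)) with hP
  set Q := ∏ i ∈ Finset.range r, ((8 * (j : ℝ) + 12) - 8 * ((i : ℝ) + 1)) with hQ
  have hle : (8 * (j : ℝ) + 4) ≤ 8 * (j : ℝ) + 12 := by linarith
  rcases neg_one_pow_eq_or ℝ (r - (j + 1)) with h | h
  · rw [h] at h1 h2
    have : (0 : ℝ) ∈ Set.Ioo ((pr r).eval (8 * (j : ℝ) + 4)) ((pr r).eval (8 * (j : ℝ) + 12)) := by
      rw [ha, hb]; constructor <;> linarith
    obtain ⟨x, hx, hx0⟩ := intermediate_value_Ioo hle hc.continuousOn this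
    exact ⟨x, hx.1, hx.2, hx0⟩
  · rw [h] at h1 h2
    have : (0 : ℝ) ∈ Set.Ioo ((pr r).eval (8 * (j : ℝ) + 12)) ((pr r).eval (8 * (j : ℝ) + 4)) := by
      rw [ha, hb]; constructor <;> linarith
    obtain ⟨x, hx, hx0⟩ := intermediate_value_Ioo' hle hc.continuousOn this
    exact ⟨x, hx.1, hx.2, hx0⟩

theorem roots_facts {r : ℕ} (hr : 0 < r) :
    (pr r).roots.toFinset.card = r ∧ (∀ x ∈ (pr r).roots, 4 < x) ∧ (pr r).Splits := by
  classical
  choose ρ h1 h2 h3 using fun j : Fin r => exists_root (r := r) j.2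
  have hinj : Function.Injective ρ := by
    intro a b hab
    by_contra hne
    rcases lt_or_gt_of_ne hne with h | h
    · have hh : ((a : ℕ) : ℝ) + 1 ≤ ((b : ℕ) : ℝ) := by exact_mod_cast h
      have := h2 a
      have := h1 b
      rw [hab] at *
      linarith
    · have hh : ((b : ℕ) : ℝ) + 1 ≤ ((a : ℕ) : ℝ) := by exact_mod_cast h
      have := h2 b
      have := h1 a
      rw [hab] at *
      linarith
  have hsub : Finset.univ.image ρ ⊆ (pr r).roots.toFinset := by
    intro x hx
    obtain ⟨j, _, rfl⟩ := Finset.mem_image.mp hx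
    rw [Multiset.mem_toFinset, mem_roots (pr_ne_zero hr)]
    exact h3 j
  have hcard : (Finset.univ.image ρ).card = r := by
    rw [Finset.card_image_of_injective _ hinj]; simp
  have hle1 : (pr r).roots.toFinset.card ≤ Multiset.card (pr r).roots :=
    Multiset.toFinset_card_le _
  have hle2 : Multiset.card (pr r).roots ≤ r := by
    have := card_roots' (pr r)
    rwa [pr_natDegree hr] at this
  have hle3 := Finset.card_le_card hsub
  have heq : Finset.univ.image ρ = (pr r).roots.toFinset :=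
    Finset.eq_of_subset_of_card_le hsub (by omega)
  refine ⟨by omega, ?_, ?_⟩
  · intro x hx
    rw [← Multiset.mem_toFinset, ← heq] at hx
    obtain ⟨j, _, rfl⟩ := Finset.mem_image.mp hx
    have := h1 j
    have : (0 : ℝ) ≤ ((j : ℕ) : ℝ) := Nat.cast_nonneg _
    linarith
  · rw [splits_iff_card_roots, pr_natDegree hr]
    omega

theorem pq_map_real (r : ℕ) : (pq r).map (algebraMap ℚ ℝ) = pr r := by
  unfold pq pr
  rw [Polynomial.map_map]
  congr 1

theorem pq_ne_zero {r : ℕ} (hr : 0 < r) : pq r ≠ 0 := (pq_irreducible hr).ne_zero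

/-- every complex root is a real number greater than `4` -/
theorem complex_root {r : ℕ} (hr : 0 < r) {z : ℂ} (hz : aeval z (pq r) = 0) :
    ∃ x : ℝ, 4 < x ∧ z = (x : ℂ) := by
  obtain ⟨_, h4, hs⟩ := roots_facts hr
  have h1 : eval z ((pr r).map (algebraMap ℝ ℂ)) = 0 := by
    rw [← pq_map_real, Polynomial.map_map, eval_map, ← IsScalarTower.algebraMap_eq]
    exact hz
  have h2 : ((pr r).map (algebraMap ℝ ℂ)).roots = (pr r).roots.map (algebraMap ℝ ℂ) :=
    hs.roots_map _
  have h3 : z ∈ ((pr r).map (algebraMap ℝ ℂ)).roots := by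
    rw [mem_roots ((Polynomial.map_ne_zero_iff (FaithfulSMul.algebraMap_injective ℝ ℂ)).mpr (pr_ne_zero hr))]
    exact h1
  rw [h2, Multiset.mem_map] at h3
  obtain ⟨x, hx, rfl⟩ := h3
  exact ⟨x, h4 x hx, rfl⟩

/-- the arithmetic input about the pair `(K, u)`. -/
structure GoodPair (K : Type) [Field K] [Algebra ℚ K] (u : K) (r : ℕ) : Prop where
  fin : Module.Finite ℚ K
  card : Nat.card (K →+* ℝ) = r
  one_lt : ∀ σ : K →+* ℝ, 1 < σ u
  stable : ∀ n : ℤ, n ≠ 0 → ∀ C : Submodule ℚ K, (∀ c ∈ C, u ^ n * c ∈ C) → C = ⊥ ∨ C = ⊤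

theorem goodPair_of {r : ℕ} (hr : 0 < r) {K : Type} [Field K] [Algebra ℚ K]
    [FiniteDimensional ℚ K] (u : K) (hu0 : aeval u (pq r) = 0)
    (htop : Algebra.adjoin ℚ {u} = ⊤) (hc : Nat.card (K →ₐ[ℚ] ℝ) = r) : GoodPair K u r := by
  classical
  obtain ⟨hcard, h4, hs⟩ := roots_facts hr
  refine ⟨inferInstance, ?_, ?_, ?_⟩
  · rw [Nat.card_congr (RingHom.equivRatAlgHom K ℝ)]; exact hc
  · intro σ
    have h1 : eval (σ u) (pr r) = 0 := by
      have h2 : σ (aeval u (pq r)) = 0 := by rw [hu0, map_zero]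
      rw [← pq_map_real, eval_map]
      rw [aeval_def, hom_eval₂] at h2
      have h3 : algebraMap ℚ ℝ = σ.comp (algebraMap ℚ K) :=
        Subsingleton.elim _ _
      rw [h3]; exact h2
    have := h4 (σ u) (by rw [mem_roots (pr_ne_zero hr)]; exact h1)
    linarith
  · intro n hn C hC
    have hprim : IntermediateField.adjoin ℚ {u ^ n} = ⊤ := by
      rw [Field.primitive_element_iff_algHom_eq_of_eval' ℚ ℂ (fun x => IsAlgClosed.splits _)]
      intro φ ψ h
      have hφ : aeval (φ u) (pq r) = 0 := by rw [aeval_algHom_apply, hu0, map_zero]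
      have hψ : aeval (ψ u) (pq r) = 0 := by rw [aeval_algHom_apply, hu0, map_zero]
      obtain ⟨x, hx, hx'⟩ := complex_root hr hφ
      obtain ⟨y, hy, hy'⟩ := complex_root hr hψ
      have h' : (φ u) ^ n = (ψ u) ^ n := by
        have := h
        simp only [map_zpow₀] at this
        exact this
      rw [hx', hy'] at h'
      have h'' : x ^ n = y ^ n := by exact_mod_cast h'
      have hxy : x = y := (zpow_left_inj₀ (by linarith) (by linarith) hn).mp h''
      have huu : φ u = ψ u := by rw [hx', hy', hxy]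
      apply AlgHom.ext_of_adjoin_eq_top htop
      intro z hz
      rw [Set.mem_singleton_iff] at hz
      rw [hz, huu]
    have hadj : Algebra.adjoin ℚ {u ^ n} = ⊤ := by
      have := IntermediateField.adjoin_simple_toSubalgebra_of_isAlgebraic
        (F := ℚ) (Algebra.IsAlgebraic.isAlgebraic (u ^ n))
      rw [← this, hprim]; rfl
    by_cases hbot : C = ⊥
    · exact Or.inl hbot
    · right
      obtain ⟨c, hc, hc0⟩ := Submodule.exists_mem_ne_zero_of_ne_bot hbot
      rw [Submodule.eq_top_iff']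
      intro y
      have key : ∀ z ∈ Algebra.adjoin ℚ {u ^ n}, ∀ c ∈ C, z * c ∈ C := by
        intro z hz
        induction hz using Algebra.adjoin_induction with
        | mem x hx =>
          rw [Set.mem_singleton_iff] at hx
          rw [hx]; exact hC
        | algebraMap q =>
          intro c hc
          rw [← Algebra.smul_def]; exact C.smul_mem q hc
        | add x y _ _ hx hy =>
          intro c hc
          rw [add_mul]; exact C.add_mem (hx c hc) (hy c hc)
        | mul x y _ _ hx hy =>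
          intro c hc
          rw [mul_assoc]; exact hx _ (hy c hc)
      have := key (y / c) (by rw [hadj]; trivial) c hc
      rwa [div_mul_cancel₀ _ hc0] at this

theorem card_algHom {r : ℕ} (hr : 0 < r) : Nat.card (AdjoinRoot (pq r) →ₐ[ℚ] ℝ) = r := by
  classical
  obtain ⟨hcard, h4, hs⟩ := roots_facts hr
  rw [Nat.card_congr (AdjoinRoot.equiv ℝ ℚ (pq r) (pq_ne_zero hr))]
  have : Nat.card { x // x ∈ (pq r).aroots ℝ } = (pr r).roots.toFinset.card := by
    rw [← pq_map_real, ← aroots_def, ← Nat.card_eq_finsetCard]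
    apply Nat.card_congr
    exact Equiv.subtypeEquivRight fun x => (Multiset.mem_toFinset).symm
  rw [this, hcard]

theorem root_aeval (r : ℕ) : aeval (AdjoinRoot.root (pq r)) (pq r) = 0 := by
  rw [AdjoinRoot.aeval_eq, AdjoinRoot.mk_self]

theorem root_top (r : ℕ) : Algebra.adjoin ℚ {AdjoinRoot.root (pq r)} = ⊤ :=
  AdjoinRoot.adjoinRoot_eq_top

theorem root_findim {r : ℕ} (hr : 0 < r) : Module.Finite ℚ (AdjoinRoot (pq r)) :=
  (AdjoinRoot.powerBasis (pq_ne_zero hr)).finite

/-- the algebra structure, fixed before the field structure is available -/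
@[instance_reducible] noncomputable def algK (r : ℕ) : Algebra ℚ (AdjoinRoot (pq r)) := inferInstance

theorem exists_goodPair {r : ℕ} (hr : 0 < r) :
    ∃ (K : Type) (_ : Field K) (_ : Algebra ℚ K) (u : K), GoodPair K u r := by
  have hF : Fact (Irreducible (pq r)) := ⟨pq_irreducible hr⟩
  refine ⟨AdjoinRoot (pq r), inferInstance, algK r, AdjoinRoot.root (pq r), ?_⟩
  exact @goodPair_of r hr (AdjoinRoot (pq r)) _ (algK r) (root_findim hr) _ (root_aeval r)
    (root_top r) (card_algHom hr)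

end Pool.Agent.Lib.MP_aba4aa_al
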