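import Mathlib

/-!
Shared definitions: two-sided invariant lattice orders as relations, and the actions used to build
the groups `W`.
-/

set_option autoImplicit false

namespace Pool.Agent.Lib.MP_aba4aa_al

/-- `r` is a two-sided translation invariant lattice order on the group `G`. -/
def IsLO (G : Type*) [Group G] (r : G → G → Prop) : Prop :=
  (∀ a, r a a) ∧
  (∀ a b c, r a b → r b c → r a c) ∧
  (∀ a b, r a b → r b a → a = b) ∧
  (∀ a b c d, r a b → r (c * a * d) (c * b * d)) ∧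
  (∀ a b, ∃ s, r a s ∧ r b s ∧ ∀ u, r a u → r b u → r s u) ∧
  (∀ a b, ∃ t, r t a ∧ r t b ∧ ∀ u, r u a → r u b → r u t)

/-- An action of `Γ` on an ordered abelian group `Ω` by order preserving automorphisms such that
every `γ ≠ 1` expands everything or contracts everything, `γ - 1` is onto, and some element
contracts everything to `0`. -/
structure GoodAct (Γ Ω : Type*) [Group Γ] [AddCommGroup Ω] [LinearOrder Ω]
    [DistribMulAction Γ Ω] : Prop where
  nontriv : ∃ x : Ω, 0 < x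
  pos : ∀ (γ : Γ) (x : Ω), 0 < x → 0 < γ • x
  expand : ∀ γ : Γ, γ ≠ 1 → (∀ x : Ω, 0 < x → x < γ • x) ∨ (∀ x : Ω, 0 < x → γ • x < x)
  surj : ∀ γ : Γ, γ ≠ 1 → ∀ x : Ω, ∃ y : Ω, γ • y - y = x
  shrink : ∃ σ : Γ, ∀ x ε : Ω, 0 < x → 0 < ε → ∃ n : ℕ, σ ^ n • x < ε

end Pool.Agent.Lib.MP_aba4aa_al
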