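import Mathlib

/-!
Elementary facts on (non-commutative) lattice-ordered groups, used for counting lattice orders.
-/

set_option autoImplicit false
set_option linter.unusedSectionVars false

namespace Pool.Agent.Lib.MP_aba4aa_al

section LG

variable {G : Type*} [Lattice G] [Group G] [MulLeftMono G] [MulRightMono G]

theorem lg_mul_inv_inf_mul (a b : G) : a * (a ⊓ b)⁻¹ * b = a ⊔ b := by
  rw [inv_inf, mul_sup, sup_mul]
  simp [sup_comm]

theorem lg_sup_eq_mul {a b : G} (h : a ⊓ b = 1) : a ⊔ b = a * b := by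
  rw [← lg_mul_inv_inf_mul, h]; simp

theorem lg_comm {a b : G} (h : a ⊓ b = 1) : a * b = b * a := by
  rw [← lg_sup_eq_mul h, sup_comm, lg_sup_eq_mul (by rw [inf_comm]; exact h)]

theorem lg_inf_mul_le {a b c : G} (ha : 1 ≤ a) (hb : 1 ≤ b) (hc : 1 ≤ c) :
    a ⊓ (b * c) ≤ (a ⊓ b) * (a ⊓ c) := by
  rw [mul_inf, inf_mul, inf_mul]
  refine le_inf (le_inf ?_ ?_) (le_inf ?_ ?_)
  · exact inf_le_left.trans (le_mul_of_one_le_right' ha)
  · exact inf_le_left.trans (le_mul_of_one_le_left' hb)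
  · exact inf_le_left.trans (le_mul_of_one_le_right' hc)
  · exact inf_le_right

theorem lg_inf_mul_eq_one {a b c : G} (ha : 1 ≤ a) (hb : 1 ≤ b) (hc : 1 ≤ c)
    (h1 : a ⊓ b = 1) (h2 : a ⊓ c = 1) : a ⊓ (b * c) = 1 := by
  apply le_antisymm
  · have := lg_inf_mul_le ha hb hc
    rwa [h1, h2, one_mul] at this
  · exact le_inf ha (one_le_mul hb hc)

theorem lg_inf_eq_one_of_le {a b c : G} (hb : 1 ≤ b) (hbc : b ≤ c) (ha : 1 ≤ a)
    (h : a ⊓ c = 1) : a ⊓ b = 1 := by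
  apply le_antisymm
  · rw [← h]; exact inf_le_inf_left _ hbc
  · exact le_inf ha hb

theorem lg_inf_pow_eq_one {a b : G} (ha : 1 ≤ a) (hb : 1 ≤ b) (h : a ⊓ b = 1) (n : ℕ) :
    a ⊓ b ^ n = 1 := by
  induction n with
  | zero => simp [ha]
  | succ n ih =>
    rw [pow_succ]
    exact lg_inf_mul_eq_one ha (one_le_pow_of_one_le' hb n) hb ih h

theorem lg_pow_inf_pow_eq_one {a b : G} (ha : 1 ≤ a) (hb : 1 ≤ b) (h : a ⊓ b = 1) (m n : ℕ) :
    a ^ m ⊓ b ^ n = 1 := by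
  apply lg_inf_pow_eq_one (one_le_pow_of_one_le' ha m) hb
  rw [inf_comm]
  exact lg_inf_pow_eq_one hb ha (by rw [inf_comm]; exact h) m

/-- orthogonality of two elements of a lattice-ordered group -/
def Perp (a b : G) : Prop := |a|ₘ ⊓ |b|ₘ = 1

theorem Perp.symm {a b : G} (h : Perp a b) : Perp b a := by
  unfold Perp at *; rw [inf_comm]; exact h

theorem mabs_mul_le3 (a b : G) : |a * b|ₘ ≤ |a|ₘ * |b|ₘ * |a|ₘ := by
  have ha := one_le_mabs a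
  have hb := one_le_mabs b
  rw [mabs_le']
  constructor
  · calc a * b ≤ |a|ₘ * |b|ₘ := mul_le_mul' (le_mabs_self a) (le_mabs_self b)
      _ ≤ |a|ₘ * |b|ₘ * |a|ₘ := le_mul_of_one_le_right' ha
  · calc (a * b)⁻¹ = b⁻¹ * a⁻¹ := mul_inv_rev a b
      _ ≤ |b|ₘ * |a|ₘ := mul_le_mul' (inv_le_mabs b) (inv_le_mabs a)
      _ ≤ |a|ₘ * (|b|ₘ * |a|ₘ) := le_mul_of_one_le_left' ha
      _ = |a|ₘ * |b|ₘ * |a|ₘ := by rw [mul_assoc]

theorem Perp.mul_right {a b c : G} (h1 : Perp a b) (h2 : Perp a c) : Perp a (b * c) := by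
  unfold Perp at *
  refine lg_inf_eq_one_of_le (one_le_mabs _) (mabs_mul_le3 b c) (one_le_mabs _) ?_
  exact lg_inf_mul_eq_one (one_le_mabs _) (one_le_mul (one_le_mabs _) (one_le_mabs _))
    (one_le_mabs _) (lg_inf_mul_eq_one (one_le_mabs _) (one_le_mabs _) (one_le_mabs _) h1 h2) h1

theorem Perp.mul_left {a b c : G} (h1 : Perp b a) (h2 : Perp c a) : Perp (b * c) a :=
  (h1.symm.mul_right h2.symm).symm

theorem Perp.inv_right {a b : G} (h : Perp a b) : Perp a b⁻¹ := by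
  unfold Perp at *; rw [mabs_inv]; exact h

theorem Perp.inv_left {a b : G} (h : Perp a b) : Perp a⁻¹ b := by
  unfold Perp at *; rw [mabs_inv]; exact h

theorem Perp.mabs_right {a b : G} (h : Perp a b) : Perp a |b|ₘ := by
  unfold Perp at *; rwa [mabs_mabs]

theorem Perp.of_mabs_le {a b c : G} (h : Perp a c) (hbc : |b|ₘ ≤ |c|ₘ) : Perp a b := by
  unfold Perp at *
  exact lg_inf_eq_one_of_le (one_le_mabs _) hbc (one_le_mabs _) h

theorem perp_of_one_le {a b : G} (ha : 1 ≤ a) (hb : 1 ≤ b) : Perp a b ↔ a ⊓ b = 1 := by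
  unfold Perp; rw [mabs_of_one_le ha, mabs_of_one_le hb]

theorem mabs_eq_one_iff' {a : G} : |a|ₘ = 1 ↔ a = 1 := by
  constructor
  · intro h
    have h1 := le_mabs_self a
    have h2 := inv_le_mabs a
    rw [h] at h1 h2
    exact le_antisymm h1 (inv_le_one'.mp h2)
  · rintro rfl; simp

theorem perp_self_iff {a : G} : Perp a a ↔ a = 1 := by
  unfold Perp; rw [inf_idem, mabs_eq_one_iff']

theorem Perp.eq_one_of_le {a b : G} (h : Perp a b) (hab : |a|ₘ ≤ |b|ₘ) : a = 1 := by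
  unfold Perp at h
  rw [inf_eq_left.mpr hab] at h
  exact mabs_eq_one_iff'.mp h

theorem Perp.eq_one_of_le' {a b : G} (h : Perp a b) (hab : |b|ₘ ≤ |a|ₘ) : b = 1 :=
  h.symm.eq_one_of_le hab

theorem pos_mul_neg (a : G) : a = a⁺ᵐ * (a⁻ᵐ)⁻¹ := by
  have := oneLePart_div_leOnePart a
  rw [div_eq_mul_inv] at this
  exact this.symm

theorem mabs_eq_pos_mul_neg (a : G) : |a|ₘ = a⁺ᵐ * a⁻ᵐ := (oneLePart_mul_leOnePart a).symm

theorem posPart_le_mabs (a : G) : a⁺ᵐ ≤ |a|ₘ := by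
  rw [mabs_eq_pos_mul_neg]; exact le_mul_of_one_le_right' (one_le_leOnePart a)

theorem negPart_le_mabs (a : G) : a⁻ᵐ ≤ |a|ₘ := by
  rw [mabs_eq_pos_mul_neg]; exact le_mul_of_one_le_left' (one_le_oneLePart a)

theorem Perp.comm {a b : G} (h : Perp a b) : a * b = b * a := by
  have key : ∀ x y : G, 1 ≤ x → 1 ≤ y → x ≤ |a|ₘ → y ≤ |b|ₘ → Commute x y := by
    intro x y hx hy hxa hyb
    apply lg_comm
    apply le_antisymm
    · have h' : |a|ₘ ⊓ |b|ₘ = 1 := h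
      calc x ⊓ y ≤ |a|ₘ ⊓ |b|ₘ := inf_le_inf hxa hyb
        _ = 1 := h'
    · exact le_inf hx hy
  have h1 := key a⁺ᵐ b⁺ᵐ (one_le_oneLePart a) (one_le_oneLePart b) (posPart_le_mabs a)
    (posPart_le_mabs b)
  have h2 := key a⁺ᵐ b⁻ᵐ (one_le_oneLePart a) (one_le_leOnePart b) (posPart_le_mabs a)
    (negPart_le_mabs b)
  have h3 := key a⁻ᵐ b⁺ᵐ (one_le_leOnePart a) (one_le_oneLePart b) (negPart_le_mabs a)
    (posPart_le_mabs b)
  have h4 := key a⁻ᵐ b⁻ᵐ (one_le_leOnePart a) (one_le_leOnePart b) (negPart_le_mabs a)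
    (negPart_le_mabs b)
  have h5 : Commute (a⁺ᵐ * (a⁻ᵐ)⁻¹) (b⁺ᵐ * (b⁻ᵐ)⁻¹) := by
    apply Commute.mul_left
    · exact h1.mul_right h2.inv_right
    · exact (h3.inv_left).mul_right (h4.inv_left.inv_right)
  rw [← pos_mul_neg, ← pos_mul_neg] at h5
  exact h5

theorem Perp.commute {a b : G} (h : Perp a b) : Commute a b := h.comm

/-- conjugation and absolute value -/
theorem mabs_conj (k a : G) : |k * a * k⁻¹|ₘ = k * |a|ₘ * k⁻¹ := by
  unfold mabs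
  rw [mul_sup, sup_mul]
  congr 1
  group

theorem inf_conj (k a b : G) : k * (a ⊓ b) * k⁻¹ = (k * a * k⁻¹) ⊓ (k * b * k⁻¹) := by
  rw [mul_inf, inf_mul]

theorem conj_le_conj {k a b : G} (h : a ≤ b) : k * a * k⁻¹ ≤ k * b * k⁻¹ :=
  mul_le_mul' (mul_le_mul' le_rfl h) le_rfl

theorem one_le_conj {k a : G} (h : 1 ≤ a) : 1 ≤ k * a * k⁻¹ := by
  have := conj_le_conj (k := k) h
  simpa using this

theorem Perp.conj {a b : G} (k : G) (h : Perp a b) : Perp (k * a * k⁻¹) (k * b * k⁻¹) := by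
  unfold Perp at *
  rw [mabs_conj, mabs_conj, ← inf_conj, h]; simp

/-- an element commuting with `a` commutes with `|a|`. -/
theorem commute_mabs {k a : G} (h : Commute k a) : Commute k |a|ₘ := by
  have h1 : k * a * k⁻¹ = a := by rw [h.eq]; group
  have h2 : k * |a|ₘ * k⁻¹ = |a|ₘ := by rw [← mabs_conj, h1]
  show k * |a|ₘ = |a|ₘ * k
  calc k * |a|ₘ = (k * |a|ₘ * k⁻¹) * k := by group
    _ = |a|ₘ * k := by rw [h2]

theorem commute_inf {k a b : G} (h1 : Commute k a) (h2 : Commute k b) : Commute k (a ⊓ b) := by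
  have h1' : k * a * k⁻¹ = a := by rw [h1.eq]; group
  have h2' : k * b * k⁻¹ = b := by rw [h2.eq]; group
  have h3 : k * (a ⊓ b) * k⁻¹ = a ⊓ b := by rw [inf_conj, h1', h2']
  show k * (a ⊓ b) = (a ⊓ b) * k
  calc k * (a ⊓ b) = (k * (a ⊓ b) * k⁻¹) * k := by group
    _ = (a ⊓ b) * k := by rw [h3]

theorem commute_sup_one {k a : G} (h1 : Commute k a) : Commute k (a ⊔ 1) := by
  have h1' : k * a * k⁻¹ = a := by rw [h1.eq]; group
  have h3 : k * (a ⊔ 1) * k⁻¹ = a ⊔ 1 := by rw [mul_sup, sup_mul, h1']; simp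
  show k * (a ⊔ 1) = (a ⊔ 1) * k
  calc k * (a ⊔ 1) = (k * (a ⊔ 1) * k⁻¹) * k := by group
    _ = (a ⊔ 1) * k := by rw [h3]

theorem commute_posPart {k a : G} (h1 : Commute k a) : Commute k a⁺ᵐ := commute_sup_one h1

theorem commute_negPart {k a : G} (h1 : Commute k a) : Commute k a⁻ᵐ :=
  commute_sup_one h1.inv_right

theorem posPart_mul_inv {a b : G} (h : a ⊓ b = 1) : (a * b⁻¹) ⊔ 1 = a := by
  have h1 : (a ⊔ b) * b⁻¹ = a := by rw [lg_sup_eq_mul h]; group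
  rw [sup_mul] at h1
  simpa using h1

theorem mabs_mul_inv {a b : G} (h : a ⊓ b = 1) : |a * b⁻¹|ₘ = a * b := by
  rw [mabs_eq_pos_mul_neg]
  congr 1
  · exact posPart_mul_inv h
  · show (a * b⁻¹)⁻¹ ⊔ 1 = b
    rw [mul_inv_rev, inv_inv]
    exact posPart_mul_inv (by rw [inf_comm]; exact h)

theorem pos_neg_commute (a : G) : Commute a⁺ᵐ a⁻ᵐ :=
  lg_comm (oneLePart_inf_leOnePart_eq_one a)

theorem pow_eq_pos_neg (a : G) (n : ℕ) : a ^ n = (a⁺ᵐ) ^ n * ((a⁻ᵐ) ^ n)⁻¹ := by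
  conv_lhs => rw [pos_mul_neg a]
  rw [(pos_neg_commute a).inv_right.mul_pow, inv_pow]

theorem mabs_le_mabs_pow (a : G) {n : ℕ} (hn : n ≠ 0) : |a|ₘ ≤ |a ^ n|ₘ := by
  have hp : (a⁺ᵐ) ^ n ⊓ (a⁻ᵐ) ^ n = 1 :=
    lg_pow_inf_pow_eq_one (one_le_oneLePart a) (one_le_leOnePart a)
      (oneLePart_inf_leOnePart_eq_one a) n n
  rw [pow_eq_pos_neg a n, mabs_mul_inv hp, mabs_eq_pos_mul_neg]
  exact mul_le_mul' (le_self_pow (one_le_oneLePart a) hn) (le_self_pow (one_le_leOnePart a) hn)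

theorem one_le_of_one_le_pow {a : G} {n : ℕ} (hn : n ≠ 0) (h : 1 ≤ a ^ n) : 1 ≤ a := by
  have hp : (a⁺ᵐ) ^ n ⊓ (a⁻ᵐ) ^ n = 1 :=
    lg_pow_inf_pow_eq_one (one_le_oneLePart a) (one_le_leOnePart a)
      (oneLePart_inf_leOnePart_eq_one a) n n
  rw [pow_eq_pos_neg a n] at h
  have h1 : (a⁻ᵐ) ^ n ≤ (a⁺ᵐ) ^ n := by
    have := mul_le_mul_left h ((a⁻ᵐ) ^ n)
    simpa using this
  have h2 : (a⁻ᵐ) ^ n = 1 := by
    rw [← hp]; exact (inf_eq_right.mpr h1).symm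
  have h3 : a⁻ᵐ = 1 := by
    apply le_antisymm _ (one_le_leOnePart a)
    rw [← h2]; exact le_self_pow (one_le_leOnePart a) hn
  exact leOnePart_eq_one.mp h3

theorem le_of_pow_le_pow_commute {a b : G} (hc : Commute a b) {n : ℕ} (hn : n ≠ 0)
    (h : a ^ n ≤ b ^ n) : a ≤ b := by
  have h1 : 1 ≤ (a⁻¹ * b) ^ n := by
    rw [hc.inv_left.mul_pow, inv_pow]
    exact le_inv_mul_iff_le.mpr h
  exact le_inv_mul_iff_le.mp (one_le_of_one_le_pow hn h1)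

theorem perp_of_pow {a b : G} {n : ℕ} (hn : n ≠ 0) (h : Perp (a ^ n) b) : Perp a b :=
  (h.symm.of_mabs_le (mabs_le_mabs_pow a hn)).symm

theorem Perp.pow_right {a b : G} (h : Perp a b) (n : ℕ) : Perp a (b ^ n) := by
  induction n with
  | zero => unfold Perp; simp
  | succ n ih => rw [pow_succ]; exact ih.mul_right h

theorem Perp.pow_left {a b : G} (h : Perp a b) (n : ℕ) : Perp (a ^ n) b :=
  (h.symm.pow_right n).symm

theorem eq_one_of_pow_eq_one {a : G} {n : ℕ} (hn : n ≠ 0) (h : a ^ n = 1) : a = 1 := by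
  have h1 : 1 ≤ a := one_le_of_one_le_pow hn h.ge
  have h2 : 1 ≤ a⁻¹ := one_le_of_one_le_pow hn (by rw [inv_pow, h]; simp)
  exact le_antisymm (by simpa using h2) h1

/-- The commutator estimate. -/
theorem comm_bound {k u v : G} (hv : 1 ≤ v) (hvu : v ≤ u) (hk : Commute k u) :
    |k * v * k⁻¹ * v⁻¹|ₘ ≤ u := by
  have h1 : k * v * k⁻¹ ≤ u := by
    calc k * v * k⁻¹ ≤ k * u * k⁻¹ := conj_le_conj hvu
      _ = u := by rw [hk.eq]; group
  rw [mabs_le']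
  constructor
  · calc k * v * k⁻¹ * v⁻¹ ≤ u * 1 := mul_le_mul' h1 (inv_le_one'.mpr hv)
      _ = u := mul_one u
  · calc (k * v * k⁻¹ * v⁻¹)⁻¹ = v * (k * v * k⁻¹)⁻¹ := by group
      _ ≤ u * 1 := mul_le_mul' hvu (inv_le_one'.mpr (one_le_conj hv))
      _ = u := mul_one u

theorem comm_bound' {k u v : G} (hv : 1 ≤ v) (hvu : v ≤ u) (hk : Commute k u) :
    |k * v⁻¹ * k⁻¹ * v|ₘ ≤ u := by
  have h1 : k * v * k⁻¹ ≤ u := by
    calc k * v * k⁻¹ ≤ k * u * k⁻¹ := conj_le_conj hvu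
      _ = u := by rw [hk.eq]; group
  rw [mabs_le']
  constructor
  · calc k * v⁻¹ * k⁻¹ * v = (k * v * k⁻¹)⁻¹ * v := by group
      _ ≤ 1 * u := mul_le_mul' (inv_le_one'.mpr (one_le_conj hv)) hvu
      _ = u := one_mul u
  · calc (k * v⁻¹ * k⁻¹ * v)⁻¹ = v⁻¹ * (k * v * k⁻¹) := by group
      _ ≤ 1 * u := mul_le_mul' (inv_le_one'.mpr hv) h1
      _ = u := one_mul u

/-- decomposition relative to the meet -/
theorem inf_decomp (x y : G) (hx : 1 ≤ x) (hy : 1 ≤ y) :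
    1 ≤ x ⊓ y ∧ 1 ≤ (x ⊓ y)⁻¹ * x ∧ 1 ≤ (x ⊓ y)⁻¹ * y ∧
      ((x ⊓ y)⁻¹ * x) ⊓ ((x ⊓ y)⁻¹ * y) = 1 := by
  refine ⟨le_inf hx hy, ?_, ?_, ?_⟩
  · exact le_inv_mul_iff_le.mpr inf_le_left
  · exact le_inv_mul_iff_le.mpr inf_le_right
  · rw [← mul_inf]; simp

theorem inv_mul_le_self {v x : G} (hv : 1 ≤ v) : v⁻¹ * x ≤ x := by
  calc v⁻¹ * x ≤ 1 * x := mul_le_mul' (inv_le_one'.mpr hv) le_rfl
    _ = x := one_mul x

end LG

end Pool.Agent.Lib.MP_aba4aa_al
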