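import Mathlib
import Pool.Agent.Lib.MP_aba4aa_al.Defs
import Pool.Agent.Lib.MP_aba4aa_al.LGroup
import Pool.Agent.Lib.MP_aba4aa_al.ArithField

/-!
The group `K ⋊ ℤ` attached to a good pair `(K, u)`, and the proof that every lattice order on it is
total.
-/

set_option autoImplicit false
set_option linter.unusedSectionVars false

namespace Pool.Agent.Lib.MP_aba4aa_al

/-- the semidirect product of the additive group of `K` and `ℤ`, where `1 : ℤ` acts as
multiplication by `u`. -/
@[ext] structure Sd (K : Type) [Field K] (u : Kˣ) where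
  /-- the field component -/
  a : K
  /-- the integer component -/
  n : ℤ

namespace Sd

variable {K : Type} [Field K] {u : Kˣ}

instance : Mul (Sd K u) := ⟨fun x y => ⟨x.a + (u : K) ^ x.n * y.a, x.n + y.n⟩⟩
instance : One (Sd K u) := ⟨⟨0, 0⟩⟩
instance : Inv (Sd K u) := ⟨fun x => ⟨-((u : K) ^ (-x.n) * x.a), -x.n⟩⟩

@[simp] theorem mul_a (x y : Sd K u) : (x * y).a = x.a + (u : K) ^ x.n * y.a := rfl
@[simp] theorem mul_n (x y : Sd K u) : (x * y).n = x.n + y.n := rfl
@[simp] theorem one_a : (1 : Sd K u).a = 0 := rfl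
@[simp] theorem one_n : (1 : Sd K u).n = 0 := rfl
@[simp] theorem inv_a (x : Sd K u) : (x⁻¹).a = -((u : K) ^ (-x.n) * x.a) := rfl
@[simp] theorem inv_n (x : Sd K u) : (x⁻¹).n = -x.n := rfl

instance : Group (Sd K u) :=
  Group.ofLeftAxioms
    (by
      intro x y z
      ext
      · simp only [mul_a, mul_n, zpow_add₀ u.ne_zero]; ring
      · simp only [mul_n]; ring)
    (by
      intro x
      ext
      · simp
      · simp)
    (by
      intro x
      ext
      · simp
      · simp)

/-- the projection to `ℤ` -/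
def pn : Sd K u →* Multiplicative ℤ where
  toFun x := Multiplicative.ofAdd x.n
  map_one' := rfl
  map_mul' _ _ := rfl

theorem pow_n (x : Sd K u) (k : ℕ) : (x ^ k).n = k * x.n := by
  induction k with
  | zero => simp
  | succ k ih => rw [pow_succ, mul_n, ih]; push_cast; ring

/-- the element `(b, 0)` -/
def ka (u : Kˣ) (b : K) : Sd K u := ⟨b, 0⟩

@[simp] theorem ka_a (b : K) : (ka u b).a = b := rfl
@[simp] theorem ka_n (b : K) : (ka u b).n = 0 := rfl

theorem ka_add (b c : K) : ka u (b + c) = ka u b * ka u c := by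
  ext <;> simp

theorem ka_zero : ka u 0 = 1 := rfl

theorem ka_neg (b : K) : ka u (-b) = (ka u b)⁻¹ := by
  ext <;> simp

theorem ka_sub (b c : K) : ka u (b - c) = ka u b * (ka u c)⁻¹ := by
  rw [sub_eq_add_neg, ka_add, ka_neg]

theorem ka_nsmul (b : K) (m : ℕ) : ka u (m • b) = (ka u b) ^ m := by
  induction m with
  | zero => simp [ka_zero]
  | succ m ih => rw [succ_nsmul, ka_add, ih, pow_succ]

theorem ka_inj {b c : K} : ka u b = ka u c ↔ b = c :=
  ⟨fun h => congrArg Sd.a h, fun h => by rw [h]⟩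

theorem ka_eq_one {b : K} : ka u b = 1 ↔ b = 0 := by
  rw [← ka_zero, ka_inj]

theorem eq_ka_of_n {x : Sd K u} (h : x.n = 0) : x = ka u x.a := by
  ext
  · rfl
  · exact h

theorem ka_commute (b c : K) : Commute (ka u b) (ka u c) := by
  show ka u b * ka u c = ka u c * ka u b
  rw [← ka_add, ← ka_add, add_comm]

/-- the element `t` -/
def tt (u : Kˣ) : Sd K u := ⟨0, 1⟩

@[simp] theorem tt_a : (tt u).a = 0 := rfl
@[simp] theorem tt_n : (tt u).n = 1 := rfl

theorem tt_pow (k : ℕ) : (tt u) ^ k = ⟨0, k⟩ := by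
  induction k with
  | zero => rfl
  | succ k ih => rw [pow_succ, ih]; ext <;> simp

theorem tt_conj (b : K) : tt u * ka u b * (tt u)⁻¹ = ka u (u * b) := by
  ext <;> simp

theorem tt_pow_conj (b : K) (k : ℕ) :
    (tt u) ^ k * ka u b * ((tt u) ^ k)⁻¹ = ka u ((u : K) ^ k * b) := by
  rw [tt_pow]; ext <;> simp

end Sd

section LG2

variable {G : Type*} [Lattice G] [Group G] [MulLeftMono G] [MulRightMono G]

/-- an element whose centralizer has rank one is comparable to `1`. -/
theorem comparable_of_centralizer (π : G →* Multiplicative ℤ) (g : G)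
    (h : ∀ x : G, Commute x g → π x = 1 → x = 1) : 1 ≤ g ∨ g ≤ 1 := by
  have hp : Commute g⁺ᵐ g := (commute_posPart (Commute.refl g)).symm
  have hq : Commute g⁻ᵐ g := (commute_negPart (Commute.refl g)).symm
  have hpq : g⁺ᵐ ⊓ g⁻ᵐ = 1 := oneLePart_inf_leOnePart_eq_one g
  have h1p := one_le_oneLePart g
  have h1q := one_le_leOnePart g
  by_cases hp1 : g⁺ᵐ = 1
  · right
    exact oneLePart_eq_one.mp hp1
  by_cases hq1 : g⁻ᵐ = 1
  · left
    exact leOnePart_eq_one.mp hq1
  exfalso
  set p := g⁺ᵐ with hpdef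
  set q := g⁻ᵐ with hqdef
  set i := (Multiplicative.toAdd (π q)).natAbs with hi
  set j := (Multiplicative.toAdd (π p)).natAbs with hj
  have hi0 : i ≠ 0 := by
    intro h0
    apply hq1
    apply h q hq
    have : Multiplicative.toAdd (π q) = 0 := Int.natAbs_eq_zero.mp h0
    exact this
  have hj0 : j ≠ 0 := by
    intro h0
    apply hp1
    apply h p hp
    have : Multiplicative.toAdd (π p) = 0 := Int.natAbs_eq_zero.mp h0
    exact this
  have hcase : p ^ i * (q ^ j)⁻¹ = 1 ∨ p ^ i * q ^ j = 1 := by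
    have e1 : Multiplicative.toAdd (π (p ^ i)) = i * Multiplicative.toAdd (π p) := by
      rw [map_pow, toAdd_pow]; simp
    have e2 : Multiplicative.toAdd (π (q ^ j)) = j * Multiplicative.toAdd (π q) := by
      rw [map_pow, toAdd_pow]; simp
    have key : (i : ℤ) * Multiplicative.toAdd (π p) = j * Multiplicative.toAdd (π q) ∨
        (i : ℤ) * Multiplicative.toAdd (π p) = -(j * Multiplicative.toAdd (π q)) := by
      rw [hi, hj]
      rcases Int.natAbs_eq (Multiplicative.toAdd (π p)) with hP | hP <;>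
      rcases Int.natAbs_eq (Multiplicative.toAdd (π q)) with hQ | hQ
      · left; rw [← hP, ← hQ]; ring
      · right
        have hQ' : ((Multiplicative.toAdd (π q)).natAbs : ℤ) = -(Multiplicative.toAdd (π q)) := by
          omega
        rw [← hP, hQ']; ring
      · right
        have hP' : ((Multiplicative.toAdd (π p)).natAbs : ℤ) = -(Multiplicative.toAdd (π p)) := by
          omega
        rw [← hQ, hP']; ring
      · left
        have hP' : ((Multiplicative.toAdd (π p)).natAbs : ℤ) = -(Multiplicative.toAdd (π p)) := by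
          omega
        have hQ' : ((Multiplicative.toAdd (π q)).natAbs : ℤ) = -(Multiplicative.toAdd (π q)) := by
          omega
        rw [hP', hQ']; ring
    rcases key with key | key
    · left
      apply h
      · exact (hp.pow_left i).mul_left (hq.pow_left j).inv_left
      · apply Multiplicative.toAdd.injective
        rw [map_mul, map_inv, toAdd_mul, toAdd_inv, e1, e2, key]; simp
    · right
      apply h
      · exact (hp.pow_left i).mul_left (hq.pow_left j)
      · apply Multiplicative.toAdd.injective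
        rw [map_mul, toAdd_mul, e1, e2, key]; simp
  have hdis : p ^ i ⊓ q ^ j = 1 := lg_pow_inf_pow_eq_one h1p h1q hpq i j
  rcases hcase with hc | hc
  · have : p ^ i = q ^ j := mul_inv_eq_one.mp hc
    rw [this, inf_idem] at hdis
    exact hq1 (eq_one_of_pow_eq_one hj0 hdis)
  · have h2 : p ^ i ≤ 1 := by
      rw [← hc]; exact le_mul_of_one_le_right' (one_le_pow_of_one_le' h1q j)
    have h3 : p ^ i = 1 := le_antisymm h2 (one_le_pow_of_one_le' h1p i)
    exact hp1 (eq_one_of_pow_eq_one hi0 h3)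

end LG2

section Total

variable {K : Type} [Field K] [Algebra ℚ K] {u : Kˣ} {r : ℕ}

theorem zpow_ne_one_of_good (hr : 0 < r) (hg : GoodPair K u r) {n : ℤ} (hn : n ≠ 0) :
    (u : K) ^ n ≠ 1 := by
  intro h
  obtain ⟨σ⟩ : Nonempty (K →+* ℝ) := by
    by_contra hne
    rw [not_nonempty_iff] at hne
    have := hg.card
    rw [Nat.card_of_isEmpty] at this
    omega
  have h1 := hg.one_lt σ
  have h2 : (σ u) ^ n = 1 := by rw [← map_zpow₀, h, map_one]
  rcases lt_or_gt_of_ne hn with h3 | h3
  · have := zpow_lt_one_of_neg₀ h1 h3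
    linarith
  · have := one_lt_zpow₀ h1 h3
    linarith

variable [Lattice (Sd K u)] [MulLeftMono (Sd K u)] [MulRightMono (Sd K u)]

open Sd

theorem centralizer_ka (hr : 0 < r) (hg : GoodPair K u r) {x : Sd K u} {b : K} (hb : b ≠ 0)
    (h : Commute x (ka u b)) : x.n = 0 := by
  by_contra hn
  have h1 : (x * ka u b).a = (ka u b * x).a := by rw [h.eq]
  simp only [mul_a, ka_a, ka_n, zpow_zero, one_mul] at h1
  have h2 : ((u : K) ^ x.n - 1) * b = 0 := by linear_combination h1
  rcases mul_eq_zero.mp h2 with h3 | h3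
  · exact zpow_ne_one_of_good hr hg hn (sub_eq_zero.mp h3)
  · exact hb h3

/-- elements outside the normal subgroup `K` are comparable to `1`. -/
theorem comparable_of_n (hr : 0 < r) (hg : GoodPair K u r) {g : Sd K u} (hn : g.n ≠ 0) :
    1 ≤ g ∨ g ≤ 1 := by
  apply comparable_of_centralizer (Sd.pn)
  intro x hx hx0
  have hxn : x.n = 0 := by
    have := congrArg Multiplicative.toAdd hx0
    exact this
  rw [eq_ka_of_n hxn] at hx ⊢
  by_contra hne
  have : x.a ≠ 0 := fun h => hne (by rw [h]; rfl)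
  exact hn (centralizer_ka hr hg this hx.symm)

/-- the orthogonal complement of `b` in `K`, a rational subspace. -/
def perpK (b : K) : Submodule ℚ K where
  carrier := {c | Perp (ka u b) (ka u c)}
  zero_mem' := by
    show Perp (ka u b) (ka u 0)
    rw [ka_zero]
    unfold Perp
    rw [mabs_one]
    exact inf_eq_right.mpr (one_le_mabs _)
  add_mem' := by
    intro c d hc hd
    show Perp (ka u b) (ka u (c + d))
    rw [ka_add]
    exact Perp.mul_right hc hd
  smul_mem' := by
    intro q c hc
    show Perp (ka u b) (ka u (q • c))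
    have h1 : (ka u (q • c)) ^ q.den = ka u ((q.num : ℚ) • c) := by
      rw [← ka_nsmul]
      congr 1
      rw [← Nat.cast_smul_eq_nsmul ℚ, smul_smul]
      congr 1
      rw [mul_comm]; exact Rat.mul_den_eq_num q
    have h2 : Perp (ka u b) (ka u ((q.num : ℚ) • c)) := by
      rcases Int.natAbs_eq q.num with h | h
      · rw [h]
        have : (((q.num.natAbs : ℤ) : ℚ) • c) = q.num.natAbs • c := by
          rw [← Nat.cast_smul_eq_nsmul ℚ]; norm_cast
        rw [this, ka_nsmul]
        exact Perp.pow_right hc _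
      · rw [h]
        have : (((-(q.num.natAbs : ℤ) : ℤ) : ℚ) • c) = -(q.num.natAbs • c) := by
          rw [← Nat.cast_smul_eq_nsmul ℚ, Int.cast_neg, neg_smul, Int.cast_natCast]
        rw [this, ka_neg, ka_nsmul]
        exact (Perp.pow_right hc _).inv_right
    rw [← h1] at h2
    exact (perp_of_pow q.den_ne_zero h2.symm).symm

theorem mem_perpK {b c : K} : c ∈ perpK (u := u) b ↔ Perp (ka u b) (ka u c) := Iff.rfl

theorem not_mem_perpK_self {b : K} (hb : b ≠ 0) : b ∉ perpK (u := u) b := by
  intro h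
  rw [mem_perpK, perp_self_iff, ka_eq_one] at h
  exact hb h

theorem pow_mem_perpK {b c : K} (k : ℕ) (h : c ∈ perpK (u := u) b) :
    (u : K) ^ k * c ∈ perpK (u := u) ((u : K) ^ k * b) := by
  rw [mem_perpK] at h ⊢
  have := h.conj ((tt u) ^ k)
  rwa [tt_pow_conj, tt_pow_conj] at this

theorem exists_not_perp (hg : GoodPair K (u : K) r) {a : K} (ha : a ≠ 0) :
    ∃ k : ℕ, 0 < k ∧ (u : K) ^ k * a ∉ perpK (u := u) a := by
  by_contra hcon
  push Not at hcon
  let D : Submodule ℚ K :=
    { carrier := {c | ∀ k : ℕ, 0 < k → (u : K) ^ k * c ∈ perpK (u := u) a}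
      zero_mem' := by
        intro k _
        rw [mul_zero]; exact Submodule.zero_mem _
      add_mem' := by
        intro c d hc hd k hk
        rw [mul_add]; exact Submodule.add_mem _ (hc k hk) (hd k hk)
      smul_mem' := by
        intro q c hc k hk
        rw [mul_smul_comm]; exact Submodule.smul_mem _ q (hc k hk) }
  have haD : a ∈ D := fun k hk => hcon k hk
  rcases hg.stable 1 one_ne_zero D (by
    intro c hc k hk
    rw [zpow_one, ← mul_assoc, ← pow_succ]
    exact hc (k + 1) (by omega)) with h | h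
  · rw [h, Submodule.mem_bot] at haD
    exact ha haD
  · have h1 : (u : K)⁻¹ * a ∈ D := by rw [h]; trivial
    have h2 := h1 1 one_pos
    rw [pow_one, ← mul_assoc, mul_inv_cancel₀ u.ne_zero, one_mul] at h2
    exact not_mem_perpK_self ha h2

theorem perpK_eq_bot (hr : 0 < r) (hg : GoodPair K (u : K) r) {b : K} (hb : b ≠ 0) :
    perpK (u := u) b = ⊥ := by
  have hfin : Module.Finite ℚ K := hg.fin
  by_contra hne
  obtain ⟨V, ⟨⟨a, ha, rfl⟩, hVne⟩, hmax⟩ := set_has_maximal_iff_noetherian.mpr
    (inferInstance : IsNoetherian ℚ K)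
    {V | (∃ a : K, a ≠ 0 ∧ V = perpK (u := u) a) ∧ V ≠ ⊥} ⟨_, ⟨b, hb, rfl⟩, hne⟩
  obtain ⟨k, hk, hnp⟩ := exists_not_perp hg ha
  rw [mem_perpK] at hnp
  set e : Sd K u := |ka u a|ₘ ⊓ |ka u ((u : K) ^ k * a)|ₘ with he
  have he1 : 1 ≤ e := le_inf (one_le_mabs _) (one_le_mabs _)
  have hec : Commute e (ka u a) := by
    apply Commute.symm
    exact commute_inf (commute_mabs (Commute.refl _)) (commute_mabs (ka_commute _ _))
  have hen : e.n = 0 := centralizer_ka hr hg ha hec
  have hee : e = ka u e.a := eq_ka_of_n hen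
  have hea : e.a ≠ 0 := by
    intro h0
    apply hnp
    show |ka u a|ₘ ⊓ |ka u ((u : K) ^ k * a)|ₘ = 1
    rw [← he, hee, h0, ka_zero]
  have hle1 : |ka u e.a|ₘ ≤ |ka u a|ₘ := by
    rw [← hee, mabs_of_one_le he1]; exact inf_le_left
  have hle2 : |ka u e.a|ₘ ≤ |ka u ((u : K) ^ k * a)|ₘ := by
    rw [← hee, mabs_of_one_le he1]; exact inf_le_right
  have hge : perpK (u := u) a ≤ perpK (u := u) e.a := by
    intro c hc
    rw [mem_perpK] at hc ⊢
    exact (hc.symm.of_mabs_le hle1).symm
  have heq : perpK (u := u) e.a = perpK (u := u) a := by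
    by_contra hne'
    have hlt : perpK (u := u) a < perpK (u := u) e.a := lt_of_le_of_ne hge (Ne.symm hne')
    refine hmax (perpK (u := u) e.a) ⟨⟨e.a, hea, rfl⟩, ?_⟩ hlt
    intro hbot
    rw [hbot] at hlt
    exact not_lt_bot hlt
  have hst : ∀ c ∈ perpK (u := u) a, (u : K) ^ (k : ℤ) * c ∈ perpK (u := u) a := by
    intro c hc
    rw [← heq, mem_perpK, zpow_natCast]
    have := pow_mem_perpK k hc
    rw [mem_perpK] at this
    exact (this.symm.of_mabs_le hle2).symm
  rcases hg.stable k (by exact_mod_cast hk.ne') _ hst with h | h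
  · exact hVne h
  · exact not_mem_perpK_self (u := u) ha (by rw [h]; trivial)

/-- every lattice order on the group is total. -/
theorem comparable_one (hr : 0 < r) (hg : GoodPair K (u : K) r) (g : Sd K u) :
    1 ≤ g ∨ g ≤ 1 := by
  by_cases hn : g.n = 0
  · rw [eq_ka_of_n hn]
    set a := g.a
    by_cases ha : a = 0
    · left; rw [ha, ka_zero]
    have hpn : ((ka u a)⁺ᵐ).n = 0 :=
      centralizer_ka hr hg ha (commute_posPart (Commute.refl (ka u a))).symm
    have hqn : ((ka u a)⁻ᵐ).n = 0 :=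
      centralizer_ka hr hg ha (commute_negPart (Commute.refl (ka u a))).symm
    have hpq : (ka u a)⁺ᵐ ⊓ (ka u a)⁻ᵐ = 1 := oneLePart_inf_leOnePart_eq_one _
    have hperp : Perp (ka u a)⁺ᵐ (ka u a)⁻ᵐ :=
      (perp_of_one_le (one_le_oneLePart _) (one_le_leOnePart _)).mpr hpq
    by_cases hp0 : ((ka u a)⁺ᵐ).a = 0
    · right
      have : (ka u a)⁺ᵐ = 1 := by rw [eq_ka_of_n hpn, hp0, ka_zero]
      exact oneLePart_eq_one.mp this
    · left
      rw [eq_ka_of_n hpn, eq_ka_of_n hqn, ← mem_perpK, perpK_eq_bot hr hg hp0,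
        Submodule.mem_bot] at hperp
      have : (ka u a)⁻ᵐ = 1 := by rw [eq_ka_of_n hqn, hperp, ka_zero]
      exact leOnePart_eq_one.mp this
  · exact comparable_of_n hr hg hn

theorem total_of_good (hr : 0 < r) (hg : GoodPair K (u : K) r) (x y : Sd K u) :
    x ≤ y ∨ y ≤ x := by
  rcases comparable_one hr hg (x⁻¹ * y) with h | h
  · left; exact le_inv_mul_iff_le.mp h
  · right; exact inv_mul_le_one_iff.mp h

end Total

end Pool.Agent.Lib.MP_aba4aa_al
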