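import Mathlib
import Pool.Agent.Lib.MP_aba4aa_al.ArithGroup

/-!
Classification of the total orders on `K` compatible with multiplication by `u`, and of the
lattice orders on `K ⋊ ℤ`.
-/

set_option autoImplicit false
set_option linter.unusedSectionVars false

namespace Pool.Agent.Lib.MP_aba4aa_al

section Field

variable {K : Type} [Field K] [Algebra ℚ K] {u : Kˣ} {r : ℕ} [LinearOrder K]
  [IsOrderedAddMonoid K]

theorem abs_rat_smul_le (q : ℚ) (x : K) : |q • x| ≤ q.num.natAbs • |x| := by
  have h1 : q.den • (q • x) = (q.num : ℤ) • x := by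
    rw [← Nat.cast_smul_eq_nsmul ℚ, smul_smul, ← Int.cast_smul_eq_zsmul ℚ]
    congr 1
    rw [mul_comm]; exact Rat.mul_den_eq_num q
  have h2 : (1 : ℕ) • |q • x| ≤ q.den • |q • x| :=
    nsmul_le_nsmul_left (abs_nonneg _) q.den_pos
  rw [one_nsmul] at h2
  calc |q • x| ≤ q.den • |q • x| := h2
    _ = |q.den • (q • x)| := (abs_nsmul _ _).symm
    _ = |(q.num : ℤ) • x| := by rw [h1]
    _ = q.num.natAbs • |x| := by
        rw [abs_zsmul, ← natCast_zsmul, Int.natCast_natAbs]

/-- the convex rational subspace generated by `a`. -/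
def convexHull' (a : K) : Submodule ℚ K where
  carrier := {x | ∃ n : ℕ, |x| ≤ n • |a|}
  zero_mem' := ⟨0, by simp⟩
  add_mem' := by
    rintro x y ⟨m, hm⟩ ⟨n, hn⟩
    refine ⟨m + n, ?_⟩
    rw [add_nsmul]
    exact (abs_add_le x y).trans (add_le_add hm hn)
  smul_mem' := by
    rintro q x ⟨n, hn⟩
    refine ⟨q.num.natAbs * n, ?_⟩
    rw [mul_nsmul']
    exact (abs_rat_smul_le q x).trans (nsmul_le_nsmul_right hn _)

theorem archimedean_of_good (hg : GoodPair K (u : K) r)
    (hu : ∀ a : K, 0 ≤ a ↔ 0 ≤ (u : K) * a) : Archimedean K := by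
  have habs : ∀ a : K, |(u : K) * a| = (u : K) * |a| := by
    intro a
    rcases le_total 0 a with h | h
    · rw [abs_of_nonneg h, abs_of_nonneg ((hu a).mp h)]
    · have h' : 0 ≤ (u : K) * (-a) := (hu (-a)).mp (neg_nonneg.mpr h)
      rw [mul_neg] at h'
      rw [abs_of_nonpos h, abs_of_nonpos (neg_nonneg.mp h'), mul_neg]
  have hmono : ∀ a b : K, a ≤ b → (u : K) * a ≤ (u : K) * b := by
    intro a b hab
    have := (hu (b - a)).mp (sub_nonneg.mpr hab)
    rw [mul_sub] at this
    exact sub_nonneg.mp this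
  have hmono' : ∀ a b : K, (u : K) * a ≤ (u : K) * b → a ≤ b := by
    intro a b hab
    have := (hu (b - a)).mpr (by rw [mul_sub]; exact sub_nonneg.mpr hab)
    exact sub_nonneg.mp this
  have key : ∀ a : K, a ≠ 0 → convexHull' a = ⊤ := by
    intro a ha
    have haC : a ∈ convexHull' a := ⟨1, by simp⟩
    have hne : convexHull' a ≠ ⊥ := by
      intro h
      rw [h, Submodule.mem_bot] at haC
      exact ha haC
    by_cases h : ∃ n : ℕ, |(u : K) * a| ≤ n • |a|
    · obtain ⟨n, hn⟩ := h
      rcases hg.stable 1 one_ne_zero (convexHull' a) (by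
        rintro c ⟨m, hm⟩
        refine ⟨m * n, ?_⟩
        rw [zpow_one, habs, mul_nsmul']
        calc (u : K) * |c| ≤ (u : K) * (m • |a|) := hmono _ _ hm
          _ = m • |(u : K) * a| := by rw [mul_smul_comm, habs]
          _ ≤ m • (n • |a|) := nsmul_le_nsmul_right hn _) with h' | h'
      · exact absurd h' hne
      · exact h'
    · push Not at h
      have h1 := (h 1).le
      rw [one_nsmul] at h1
      rcases hg.stable (-1) (by norm_num) (convexHull' a) (by
        rintro c ⟨m, hm⟩
        refine ⟨m, ?_⟩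
        rw [zpow_neg_one]
        apply hmono'
        rw [← habs, ← mul_assoc, mul_inv_cancel₀ u.ne_zero, one_mul, mul_smul_comm]
        refine hm.trans (nsmul_le_nsmul_right ?_ _)
        rw [← habs]; exact h1) with h' | h'
      · exact absurd h' hne
      · exact h'
  refine ⟨fun x y hy => ?_⟩
  have hx : x ∈ convexHull' y := by rw [key y hy.ne']; trivial
  obtain ⟨n, hn⟩ := hx
  refine ⟨n, (le_abs_self x).trans ?_⟩
  rwa [abs_of_pos hy] at hn

theorem ratio_aux (φ ψ : K →+ ℝ) (hφ : StrictMono φ) (hψ : StrictMono ψ) (x y : K) :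
    φ x * ψ y = ψ x * φ y := by
  have key : ∀ x y : K, 0 < y → φ x * ψ y = ψ x * φ y := by
    intro x y hy
    have h1 : 0 < φ y := by have := hφ hy; rwa [map_zero] at this
    have h2 : 0 < ψ y := by have := hψ hy; rwa [map_zero] at this
    have h3 : φ x / φ y = ψ x / ψ y := by
      apply eq_of_forall_rat_lt_iff_lt
      intro q
      rw [lt_div_iff₀ h1, lt_div_iff₀ h2]
      have e1 : (q : ℝ) * φ y = φ (q • y) := by
        rw [map_rat_smul, Rat.smul_def]
      have e2 : (q : ℝ) * ψ y = ψ (q • y) := by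
        rw [map_rat_smul, Rat.smul_def]
      rw [e1, e2, hφ.lt_iff_lt, hψ.lt_iff_lt]
    rw [div_eq_div_iff h1.ne' h2.ne'] at h3
    exact h3
  rcases lt_trichotomy y 0 with h | h | h
  · have := key x (-y) (neg_pos.mpr h)
    rw [map_neg, map_neg] at this
    linarith
  · rw [h, map_zero, map_zero, mul_zero, mul_zero]
  · exact key x y h

/-- the sign attached to a truth value. -/
def sg (e : Bool) : ℝ := if e then 1 else -1

@[simp] theorem sg_true : sg true = 1 := rfl
@[simp] theorem sg_false : sg false = -1 := rfl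

theorem exists_embedding (hg : GoodPair K (u : K) r)
    (hu : ∀ a : K, 0 ≤ a ↔ 0 ≤ (u : K) * a) :
    ∃ (σ : K →+* ℝ) (e : Bool), ∀ a : K, 0 ≤ a ↔ 0 ≤ sg e * σ a := by
  have hA : Archimedean K := archimedean_of_good hg hu
  obtain ⟨φ, hφ⟩ := Archimedean.exists_orderAddMonoidHom_real_injective K
  have hφm : StrictMono φ := φ.monotone'.strictMono_of_injective hφ
  have humono : StrictMono fun a : K => (u : K) * a := by
    intro a b hab
    have h1 : 0 ≤ (u : K) * (b - a) := (hu _).mp (sub_nonneg.mpr hab.le)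
    rw [mul_sub] at h1
    refine lt_of_le_of_ne (sub_nonneg.mp h1) ?_
    intro h
    exact hab.ne (mul_left_cancel₀ u.ne_zero h)
  let ψ : K →+ ℝ := (φ : K →+ ℝ).comp (AddMonoidHom.mulLeft (u : K))
  have hψ : ∀ x, ψ x = φ ((u : K) * x) := fun _ => rfl
  have hψm : StrictMono ψ := fun a b hab => hφm (humono hab)
  have hr : ∀ x y : K, φ x * φ ((u : K) * y) = φ ((u : K) * x) * φ y := fun x y =>
    ratio_aux (φ : K →+ ℝ) ψ hφm hψm x y
  have h1 : φ 1 ≠ 0 := by
    intro h
    have : (1 : K) = 0 := hφ (by rw [h, map_zero])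
    exact one_ne_zero this
  have hmul : ∀ z x : K, φ (z * x) * φ 1 = φ z * φ x := by
    let D : Submodule ℚ K :=
      { carrier := {z | ∀ x : K, φ (z * x) * φ 1 = φ z * φ x}
        zero_mem' := by intro x; rw [zero_mul, map_zero]; ring
        add_mem' := by
          intro c d hc hd x
          rw [add_mul, map_add, map_add, add_mul, add_mul, hc x, hd x]
        smul_mem' := by
          intro q c hc x
          have e1 : ∀ y : K, φ (q • y) = (q : ℝ) * φ y := by
            intro y
            rw [map_rat_smul, Rat.smul_def]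
          rw [smul_mul_assoc, e1, e1, mul_assoc, hc x, mul_assoc] }
    have h1D : (1 : K) ∈ D := by
      intro x; rw [one_mul]; ring
    rcases hg.stable 1 one_ne_zero D (by
      intro z hz x
      rw [zpow_one]
      have e1 := hr (z * x) 1
      rw [mul_one] at e1
      have e2 := hr z 1
      rw [mul_one] at e2
      have e3 := hz x
      rw [mul_assoc, ← e1]
      have : φ 1 * (φ (z * x) * φ (u : K)) = φ 1 * (φ ((u : K) * z) * φ x) := by
        calc φ 1 * (φ (z * x) * φ (u : K)) = (φ (z * x) * φ 1) * φ (u : K) := by ring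
          _ = φ z * φ x * φ (u : K) := by rw [e3]
          _ = (φ z * φ (u : K)) * φ x := by ring
          _ = φ ((u : K) * z) * φ 1 * φ x := by rw [e2]
          _ = _ := by ring
      exact mul_left_cancel₀ h1 this) with h | h
    · rw [h, Submodule.mem_bot] at h1D
      exact absurd h1D one_ne_zero
    · intro z x
      have : z ∈ D := by rw [h]; trivial
      exact this x
  let σ : K →+* ℝ :=
    { toFun := fun x => φ x / φ 1
      map_one' := div_self h1
      map_mul' := by
        intro x y
        have := hmul x y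
        field_simp
        linarith
      map_zero' := by rw [map_zero, zero_div]
      map_add' := by intro x y; rw [map_add, add_div] }
  have hσ : ∀ x, φ x = φ 1 * σ x := by
    intro x
    show φ x = φ 1 * (φ x / φ 1)
    field_simp
  have hnn : ∀ a : K, 0 ≤ a ↔ 0 ≤ φ 1 * σ a := by
    intro a
    rw [← hσ, ← hφm.le_iff_le, map_zero]
  rcases lt_or_gt_of_ne h1 with h | h
  · refine ⟨σ, false, fun a => ?_⟩
    rw [hnn a, sg_false]
    constructor
    · intro h'
      have : σ a ≤ 0 := by
        by_contra hc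
        push Not at hc
        have := mul_neg_of_neg_of_pos h hc
        linarith
      linarith
    · intro h'
      have : σ a ≤ 0 := by linarith
      exact mul_nonneg_of_nonpos_of_nonpos h.le this
  · refine ⟨σ, true, fun a => ?_⟩
    rw [hnn a, sg_true, one_mul]
    exact mul_nonneg_iff_of_pos_left h

end Field

section LO

variable {G : Type*} [Group G]

theorem isLO_of_total {R : G → G → Prop} (h1 : ∀ a, R a a) (h2 : ∀ a b c, R a b → R b c → R a c)
    (h3 : ∀ a b, R a b → R b a → a = b) (h4 : ∀ a b c d, R a b → R (c * a * d) (c * b * d))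
    (h5 : ∀ a b, R a b ∨ R b a) : IsLO G R := by
  refine ⟨h1, h2, h3, h4, ?_, ?_⟩
  · intro a b
    rcases h5 a b with h | h
    · exact ⟨b, h, h1 b, fun u _ hu => hu⟩
    · exact ⟨a, h1 a, h, fun u hu _ => hu⟩
  · intro a b
    rcases h5 a b with h | h
    · exact ⟨a, h1 a, h, fun u hu _ => hu⟩
    · exact ⟨b, h, h1 b, fun u _ hu => hu⟩

theorem IsLO.reverse {R : G → G → Prop} (h : IsLO G R) : IsLO G (fun a b => R b a) := by
  obtain ⟨h1, h2, h3, h4, h5, h6⟩ := h
  refine ⟨h1, fun a b c hab hbc => h2 _ _ _ hbc hab, fun a b hab hba => h3 _ _ hba hab,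
    fun a b c d hab => h4 _ _ _ _ hab, fun a b => ?_, fun a b => ?_⟩
  · obtain ⟨s, hs1, hs2, hs3⟩ := h6 a b
    exact ⟨s, hs1, hs2, hs3⟩
  · obtain ⟨s, hs1, hs2, hs3⟩ := h5 a b
    exact ⟨s, hs1, hs2, hs3⟩

/-- the lattice given by a lattice order relation. -/
@[instance_reducible] noncomputable def latOf {R : G → G → Prop} (h : IsLO G R) : Lattice G where
  le := R
  le_refl := h.1
  le_trans := h.2.1
  le_antisymm := h.2.2.1
  sup a b := Classical.choose (h.2.2.2.2.1 a b)
  le_sup_left a b := (Classical.choose_spec (h.2.2.2.2.1 a b)).1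
  le_sup_right a b := (Classical.choose_spec (h.2.2.2.2.1 a b)).2.1
  sup_le a b c := (Classical.choose_spec (h.2.2.2.2.1 a b)).2.2 c
  inf a b := Classical.choose (h.2.2.2.2.2 a b)
  inf_le_left a b := (Classical.choose_spec (h.2.2.2.2.2 a b)).1
  inf_le_right a b := (Classical.choose_spec (h.2.2.2.2.2 a b)).2.1
  le_inf a b c := (Classical.choose_spec (h.2.2.2.2.2 b c)).2.2 a

end LO

section Classify

variable {K : Type} [Field K] [Algebra ℚ K] {u : Kˣ} {r : ℕ}

open Sd

/-- the total order on `K ⋊ ℤ` attached to a real embedding and two signs. -/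
def ordR (u : Kˣ) (σ : K →+* ℝ) (e1 e2 : Bool) (x y : Sd K u) : Prop :=
  sg e1 * (x.n : ℝ) < sg e1 * (y.n : ℝ) ∨ (x.n = y.n ∧ sg e2 * σ x.a ≤ sg e2 * σ y.a)

theorem sg_ne_zero (e : Bool) : sg e ≠ 0 := by cases e <;> simp

theorem sg_mul_self (e : Bool) : sg e * sg e = 1 := by cases e <;> simp

theorem ordR_isLO (hg : GoodPair K (u : K) r) (σ : K →+* ℝ) (e1 e2 : Bool) :
    IsLO (Sd K u) (ordR u σ e1 e2) := by
  have hpos : 0 < σ (u : K) := lt_trans one_pos (hg.one_lt σ)
  apply isLO_of_total
  · intro a; right; exact ⟨rfl, le_rfl⟩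
  · intro a b c hab hbc
    rcases hab with hab | ⟨hab, hab'⟩ <;> rcases hbc with hbc | ⟨hbc, hbc'⟩
    · left; exact hab.trans hbc
    · left; rw [← hbc]; exact hab
    · left; rw [hab]; exact hbc
    · right; exact ⟨hab.trans hbc, hab'.trans hbc'⟩
  · intro a b hab hba
    rcases hab with hab | ⟨hab, hab'⟩ <;> rcases hba with hba | ⟨hba, hba'⟩
    · exact absurd hab (not_lt.mpr hba.le)
    · rw [hba] at hab; exact absurd hab (lt_irrefl _)
    · rw [hab] at hba; exact absurd hba (lt_irrefl _)
    · have h1 := le_antisymm hab' hba'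
      have h2 := mul_left_cancel₀ (sg_ne_zero e2) h1
      ext
      · exact σ.injective h2
      · exact hab
  · intro a b c d hab
    rcases hab with hab | ⟨hab, hab'⟩
    · left
      simp only [mul_n, Int.cast_add, mul_add]
      linarith
    · right
      refine ⟨by simp only [mul_n, hab], ?_⟩
      simp only [mul_a, mul_n, map_add, map_mul, map_zpow₀, hab]
      have h1 : 0 < σ (u : K) ^ c.n := zpow_pos hpos _
      have h2 := mul_le_mul_of_nonneg_left hab' h1.le
      nlinarith [h2]
  · intro a b
    rcases lt_trichotomy (sg e1 * (a.n : ℝ)) (sg e1 * (b.n : ℝ)) with h | h | h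
    · left; left; exact h
    · have h1 : (a.n : ℝ) = b.n := mul_left_cancel₀ (sg_ne_zero e1) h
      have h2 : a.n = b.n := by exact_mod_cast h1
      rcases le_total (sg e2 * σ a.a) (sg e2 * σ b.a) with h3 | h3
      · left; right; exact ⟨h2, h3⟩
      · right; right; exact ⟨h2.symm, h3⟩
    · right; left; exact h

theorem ordR_reverse (σ : K →+* ℝ) (e1 e2 : Bool) (x y : Sd K u) :
    ordR u σ e1 e2 y x ↔ ordR u σ (!e1) (!e2) x y := by
  unfold ordR
  have h : ∀ e : Bool, sg (!e) = - sg e := by intro e; cases e <;> simp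
  rw [h, h]
  constructor
  · rintro (h | ⟨h, h'⟩)
    · left; linarith
    · right; exact ⟨h.symm, by linarith⟩
  · rintro (h | ⟨h, h'⟩)
    · left; linarith
    · right; exact ⟨h.symm, by linarith⟩

theorem total_of_isLO (hr : 0 < r) (hg : GoodPair K (u : K) r) {R : Sd K u → Sd K u → Prop}
    (hR : IsLO (Sd K u) R) (a b : Sd K u) : R a b ∨ R b a := by
  let _ : Lattice (Sd K u) := latOf hR
  have h4 := hR.2.2.2.1
  have : MulLeftMono (Sd K u) := ⟨fun c a b hab => by
    have := h4 a b c 1 hab
    rw [mul_one, mul_one] at this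
    exact this⟩
  have : MulRightMono (Sd K u) := ⟨fun c a b hab => by
    have := h4 a b 1 c hab
    rw [one_mul, one_mul] at this
    exact this⟩
  exact total_of_good hr hg a b

theorem classify_pos (hr : 0 < r) (hg : GoodPair K (u : K) r) {R : Sd K u → Sd K u → Prop}
    (hR : IsLO (Sd K u) R) (ht : R 1 (tt u)) :
    ∃ (σ : K →+* ℝ) (e : Bool), ∀ x y, R x y ↔ ordR u σ true e x y := by
  have htot := total_of_isLO hr hg hR
  obtain ⟨h1, h2, h3, h4, -, -⟩ := hR
  have hl : ∀ a b c, R a b → R (c * a) (c * b) := by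
    intro a b c h
    have := h4 a b c 1 h
    rwa [mul_one, mul_one] at this
  have hr' : ∀ a b c, R a b → R (a * c) (b * c) := by
    intro a b c h
    have := h4 a b 1 c h
    rwa [one_mul, one_mul] at this
  have hconj : ∀ g c, R 1 g → R 1 (c * g * c⁻¹) := by
    intro g c h
    have := h4 1 g c c⁻¹ h
    rwa [mul_one, mul_inv_cancel] at this
  have hmul : ∀ g h, R 1 g → R 1 h → R 1 (g * h) := by
    intro g h hg hh
    have := hl 1 h g hh
    rw [mul_one] at this
    exact h2 _ _ _ hg this
  have hu1 : (1 : K) - (u : K) ≠ 0 := by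
    have := zpow_ne_one_of_good hr hg (n := 1) one_ne_zero
    rw [zpow_one] at this
    exact sub_ne_zero.mpr this.symm
  have hone : ∀ a : K, R 1 (⟨a, 1⟩ : Sd K u) := by
    intro a
    have := hconj (tt u) (ka u (a / (1 - u))) ht
    convert this using 1
    ext
    · simp only [mul_a, ka_a, ka_n, tt_a, tt_n, mul_n, inv_a, zpow_zero, zero_add, zpow_one,
        neg_zero, mul_zero, add_zero]
      field_simp
      ring
    · simp
  have hnpos : ∀ (k : ℕ) (a : K), R 1 (⟨a, (k : ℤ) + 1⟩ : Sd K u) := by
    intro k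
    induction k with
    | zero => intro a; simpa using hone a
    | succ k ih =>
      intro a
      have := hmul _ _ (hone a) (ih 0)
      convert this using 1
      ext
      · simp
      · simp only [mul_n]; push_cast; ring
  have hpos : ∀ g : Sd K u, 0 < g.n → R 1 g := by
    intro g hgn
    obtain ⟨k, hk⟩ : ∃ k : ℕ, g.n = (k : ℤ) + 1 := ⟨(g.n - 1).toNat, by omega⟩
    have := hnpos k g.a
    rw [← hk] at this
    exact this
  let _ : LinearOrder K :=
    { le := fun a b => R (ka u a) (ka u b)
      le_refl := fun a => h1 _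
      le_trans := fun a b c => h2 _ _ _
      le_antisymm := fun a b hab hba => ka_inj.mp (h3 _ _ hab hba)
      le_total := fun a b => htot _ _
      toDecidableLE := Classical.decRel _ }
  have hle : ∀ a b : K, a ≤ b ↔ R (ka u a) (ka u b) := fun _ _ => Iff.rfl
  have hoam : IsOrderedAddMonoid K :=
    { add_le_add_left := by
        intro a b hab c
        rw [hle] at hab ⊢
        rw [ka_add, ka_add]
        exact hr' _ _ _ hab }
  have hnn : ∀ a : K, 0 ≤ a ↔ R 1 (ka u a) := by
    intro a; rw [hle, ka_zero]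
  have hu : ∀ a : K, 0 ≤ a ↔ 0 ≤ (u : K) * a := by
    intro a
    rw [hnn, hnn]
    constructor
    · intro h
      rw [← tt_conj]; exact hconj _ _ h
    · intro h
      have := hconj _ (tt u)⁻¹ h
      rw [← tt_conj] at this
      convert this using 1
      group
  obtain ⟨σ, e, hσ⟩ := exists_embedding hg hu
  refine ⟨σ, e, fun x y => ?_⟩
  have hxy : R x y ↔ R 1 (x⁻¹ * y) := by
    constructor
    · intro h
      have := hl _ _ x⁻¹ h
      rwa [inv_mul_cancel] at this
    · intro h
      have := hl _ _ x h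
      rwa [mul_one, mul_inv_cancel_left] at this
  unfold ordR
  rw [sg_true, one_mul, one_mul]
  rcases lt_trichotomy x.n y.n with h | h | h
  · constructor
    · intro _; left; exact_mod_cast h
    · intro _
      rw [hxy]
      apply hpos
      simp only [mul_n, inv_n]; omega
  · have e1 : x = ka u x.a * ⟨0, x.n⟩ := by ext <;> simp
    have e2 : y = ka u y.a * ⟨0, x.n⟩ := by ext <;> simp [h]
    have e3 : R x y ↔ R (ka u x.a) (ka u y.a) := by
      constructor
      · intro hh
        rw [e1, e2] at hh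
        have := hr' _ _ (⟨0, x.n⟩ : Sd K u)⁻¹ hh
        simpa using this
      · intro hh
        rw [e1, e2]
        exact hr' _ _ _ hh
    rw [e3, ← hle, ← sub_nonneg, hσ, map_sub, mul_sub, sub_nonneg]
    constructor
    · intro hh; right; exact ⟨h, hh⟩
    · rintro (hh | ⟨_, hh⟩)
      · rw [h] at hh; exact absurd hh (lt_irrefl _)
      · exact hh
  · constructor
    · intro hh
      exfalso
      have h5 : R y x := by
        have h6 : R 1 (y⁻¹ * x) := by
          apply hpos
          simp only [mul_n, inv_n]; omega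
        have := hl _ _ y h6
        rwa [mul_one, mul_inv_cancel_left] at this
      have := h3 _ _ hh h5
      rw [this] at h
      exact lt_irrefl _ h
    · rintro (hh | ⟨hh, _⟩)
      · exfalso
        have : x.n < y.n := by exact_mod_cast hh
        omega
      · omega

theorem classify (hr : 0 < r) (hg : GoodPair K (u : K) r) {R : Sd K u → Sd K u → Prop}
    (hR : IsLO (Sd K u) R) :
    ∃ (σ : K →+* ℝ) (e1 e2 : Bool), R = ordR u σ e1 e2 := by
  rcases total_of_isLO hr hg hR 1 (tt u) with h | h
  · obtain ⟨σ, e, hσ⟩ := classify_pos hr hg hR h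
    exact ⟨σ, true, e, by funext x y; exact propext (hσ x y)⟩
  · obtain ⟨σ, e, hσ⟩ := classify_pos hr hg hR.reverse h
    refine ⟨σ, false, !e, ?_⟩
    funext x y
    apply propext
    rw [hσ y x, ordR_reverse]
    rfl

theorem ordR_injective :
    Function.Injective fun p : (K →+* ℝ) × Bool × Bool => ordR u p.1 p.2.1 p.2.2 := by
  rintro ⟨σ, e1, e2⟩ ⟨τ, f1, f2⟩ h
  have h' : ∀ x y, ordR u σ e1 e2 x y ↔ ordR u τ f1 f2 x y := by
    intro x y
    exact iff_of_eq (congrFun (congrFun h x) y)
  have he1 : e1 = f1 := by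
    have := h' 1 (tt u)
    unfold ordR at this
    cases e1 <;> cases f1 <;> simp at this ⊢ <;> linarith
  have he2 : e2 = f2 := by
    have := h' 1 (ka u 1)
    unfold ordR at this
    cases e2 <;> cases f2 <;> simp at this ⊢
    · linarith
    · linarith
  subst he1 he2
  have hst : σ = τ := by
    ext a
    by_contra hne
    have key : ∀ (σ τ : K →+* ℝ) (_ : ∀ x y, ordR u σ e1 e2 x y ↔ ordR u τ e1 e2 x y),
        ¬ (σ a < τ a) := by
      intro σ τ h' hlt
      obtain ⟨q, hq1, hq2⟩ := exists_rat_btwn hlt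
      have hqσ : ∀ ρ : K →+* ℝ, ρ (algebraMap ℚ K q) = q := by
        intro ρ
        have : (ρ.comp (algebraMap ℚ K)) q = (algebraMap ℚ ℝ) q := by
          rw [Subsingleton.elim (ρ.comp (algebraMap ℚ K)) (algebraMap ℚ ℝ)]
        simp
      have h5 := h' (ka u a) (ka u (algebraMap ℚ K q))
      unfold ordR at h5
      simp only [ka_n, ka_a, lt_self_iff_false, true_and, false_or] at h5
      rw [hqσ, hqσ] at h5
      cases e2
      · simp only [sg_false] at h5
        have h6 := h5.mpr (by linarith)
        linarith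
      · simp only [sg_true] at h5
        have h6 := h5.mp (by linarith)
        linarith
    rcases lt_or_gt_of_ne hne with h | h
    · exact key σ τ h' h
    · exact key τ σ (fun x y => (h' x y).symm) h
  rw [hst]

theorem ncard_isLO (hr : 0 < r) (hg : GoodPair K (u : K) r) :
    Set.ncard {R : Sd K u → Sd K u → Prop | IsLO (Sd K u) R} = 4 * r := by
  have h1 : {R : Sd K u → Sd K u → Prop | IsLO (Sd K u) R} =
      Set.range fun p : (K →+* ℝ) × Bool × Bool => ordR u p.1 p.2.1 p.2.2 := by
    ext R
    constructor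
    · intro hR
      obtain ⟨σ, e1, e2, h⟩ := classify hr hg hR
      exact ⟨(σ, e1, e2), h.symm⟩
    · rintro ⟨⟨σ, e1, e2⟩, rfl⟩
      exact ordR_isLO hg σ e1 e2
  rw [h1, ← Nat.card_coe_set_eq, ← Nat.card_congr (Equiv.ofInjective _ ordR_injective),
    Nat.card_prod, Nat.card_prod, hg.card]
  simp
  ring

end Classify

end Pool.Agent.Lib.MP_aba4aa_al
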