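import Mathlib
import Pool.Agent.Lib.MP_aba4aa_al.ArithOrder

/-!
The action of `K ⋊ ℤ` on real Laurent series, and the final statements of the arithmetic half.
-/

set_option autoImplicit false
set_option linter.unusedSectionVars false

namespace Pool.Agent.Lib.MP_aba4aa_al

theorem recursion_aux (e x : ℤ → ℝ) (N : ℤ) (hx : ∀ i < N, x i = 0) (n : ℤ) (hn : 0 < n) :
    ∃ y : ℤ → ℝ, (∀ i < N, y i = 0) ∧ ∀ i, e i * y (i - n) - y i = x i := by
  let Z : ℕ → ℤ → ℝ := fun k => Nat.rec (fun _ => 0) (fun _ f i => e i * f (i - n) - x i) k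
  have Z0 : ∀ i, Z 0 i = 0 := fun _ => rfl
  have ZS : ∀ k i, Z (k + 1) i = e i * Z k (i - n) - x i := fun _ _ => rfl
  have h1 : ∀ k : ℕ, ∀ i : ℤ, i < N + k → Z (k + 1) i = Z k i := by
    intro k
    induction k with
    | zero =>
      intro i hi
      rw [ZS, Z0, Z0, hx i (by simpa using hi)]; ring
    | succ k ih =>
      intro i hi
      rw [ZS (k + 1) i, ZS k i, ih (i - n) (by push_cast at hi; omega)]
  have h2 : ∀ (m k : ℕ) (i : ℤ), i < N + k → Z (k + m) i = Z k i := by
    intro m
    induction m with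
    | zero => intro k i _; rfl
    | succ m ih =>
      intro k i hi
      rw [← add_assoc, h1 (k + m) i (by push_cast; omega), ih k i hi]
  have h3 : ∀ (k : ℕ) (i : ℤ), i < N + k → Z ((i - N).toNat + 1) i = Z k i := by
    intro k i hi
    rcases le_total k ((i - N).toNat + 1) with h | h
    · obtain ⟨m, hm⟩ := Nat.exists_eq_add_of_le h
      rw [hm, h2 m k i hi]
    · obtain ⟨m, hm⟩ := Nat.exists_eq_add_of_le h
      rw [hm, h2 m _ i (by push_cast; omega)]
  refine ⟨fun i => Z ((i - N).toNat + 1) i, ?_, ?_⟩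
  · intro i hi
    show Z ((i - N).toNat + 1) i = 0
    rw [h3 0 i (by simpa using hi)]
    exact Z0 i
  · intro i
    show e i * Z ((i - n - N).toNat + 1) (i - n) - Z ((i - N).toNat + 1) i = x i
    set k := (i - N).toNat + 1 with hk
    rw [h3 k (i - n) (by omega), ← h1 k i (by omega), ZS]
    ring

section Act

variable {K : Type} [Field K] {u : Kˣ} (σ : K →+* ℝ)

open Sd

/-- the scaling factor at index `i`. -/
noncomputable def scl (u : Kˣ) (γ : Sd K u) (i : ℤ) : ℝ := Real.exp ((σ (u : K)) ^ (-i) * σ γ.a)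

theorem scl_pos (γ : Sd K u) (i : ℤ) : 0 < scl σ u γ i := Real.exp_pos _

/-- the action on Laurent series. -/
noncomputable def actF (γ : Sd K u) (f : HahnSeries ℤ ℝ) : HahnSeries ℤ ℝ :=
  HahnSeries.ofSuppBddBelow (fun i => scl σ u γ i * f.coeff (i - γ.n)) (by
    refine ⟨f.order + γ.n, ?_⟩
    intro i hi
    rw [Function.mem_support] at hi
    have h1 : f.coeff (i - γ.n) ≠ 0 := fun h => hi (by rw [h, mul_zero])
    have := HahnSeries.order_le_of_coeff_ne_zero h1
    omega)

@[simp] theorem actF_coeff (γ : Sd K u) (f : HahnSeries ℤ ℝ) (i : ℤ) :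
    (actF σ γ f).coeff i = scl σ u γ i * f.coeff (i - γ.n) := rfl

/-- the action on ordered Laurent series. -/
@[instance_reducible] noncomputable def act : DistribMulAction (Sd K u) (Lex (HahnSeries ℤ ℝ)) where
  smul γ f := toLex (actF σ γ (ofLex f))
  one_smul f := by
    show toLex (actF σ 1 (ofLex f)) = f
    apply ofLex.injective
    ext i
    show scl σ u 1 i * (ofLex f).coeff (i - 0) = _
    simp [scl]
  mul_smul γ δ f := by
    show toLex (actF σ (γ * δ) (ofLex f)) = toLex (actF σ γ (actF σ δ (ofLex f)))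
    congr 1
    ext i
    simp only [actF_coeff, mul_n]
    rw [← mul_assoc]
    congr 1
    · unfold scl
      rw [← Real.exp_add]
      congr 1
      rw [mul_a, map_add, map_mul, map_zpow₀, mul_add]
      congr 1
      have h0 : σ (u : K) ≠ 0 := (map_ne_zero σ).mpr u.ne_zero
      rw [← mul_assoc, ← zpow_add₀ h0]
      congr 2
      ring
    · congr 1
      ring
  smul_zero γ := by
    show toLex (actF σ γ 0) = 0
    apply ofLex.injective
    ext i
    simp
  smul_add γ f g := by
    show toLex (actF σ γ (ofLex f + ofLex g)) = toLex (actF σ γ (ofLex f)) + toLex (actF σ γ (ofLex g))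
    apply ofLex.injective
    ext i
    simp [mul_add]

theorem act_coeff (γ : Sd K u) (f : Lex (HahnSeries ℤ ℝ)) (i : ℤ) :
    (ofLex ((act σ).toSMul.smul γ f)).coeff i = scl σ u γ i * (ofLex f).coeff (i - γ.n) := rfl

theorem pos_iff' (x : Lex (HahnSeries ℤ ℝ)) :
    0 < x ↔ ∃ i, (∀ j < i, (ofLex x).coeff j = 0) ∧ 0 < (ofLex x).coeff i := by
  rw [HahnSeries.lt_iff]
  constructor
  · rintro ⟨i, h1, h2⟩
    exact ⟨i, fun j hj => (h1 j hj).symm, h2⟩
  · rintro ⟨i, h1, h2⟩
    exact ⟨i, fun j hj => (h1 j hj).symm, h2⟩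

theorem good_act [Algebra ℚ K] {r : ℕ} (hg : GoodPair K (u : K) r) :
    @GoodAct (Sd K u) (Lex (HahnSeries ℤ ℝ)) _ _ _ (act σ) := by
  let _ := act (u := u) σ
  have hsm : ∀ (γ : Sd K u) (f : Lex (HahnSeries ℤ ℝ)) (i : ℤ),
      (ofLex (γ • f)).coeff i = scl σ u γ i * (ofLex f).coeff (i - γ.n) := fun γ f i => rfl
  have hlam : 1 < σ (u : K) := hg.one_lt σ
  have hlt : ∀ a b : Lex (HahnSeries ℤ ℝ), (∃ i, (∀ j < i, (ofLex a).coeff j = (ofLex b).coeff j) ∧
      (ofLex a).coeff i < (ofLex b).coeff i) → a < b := fun a b h => (HahnSeries.lt_iff a b).mpr h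
  have hsurjpos : ∀ γ : Sd K u, 0 < γ.n → ∀ x : Lex (HahnSeries ℤ ℝ), ∃ y, γ • y - y = x := by
    intro γ hγ x
    obtain ⟨y, hy1, hy2⟩ := recursion_aux (scl σ u γ) (ofLex x).coeff (ofLex x).order
      (fun i hi => HahnSeries.coeff_eq_zero_of_lt_order hi) γ.n hγ
    refine ⟨toLex (HahnSeries.ofSuppBddBelow y ⟨(ofLex x).order, ?_⟩), ?_⟩
    · intro i hi
      rw [Function.mem_support] at hi
      by_contra hc
      exact hi (hy1 i (not_le.mp hc))
    · apply ofLex.injective
      ext i
      exact hy2 i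
  refine ⟨?_, ?_, ?_, ?_, ?_⟩
  · refine ⟨toLex (HahnSeries.single 0 1), ?_⟩
    rw [pos_iff']
    refine ⟨0, fun j hj => ?_, ?_⟩
    · simp [hj.ne]
    · simp
  · intro γ x hx
    rw [pos_iff'] at hx ⊢
    obtain ⟨i, h1, h2⟩ := hx
    refine ⟨i + γ.n, fun j hj => ?_, ?_⟩
    · rw [hsm, h1 _ (by omega), mul_zero]
    · rw [hsm, add_sub_cancel_right]
      exact mul_pos (scl_pos σ γ _) h2
  · intro γ hγ
    rcases lt_trichotomy γ.n 0 with h | h | h
    · left
      intro x hx
      rw [pos_iff'] at hx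
      obtain ⟨i, h1, h2⟩ := hx
      apply hlt
      refine ⟨i + γ.n, fun j hj => ?_, ?_⟩
      · rw [hsm, h1 j (by omega), h1 (j - γ.n) (by omega), mul_zero]
      · rw [hsm, add_sub_cancel_right, h1 _ (by omega)]
        exact mul_pos (scl_pos σ γ _) h2
    · have ha : γ.a ≠ 0 := by
        intro ha
        apply hγ
        ext
        · exact ha
        · exact h
      have ha' : σ γ.a ≠ 0 := (map_ne_zero σ).mpr ha
      rcases lt_or_gt_of_ne ha' with h' | h'
      · right
        intro x hx
        rw [pos_iff'] at hx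
        obtain ⟨i, h1, h2⟩ := hx
        apply hlt
        refine ⟨i, fun j hj => ?_, ?_⟩
        · rw [hsm, h, sub_zero, h1 _ hj, mul_zero]
        · rw [hsm, h, sub_zero]
          have : scl σ u γ i < 1 := by
            unfold scl
            rw [Real.exp_lt_one_iff]
            exact mul_neg_of_pos_of_neg (zpow_pos (by linarith) _) h'
          nlinarith
      · left
        intro x hx
        rw [pos_iff'] at hx
        obtain ⟨i, h1, h2⟩ := hx
        apply hlt
        refine ⟨i, fun j hj => ?_, ?_⟩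
        · rw [hsm, h, sub_zero, h1 _ hj, mul_zero]
        · rw [hsm, h, sub_zero]
          have : 1 < scl σ u γ i := by
            unfold scl
            rw [Real.one_lt_exp_iff]
            exact mul_pos (zpow_pos (by linarith) _) h'
          nlinarith
    · right
      intro x hx
      rw [pos_iff'] at hx
      obtain ⟨i, h1, h2⟩ := hx
      apply hlt
      refine ⟨i, fun j hj => ?_, ?_⟩
      · rw [hsm, h1 _ (by omega), mul_zero, h1 _ hj]
      · rw [hsm, h1 _ (by omega), mul_zero]
        exact h2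
  · intro γ hγ x
    rcases lt_trichotomy γ.n 0 with h | h | h
    · obtain ⟨y, hy⟩ := hsurjpos γ⁻¹ (by rw [inv_n]; omega) (-(γ⁻¹ • x))
      refine ⟨y, ?_⟩
      have h1 := congrArg (fun z => γ • z) hy
      simp only [smul_sub, smul_neg, smul_inv_smul] at h1
      have h2 : γ • y - y = -(y - γ • y) := by abel
      rw [h2, h1, neg_neg]
    · have ha : γ.a ≠ 0 := by
        intro ha
        apply hγ
        ext
        · exact ha
        · exact h
      have ha' : σ γ.a ≠ 0 := (map_ne_zero σ).mpr ha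
      have hne : ∀ i, scl σ u γ i - 1 ≠ 0 := by
        intro i hi
        have h1 : scl σ u γ i = 1 := sub_eq_zero.mp hi
        unfold scl at h1
        rw [Real.exp_eq_one_iff] at h1
        rcases mul_eq_zero.mp h1 with h2 | h2
        · exact (zpow_pos (by linarith : (0 : ℝ) < σ (u : K)) (-i)).ne' h2
        · exact ha' h2
      refine ⟨toLex (HahnSeries.ofSuppBddBelow (fun i => (ofLex x).coeff i / (scl σ u γ i - 1))
        ⟨(ofLex x).order, ?_⟩), ?_⟩
      · intro i hi
        rw [Function.mem_support] at hi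
        apply HahnSeries.order_le_of_coeff_ne_zero
        intro h0
        exact hi (by rw [h0, zero_div])
      · apply ofLex.injective
        ext i
        show scl σ u γ i * ((ofLex x).coeff (i - γ.n) / (scl σ u γ (i - γ.n) - 1)) -
          (ofLex x).coeff i / (scl σ u γ i - 1) = (ofLex x).coeff i
        rw [h, sub_zero]
        have := hne i
        field_simp
    · exact hsurjpos γ h x
  · refine ⟨tt u, fun x ε hx hε => ?_⟩
    rw [pos_iff'] at hx hε
    obtain ⟨i, h1, h2⟩ := hx
    obtain ⟨j, h3, h4⟩ := hε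
    refine ⟨(j - i).toNat + 1, ?_⟩
    rw [tt_pow]
    apply hlt
    refine ⟨j, fun l hl => ?_, ?_⟩
    · rw [hsm, h1 _ (by show l - (((j - i).toNat + 1 : ℕ) : ℤ) < i; push_cast; omega), mul_zero,
        h3 _ hl]
    · rw [hsm, h1 _ (by show j - (((j - i).toNat + 1 : ℕ) : ℤ) < i; push_cast; omega), mul_zero]
      exact h4

end Act

/-- The arithmetic half. -/
theorem exists_gamma (r : ℕ) (hr : 0 < r) :
    ∃ (Γ : Type) (_ : Group Γ) (Ω : Type) (_ : AddCommGroup Ω) (_ : LinearOrder Ω)
      (_ : IsOrderedAddMonoid Ω) (_ : DistribMulAction Γ Ω),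
      GoodAct Γ Ω ∧ (∀ R : Γ → Γ → Prop, IsLO Γ R → ∀ a b, R a b ∨ R b a) ∧
        Set.ncard {R : Γ → Γ → Prop | IsLO Γ R} = 4 * r := by
  obtain ⟨K, _, _, u, hg⟩ := exists_goodPair hr
  have hne : Nonempty (K →+* ℝ) := by
    by_contra hne
    rw [not_nonempty_iff] at hne
    have := hg.card
    rw [Nat.card_of_isEmpty] at this
    omega
  obtain ⟨σ⟩ := hne
  have hu0 : u ≠ 0 := by
    intro h
    have := hg.one_lt σ
    rw [h, map_zero] at this
    linarith
  have hg' : GoodPair K ((Units.mk0 u hu0 : Kˣ) : K) r := hg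
  exact ⟨Sd K (Units.mk0 u hu0), inferInstance, Lex (HahnSeries ℤ ℝ), inferInstance, inferInstance,
    inferInstance, act σ, good_act σ hg', fun R hR => total_of_isLO hr hg' hR, ncard_isLO hr hg'⟩

theorem int_total {R : Multiplicative ℤ → Multiplicative ℤ → Prop}
    (hR : IsLO (Multiplicative ℤ) R) (a : Multiplicative ℤ) : R 1 a ∨ R a 1 := by
  have h4 := hR.2.2.2.1
  have hl : @MulLeftMono (Multiplicative ℤ) _ (latOf hR).toLE := ⟨fun c a b hab => by
    have := h4 a b c 1 hab
    rw [mul_one, mul_one] at this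
    exact this⟩
  have hr : @MulRightMono (Multiplicative ℤ) _ (latOf hR).toLE := ⟨fun c a b hab => by
    have := h4 a b 1 c hab
    rw [one_mul, one_mul] at this
    exact this⟩
  exact @comparable_of_centralizer (Multiplicative ℤ) (latOf hR) _ hl hr (MonoidHom.id _) a
    (fun x _ hx => hx)

theorem int_le_isLO : IsLO (Multiplicative ℤ) (fun a b => a ≤ b) :=
  isLO_of_total (fun a => le_refl a) (fun a b c => le_trans) (fun a b => le_antisymm)
    (fun a b c d h => mul_le_mul' (mul_le_mul' le_rfl h) le_rfl) (fun a b => le_total a b)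

theorem int_classify {R : Multiplicative ℤ → Multiplicative ℤ → Prop}
    (hR : IsLO (Multiplicative ℤ) R) (h1 : R 1 (Multiplicative.ofAdd 1)) (x y : Multiplicative ℤ) :
    R x y ↔ x ≤ y := by
  obtain ⟨h1', h2, h3, h4, -, -⟩ := hR
  have hl : ∀ a b c, R a b → R (c * a) (c * b) := by
    intro a b c h
    have := h4 a b c 1 h
    rwa [mul_one, mul_one] at this
  have hmul : ∀ g h, R 1 g → R 1 h → R 1 (g * h) := by
    intro g h hg hh
    have := hl 1 h g hh
    rw [mul_one] at this
    exact h2 _ _ _ hg this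
  have hnat : ∀ k : ℕ, R 1 ((Multiplicative.ofAdd (1 : ℤ)) ^ k) := by
    intro k
    induction k with
    | zero => rw [pow_zero]; exact h1' _
    | succ k ih => rw [pow_succ]; exact hmul _ _ ih h1
  have hpos : ∀ g : Multiplicative ℤ, 1 ≤ g → R 1 g := by
    intro g hg
    have h0 : (0 : ℤ) ≤ Multiplicative.toAdd g := hg
    have := hnat (Multiplicative.toAdd g).toNat
    have e : (Multiplicative.ofAdd (1 : ℤ)) ^ (Multiplicative.toAdd g).toNat = g := by
      rw [← ofAdd_nsmul]
      apply Multiplicative.toAdd.injective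
      rw [toAdd_ofAdd]
      simp only [nsmul_eq_mul, mul_one]
      omega
    rwa [e] at this
  have hle : ∀ a b : Multiplicative ℤ, a ≤ b → R a b := by
    intro a b hab
    have h5 : (1 : Multiplicative ℤ) ≤ a⁻¹ * b := le_inv_mul_iff_le.mpr hab
    have := hl _ _ a (hpos _ h5)
    rwa [mul_one, mul_inv_cancel_left] at this
  constructor
  · intro h
    rcases le_total x y with h' | h'
    · exact h'
    · exact (h3 _ _ h (hle _ _ h')).le
  · exact hle x y

theorem int_count :
    Set.ncard {R : Multiplicative ℤ → Multiplicative ℤ → Prop | IsLO (Multiplicative ℤ) R} = 2 := by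
  have h : {R : Multiplicative ℤ → Multiplicative ℤ → Prop | IsLO (Multiplicative ℤ) R} =
      {(fun a b => a ≤ b), (fun a b => b ≤ a)} := by
    ext R
    simp only [Set.mem_setOf_eq, Set.mem_insert_iff, Set.mem_singleton_iff]
    constructor
    · intro hR
      rcases int_total hR (Multiplicative.ofAdd 1) with h | h
      · left
        funext x y
        exact propext (int_classify hR h x y)
      · right
        funext x y
        exact propext (int_classify hR.reverse h y x)
    · rintro (rfl | rfl)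
      · exact int_le_isLO
      · exact int_le_isLO.reverse
  rw [h, Set.ncard_pair]
  intro he
  have h1 := congrFun (congrFun he 1) (Multiplicative.ofAdd 1)
  have h2 : (1 : Multiplicative ℤ) ≤ Multiplicative.ofAdd 1 := by
    show (0 : ℤ) ≤ 1
    norm_num
  have h3 : ¬ (Multiplicative.ofAdd (1 : ℤ) ≤ 1) := by
    show ¬ ((1 : ℤ) ≤ 0)
    norm_num
  exact h3 (h1 ▸ h2)

end Pool.Agent.Lib.MP_aba4aa_al
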