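import Pool.Agent.Lib.MP_aba4aa_al.Germs

/-!
Assembly, relative to the arithmetic part.
-/

set_option autoImplicit false

namespace Pool.Agent.Lib.MP_aba4aa_al

theorem main_of_arith
    (hint : Set.ncard {R : Multiplicative ℤ → Multiplicative ℤ → Prop |
      IsLO (Multiplicative ℤ) R} = 2)
    (hgam : ∀ r : ℕ, 0 < r → ∃ (Γ : Type) (_ : Group Γ) (Ω : Type) (_ : AddCommGroup Ω)
      (_ : LinearOrder Ω) (_ : IsOrderedAddMonoid Ω) (_ : DistribMulAction Γ Ω),
      GoodAct Γ Ω ∧ (∀ R : Γ → Γ → Prop, IsLO Γ R → ∀ a b, R a b ∨ R b a) ∧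
      Set.ncard {R : Γ → Γ → Prop | IsLO Γ R} = 4 * r) :
    ∀ k : ℕ, 0 < k → Even k →
      ∃ (G : Type) (_ : Group G),
        Set.ncard {r : G → G → Prop |
          (∀ a, r a a) ∧
          (∀ a b c, r a b → r b c → r a c) ∧
          (∀ a b, r a b → r b a → a = b) ∧
          (∀ a b c d, r a b → r (c * a * d) (c * b * d)) ∧
          (∀ a b, ∃ s, r a s ∧ r b s ∧ ∀ u, r a u → r b u → r s u) ∧
          (∀ a b, ∃ t, r t a ∧ r t b ∧ ∀ u, r u a → r u b → r u t)} = k := by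
  rintro k hk ⟨m, hm⟩
  rcases Nat.even_or_odd' m with ⟨r, hr | hr⟩
  · -- k = 4 r
    have hr0 : 0 < r := by omega
    obtain ⟨Γ, i1, Ω, i2, i3, i4, i5, _, _, hcard⟩ := hgam r hr0
    refine ⟨Γ, i1, ?_⟩
    have : k = 4 * r := by omega
    rw [this]
    exact hcard
  · rcases Nat.eq_zero_or_pos r with h0 | h0
    · refine ⟨Multiplicative ℤ, inferInstance, ?_⟩
      have : k = 2 := by omega
      rw [this]
      exact hint
    · obtain ⟨Γ, i1, Ω, i2, i3, i4, i5, hA, htot, hcard⟩ := hgam r h0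
      refine ⟨WW Γ Ω, inferInstance, ?_⟩
      have : k = 4 * r + 2 := by omega
      rw [this]
      exact W_count hA htot (by omega) hcard

end Pool.Agent.Lib.MP_aba4aa_al
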