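import Pool.Agent.Lib.MP_aba4aa_al.LGroup

/-!
Groups of order automorphisms of a chain: supports, displacement, simplicity.
-/

set_option autoImplicit false
set_option linter.unusedSectionVars false

namespace Pool.Agent.Lib.MP_aba4aa_al

/-- support contained in the closed interval `[a,b]` -/
def Supp {G Ω : Type*} [Group G] [LinearOrder Ω] [MulAction G Ω] (g : G) (a b : Ω) : Prop :=
  ∀ x, (x < a ∨ b < x) → g • x = x

/-- `g` has support in some closed interval with endpoints in `I`. -/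
def InI {G Ω : Type*} [Group G] [LinearOrder Ω] [MulAction G Ω] (I : Set Ω) (g : G) : Prop :=
  ∃ a b, a ∈ I ∧ b ∈ I ∧ a < b ∧ Supp g a b

/-- open intervals without least and largest elements -/
structure OI {Ω : Type*} [LinearOrder Ω] (I : Set Ω) : Prop where
  conn : I.OrdConnected
  noMin : ∀ x ∈ I, ∃ y ∈ I, y < x
  noMax : ∀ x ∈ I, ∃ y ∈ I, x < y

/-- The axioms on a group acting on a chain. -/
structure Nice (G Ω : Type*) [Group G] [LinearOrder Ω] [MulAction G Ω] : Prop where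
  mono : ∀ (g : G) {x y : Ω}, x < y → g • x < g • y
  faithful : ∀ g : G, (∀ x : Ω, g • x = x) → g = 1
  bdd : ∀ g : G, ∃ a b : Ω, a < b ∧ Supp g a b
  trick : ∀ (g : G) (a b p q : Ω), p < a → a < b → b < q → Supp g a b →
    ∃ h s : G, Supp h p q ∧ Supp s p q ∧ Commute g (s * h * s⁻¹) ∧ h = g * (s * h * s⁻¹)
  trans : ∀ (p q a b a' b' : Ω), p < a → a < b → b < q → p < a' → a' < b' → b' < q →
    ∃ g : G, Supp g p q ∧ g • a = a' ∧ g • b = b'
  cut : ∀ (g : G) (x : Ω), g • x = x →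
    ∃ g₁ : G, (∀ y, y ≤ x → g₁ • y = g • y) ∧ (∀ y, x ≤ y → g₁ • y = y)
  ends : ∀ (g : G) (w : Ω), g • w ≠ w →
    ∃ η ξ : Ω, η < w ∧ w < ξ ∧ g • η = η ∧ g • ξ = ξ ∧ ∀ y, η < y → y < ξ → g • y ≠ y

section Basic

variable {G Ω : Type*} [Group G] [LinearOrder Ω] [MulAction G Ω]

theorem Nice.lt_iff (hN : Nice G Ω) (g : G) {x y : Ω} : g • x < g • y ↔ x < y := by
  constructor
  · intro h
    have := hN.mono g⁻¹ h
    simpa using this
  · exact hN.mono g

theorem Nice.le_iff (hN : Nice G Ω) (g : G) {x y : Ω} : g • x ≤ g • y ↔ x ≤ y := by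
  rw [← not_lt, ← not_lt, hN.lt_iff]

theorem Nice.eq_iff (_hN : Nice G Ω) (g : G) {x y : Ω} : g • x = g • y ↔ x = y := by
  constructor
  · intro h
    have : g⁻¹ • (g • x) = g⁻¹ • (g • y) := by rw [h]
    simpa using this
  · rintro rfl; rfl

theorem inv_fix {g : G} {x : Ω} (h : g • x = x) : g⁻¹ • x = x := by
  conv_lhs => rw [← h]
  simp

theorem inv_fix_iff {g : G} {x : Ω} : g⁻¹ • x = x ↔ g • x = x := by
  constructor
  · intro h; simpa using inv_fix h
  · exact inv_fix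

theorem Supp.inv {g : G} {a b : Ω} (h : Supp g a b) : Supp g⁻¹ a b :=
  fun x hx => inv_fix (h x hx)

theorem Supp.mono {g : G} {a b a' b' : Ω} (h : Supp g a b) (ha : a' ≤ a) (hb : b ≤ b') :
    Supp g a' b' := by
  intro x hx
  apply h
  rcases hx with hx | hx
  · exact Or.inl (hx.trans_le ha)
  · exact Or.inr (hb.trans_lt hx)

theorem Supp.one (a b : Ω) : Supp (1 : G) a b := fun x _ => one_smul G x

theorem Supp.mul {g h : G} {a b : Ω} (hg : Supp g a b) (hh : Supp h a b) : Supp (g * h) a b := by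
  intro x hx
  rw [mul_smul, hh x hx, hg x hx]

theorem Supp.conj (hN : Nice G Ω) {g : G} {a b : Ω} (h : Supp g a b) (k : G) :
    Supp (k * g * k⁻¹) (k • a) (k • b) := by
  intro x hx
  have h1 : k⁻¹ • x < a ∨ b < k⁻¹ • x := by
    rcases hx with hx | hx
    · left
      rw [← hN.lt_iff k]; simpa using hx
    · right
      rw [← hN.lt_iff k]; simpa using hx
  have h2 := h _ h1
  rw [mul_smul, mul_smul, h2]; simp

variable [DenselyOrdered Ω]

theorem Supp.fix_left_aux (hN : Nice G Ω) {g : G} {a b : Ω} (h : Supp g a b) : a ≤ g • a := by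
  by_contra hlt
  push Not at hlt
  obtain ⟨x, hx1, hx2⟩ := exists_between hlt
  have h1 : g • x = x := h x (Or.inl hx2)
  rw [← h1] at hx1
  exact absurd ((hN.lt_iff g).mp hx1) (not_lt.mpr hx2.le)

theorem Supp.fix_left (hN : Nice G Ω) {g : G} {a b : Ω} (h : Supp g a b) : g • a = a := by
  apply le_antisymm _ (h.fix_left_aux hN)
  have h1 := h.inv.fix_left_aux hN
  rw [← hN.le_iff g] at h1
  simpa using h1

theorem Supp.fix_right_aux (hN : Nice G Ω) {g : G} {a b : Ω} (h : Supp g a b) : g • b ≤ b := by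
  by_contra hlt
  push Not at hlt
  obtain ⟨x, hx1, hx2⟩ := exists_between hlt
  have h1 : g • x = x := h x (Or.inr hx1)
  rw [← h1] at hx2
  exact absurd ((hN.lt_iff g).mp hx2) (not_lt.mpr hx1.le)

theorem Supp.fix_right (hN : Nice G Ω) {g : G} {a b : Ω} (h : Supp g a b) : g • b = b := by
  apply le_antisymm (h.fix_right_aux hN)
  have h1 := h.inv.fix_right_aux hN
  rw [← hN.le_iff g] at h1
  simpa using h1

theorem Supp.fixL (hN : Nice G Ω) {g : G} {a b : Ω} (h : Supp g a b) {x : Ω} (hx : x ≤ a) :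
    g • x = x := by
  rcases hx.lt_or_eq with hx | rfl
  · exact h x (Or.inl hx)
  · exact h.fix_left hN

theorem Supp.fixR (hN : Nice G Ω) {g : G} {a b : Ω} (h : Supp g a b) {x : Ω} (hx : b ≤ x) :
    g • x = x := by
  rcases hx.lt_or_eq with hx | rfl
  · exact h x (Or.inr hx)
  · exact h.fix_right hN

theorem Supp.maps (hN : Nice G Ω) {g : G} {a b : Ω} (h : Supp g a b) {x : Ω} (h1 : a ≤ x)
    (h2 : x ≤ b) : a ≤ g • x ∧ g • x ≤ b := by
  constructor
  · conv_lhs => rw [← h.fix_left hN]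
    exact (hN.le_iff g).mpr h1
  · conv_rhs => rw [← h.fix_right hN]
    exact (hN.le_iff g).mpr h2

theorem Supp.commute (hN : Nice G Ω) {g h : G} {a b c d : Ω} (hg : Supp g a b) (hh : Supp h c d)
    (hbc : b ≤ c) : Commute g h := by
  have key : ∀ x : Ω, (g * h) • x = (h * g) • x := by
    intro x
    rw [mul_smul, mul_smul]
    rcases le_or_gt x b with hx | hx
    · have h1 : h • x = x := hh.fixL hN (hx.trans hbc)
      rw [h1]
      rcases lt_or_ge x a with hxa | hxa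
      · rw [hg.fixL hN hxa.le, h1]
      · exact (hh.fixL hN ((hg.maps hN hxa hx).2.trans hbc)).symm
    · have h1 : g • x = x := hg.fixR hN hx.le
      rw [h1]
      rcases le_or_gt x c with hxc | hxc
      · rw [hh.fixL hN hxc, h1]
      · rcases le_or_gt x d with hxd | hxd
        · exact hg.fixR hN (hbc.trans (hh.maps hN hxc.le hxd).1)
        · rw [hh.fixR hN hxd.le, h1]
  have h2 : (h * g)⁻¹ * (g * h) = 1 := by
    apply hN.faithful
    intro x
    rw [mul_smul, key x, inv_smul_smul]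
  show g * h = h * g
  exact (inv_mul_eq_one.mp h2).symm

theorem Supp.eq_one_of_disjoint (hN : Nice G Ω) {g : G} {a b c d : Ω} (h1 : Supp g a b)
    (h2 : Supp g c d) (h : b < c ∨ d < a) : g = 1 := by
  apply hN.faithful
  intro x
  rcases h with h | h
  · rcases le_or_gt x b with hx | hx
    · exact h2 x (Or.inl (hx.trans_lt h))
    · exact h1 x (Or.inr hx)
  · rcases le_or_gt x d with hx | hx
    · exact h1 x (Or.inl (hx.trans_lt h))
    · exact h2 x (Or.inr hx)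

/-- displacement -/
theorem Nice.displace (hN : Nice G Ω) {g : G} {w p q : Ω} (hw : g • w ≠ w) (hp : p < w)
    (hq : w < q) : ∃ a b : Ω, p < a ∧ a < w ∧ w < b ∧ b < q ∧ (g • b < a ∨ b < g • a) := by
  rcases lt_or_gt_of_ne hw with h | h
  · obtain ⟨a, ha1, ha2⟩ := exists_between (max_lt h hp)
    have hb : w < g⁻¹ • a := by
      rw [← hN.lt_iff g]; simpa using (max_lt_iff.mp ha1).1
    obtain ⟨b, hb1, hb2⟩ := exists_between (lt_min hb hq)
    refine ⟨a, b, (max_lt_iff.mp ha1).2, ha2, hb1, (lt_min_iff.mp hb2).2, Or.inl ?_⟩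
    have := (hN.lt_iff g).mpr (lt_min_iff.mp hb2).1
    simpa using this
  · obtain ⟨b, hb1, hb2⟩ := exists_between (lt_min h hq)
    have ha : g⁻¹ • b < w := by
      rw [← hN.lt_iff g]; simpa using (lt_min_iff.mp hb2).1
    obtain ⟨a, ha1, ha2⟩ := exists_between (max_lt ha hp)
    refine ⟨a, b, (max_lt_iff.mp ha1).2, ha2, hb1, (lt_min_iff.mp hb2).2, Or.inr ?_⟩
    have := (hN.lt_iff g).mpr (max_lt_iff.mp ha1).1
    simpa using this

/-- existence of non-trivial elements with small support, moving a given point -/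
theorem Nice.exists_move (hN : Nice G Ω) {a b w : Ω} (h1 : a < w) (h2 : w < b) :
    ∃ k : G, Supp k a b ∧ w < k • w := by
  obtain ⟨w', h3, h4⟩ := exists_between h2
  obtain ⟨y, h5, h6⟩ := exists_between h4
  obtain ⟨k, hk1, hk2, _⟩ := hN.trans a b w y w' y h1 (h3.trans h5) h6 (h1.trans h3) h5 h6
  exact ⟨k, hk1, by rw [hk2]; exact h3⟩

theorem Nice.exists_ne_one (hN : Nice G Ω) {a b : Ω} (h : a < b) :
    ∃ k : G, Supp k a b ∧ k ≠ 1 := by
  obtain ⟨w, h1, h2⟩ := exists_between h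
  obtain ⟨k, hk1, hk2⟩ := hN.exists_move h1 h2
  refine ⟨k, hk1, ?_⟩
  rintro rfl
  simp at hk2

theorem Nice.exists_moved (hN : Nice G Ω) {g : G} (h : g ≠ 1) : ∃ w : Ω, g • w ≠ w := by
  by_contra hc
  push Not at hc
  exact h (hN.faithful g hc)

omit [DenselyOrdered Ω] in
theorem OI.mem_of {I : Set Ω} (hI : OI I) {a b x : Ω} (ha : a ∈ I) (hb : b ∈ I) (h1 : a ≤ x)
    (h2 : x ≤ b) : x ∈ I := hI.conn.out ha hb ⟨h1, h2⟩

/-- centralizers -/
theorem Nice.fix_of_commute (hN : Nice G Ω) {I : Set Ω} (hI : OI I) {g : G}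
    (h : ∀ k : G, InI I k → Commute g k) : ∀ w ∈ I, g • w = w := by
  intro w hw
  by_contra hne
  obtain ⟨p, hp, hpw⟩ := hI.noMin w hw
  obtain ⟨q, hq, hwq⟩ := hI.noMax w hw
  obtain ⟨a, b, h1, h2, h3, h4, h5⟩ := hN.displace hne hpw hwq
  obtain ⟨k, hk, hk1⟩ := hN.exists_ne_one (h2.trans h3)
  have haI : a ∈ I := hI.mem_of hp hw h1.le h2.le
  have hbI : b ∈ I := hI.mem_of hw hq h3.le h4.le
  have hc := h k ⟨a, b, haI, hbI, h2.trans h3, hk⟩
  have hk' := hk.conj hN g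
  have : g * k * g⁻¹ = k := by rw [hc.eq]; group
  rw [this] at hk'
  refine hk1 (hk.eq_one_of_disjoint hN hk' ?_)
  rcases h5 with h5 | h5
  · exact Or.inr h5
  · exact Or.inl h5

theorem InI.inv {I : Set Ω} {g : G} (h : InI I g) : InI I g⁻¹ := by
  obtain ⟨a, b, ha, hb, hab, hs⟩ := h
  exact ⟨a, b, ha, hb, hab, hs.inv⟩

theorem InI.mul {I : Set Ω} {g h : G} (hg : InI I g) (hh : InI I h) : InI I (g * h) := by
  obtain ⟨a, b, ha, hb, hab, hs⟩ := hg
  obtain ⟨c, d, hc, hd, hcd, ht⟩ := hh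
  refine ⟨min a c, max b d, ?_, ?_, ?_, ?_⟩
  · rcases min_choice a c with h | h <;> rw [h] <;> assumption
  · rcases max_choice b d with h | h <;> rw [h] <;> assumption
  · exact (min_le_left _ _).trans_lt (hab.trans_le (le_max_left _ _))
  · exact (hs.mono (min_le_left _ _) (le_max_left _ _)).mul
      (ht.mono (min_le_right _ _) (le_max_right _ _))

theorem InI.pow {I : Set Ω} {g : G} (hg : InI I g) (n : ℕ) (hn : n ≠ 0) : InI I (g ^ n) := by
  induction n with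
  | zero => exact absurd rfl hn
  | succ n ih =>
    rcases Nat.eq_zero_or_pos n with rfl | hpos
    · simpa using hg
    · rw [pow_succ]; exact (ih hpos.ne').mul hg

theorem InI.maps (hN : Nice G Ω) {I : Set Ω} (hI : OI I) {k : G} (hk : InI I k) {x : Ω}
    (hx : x ∈ I) : k • x ∈ I := by
  obtain ⟨a, b, ha, hb, _, hs⟩ := hk
  rcases lt_or_ge x a with h | h
  · rw [hs x (Or.inl h)]; exact hx
  · rcases lt_or_ge b x with h' | h'
    · rw [hs x (Or.inr h')]; exact hx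
    · exact hI.mem_of ha hb (hs.maps hN h h').1 (hs.maps hN h h').2

theorem InI.conj (hN : Nice G Ω) {I : Set Ω} (hI : OI I) {k g : G} (hk : InI I k)
    (hg : InI I g) : InI I (k * g * k⁻¹) := by
  obtain ⟨a, b, ha, hb, hab, hs⟩ := hg
  exact ⟨k • a, k • b, hk.maps hN hI ha, hk.maps hN hI hb, hN.mono k hab, hs.conj hN k⟩

theorem InI.one {I : Set Ω} (hI : OI I) {x : Ω} (hx : x ∈ I) : InI I (1 : G) := by
  obtain ⟨y, hy, hxy⟩ := hI.noMax x hx
  exact ⟨x, y, hx, hy, hxy, Supp.one x y⟩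

theorem InI.supp_mono {I J : Set Ω} (h : I ⊆ J) {g : G} (hg : InI I g) : InI J g := by
  obtain ⟨a, b, ha, hb, hab, hs⟩ := hg
  exact ⟨a, b, h ha, h hb, hab, hs⟩

/-- Simplicity of the groups `G_I`. -/
theorem Nice.simple (hN : Nice G Ω) {I : Set Ω} (hI : OI I) (N : G → Prop)
    (hmul : ∀ x y, N x → N y → N (x * y)) (hinv : ∀ x, N x → N x⁻¹)
    (hconj : ∀ k n, InI I k → N n → N (k * n * k⁻¹)) {n₀ : G} (hn₀ : InI I n₀) (hNn₀ : N n₀)
    (hne : n₀ ≠ 1) : ∀ g, InI I g → N g := by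
  obtain ⟨w, hw⟩ := hN.exists_moved hne
  obtain ⟨a₀, b₀, ha₀, hb₀, hab₀, hs₀⟩ := hn₀
  have hwa : a₀ < w := by
    by_contra hc; push Not at hc; exact hw (hs₀.fixL hN hc)
  have hwb : w < b₀ := by
    by_contra hc; push Not at hc; exact hw (hs₀.fixR hN hc)
  obtain ⟨a, b, h1, h2, h3, h4, h5⟩ := hN.displace hw hwa hwb
  have hab : a < b := h2.trans h3
  have haI : a ∈ I := hI.mem_of ha₀ hb₀ h1.le (hab.le.trans h4.le)
  have hbI : b ∈ I := hI.mem_of ha₀ hb₀ (h1.le.trans hab.le) h4.le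
  -- commutators of elements supported in [a,b]
  have hcomm : ∀ f g : G, Supp f a b → Supp g a b → N (f * g * f⁻¹ * g⁻¹) := by
    intro f g hf hg
    have hg' : Supp (n₀ * g⁻¹ * n₀⁻¹) (n₀ • a) (n₀ • b) := hg.inv.conj hN n₀
    have hc1 : N (n₀ * (g⁻¹ * n₀⁻¹ * g⁻¹⁻¹)) :=
      hmul _ _ hNn₀ (hconj _ _ ⟨a, b, haI, hbI, hab, hg.inv⟩ (hinv _ hNn₀))
    have hcf : Commute f (n₀ * g⁻¹ * n₀⁻¹) := by
      rcases h5 with h5 | h5
      · exact (hg'.commute hN hf h5.le).symm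
      · exact hf.commute hN hg' h5.le
    have hcg : Commute g (n₀ * g⁻¹ * n₀⁻¹) := by
      rcases h5 with h5 | h5
      · exact (hg'.commute hN hg h5.le).symm
      · exact hg.commute hN hg' h5.le
    have hc2 : N (f * (n₀ * (g⁻¹ * n₀⁻¹ * g⁻¹⁻¹)) * f⁻¹ * (n₀ * (g⁻¹ * n₀⁻¹ * g⁻¹⁻¹))⁻¹) :=
      hmul _ _ (hconj _ _ ⟨a, b, haI, hbI, hab, hf⟩ hc1) (hinv _ hc1)
    have heq : f * (n₀ * (g⁻¹ * n₀⁻¹ * g⁻¹⁻¹)) * f⁻¹ * (n₀ * (g⁻¹ * n₀⁻¹ * g⁻¹⁻¹))⁻¹
        = f * g * f⁻¹ * g⁻¹ := by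
      set c := n₀ * g⁻¹ * n₀⁻¹ with hc
      have e1 : n₀ * (g⁻¹ * n₀⁻¹ * g⁻¹⁻¹) = c * g := by rw [hc]; group
      rw [e1]
      have e2 : f * c = c * f := hcf.eq
      have e3 : g * c = c * g := hcg.eq
      have e4 : (c * g)⁻¹ = c⁻¹ * g⁻¹ := by
        rw [← e3]; group
      have e5 : f⁻¹ * c⁻¹ = c⁻¹ * f⁻¹ := by
        have := hcf.inv_inv.eq; exact this
      have e6 : g * c⁻¹ = c⁻¹ * g := hcg.inv_right.eq
      calc f * (c * g) * f⁻¹ * (c * g)⁻¹ = (f * c) * g * f⁻¹ * (c⁻¹ * g⁻¹) := by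
            rw [e4]; group
        _ = c * f * g * (f⁻¹ * c⁻¹) * g⁻¹ := by rw [e2]; group
        _ = c * f * (g * c⁻¹) * f⁻¹ * g⁻¹ := by rw [e5]; group
        _ = c * (f * c⁻¹) * g * f⁻¹ * g⁻¹ := by rw [e6]; group
        _ = c * (c⁻¹ * f) * g * f⁻¹ * g⁻¹ := by rw [hcf.inv_right.eq]
        _ = f * g * f⁻¹ * g⁻¹ := by group
    rw [heq] at hc2
    exact hc2
  intro g hg
  obtain ⟨a₁, b₁, ha₁, hb₁, hab₁, hs₁⟩ := hg
  obtain ⟨p, hp, hpa⟩ := hI.noMin a₁ ha₁
  obtain ⟨q, hq, hbq⟩ := hI.noMax b₁ hb₁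
  obtain ⟨h, s, hh, hs, _, heq⟩ := hN.trick g a₁ b₁ p q hpa hab₁ hbq hs₁
  -- move [p,q] into [a,b]
  obtain ⟨p', hp', hpp'⟩ := hI.noMin (min p a) (by
    rcases min_choice p a with e | e <;> rw [e] <;> assumption)
  obtain ⟨q', hq', hqq'⟩ := hI.noMax (max q b) (by
    rcases max_choice q b with e | e <;> rw [e] <;> assumption)
  have hpq : p < q := hpa.trans (hab₁.trans hbq)
  obtain ⟨k, hk, hkp, hkq⟩ := hN.trans p' q' p q a b (hpp'.trans_le (min_le_left _ _)) hpq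
    ((le_max_left _ _).trans_lt hqq') (hpp'.trans_le (min_le_right _ _)) hab
    ((le_max_right _ _).trans_lt hqq')
  have hkI : InI I k := ⟨p', q', hp', hq',
    (hpp'.trans_le (min_le_left _ _)).trans (hpq.trans ((le_max_left _ _).trans_lt hqq')), hk⟩
  have hh' : Supp (k * h * k⁻¹) a b := by
    have := hh.conj hN k; rwa [hkp, hkq] at this
  have hs' : Supp (k * s * k⁻¹) a b := by
    have := hs.conj hN k; rwa [hkp, hkq] at this
  have h6 := hcomm _ _ hh' hs'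
  have h7 := hconj k⁻¹ _ hkI.inv h6
  have heq2 : k⁻¹ * (k * h * k⁻¹ * (k * s * k⁻¹) * (k * h * k⁻¹)⁻¹ * (k * s * k⁻¹)⁻¹) * k⁻¹⁻¹
      = h * s * h⁻¹ * s⁻¹ := by group
  rw [heq2] at h7
  have heq3 : g = h * (s * h * s⁻¹)⁻¹ := by
    rw [eq_mul_inv_iff_mul_eq]; exact heq.symm
  have heq4 : g = h * s * h⁻¹ * s⁻¹ := by rw [heq3]; group
  rw [heq4]; exact h7

end Basic

end Pool.Agent.Lib.MP_aba4aa_al
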