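import Pool.Agent.Lib.MP_aba4aa_al.Chain1

/-!
Lattice orders on groups acting on a chain: the trichotomy, and the right-dominant case.
-/

set_option autoImplicit false
set_option linter.unusedSectionVars false

namespace Pool.Agent.Lib.MP_aba4aa_al

section OIs

variable {Ω : Type*} [LinearOrder Ω] [DenselyOrdered Ω]

theorem OI_Iio [NoMinOrder Ω] (c : Ω) : OI (Set.Iio c) where
  conn := Set.ordConnected_Iio
  noMin x hx := by
    obtain ⟨y, hy⟩ := exists_lt x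
    exact ⟨y, hy.trans hx, hy⟩
  noMax x hx := by
    obtain ⟨y, hy1, hy2⟩ := exists_between (show x < c from hx)
    exact ⟨y, hy2, hy1⟩

theorem OI_Ioi [NoMaxOrder Ω] (c : Ω) : OI (Set.Ioi c) where
  conn := Set.ordConnected_Ioi
  noMin x hx := by
    obtain ⟨y, hy1, hy2⟩ := exists_between (show c < x from hx)
    exact ⟨y, hy1, hy2⟩
  noMax x hx := by
    obtain ⟨y, hy⟩ := exists_gt x
    exact ⟨y, (show c < x from hx).trans hy, hy⟩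

theorem OI_Ioo (a b : Ω) : OI (Set.Ioo a b) where
  conn := Set.ordConnected_Ioo
  noMin x hx := by
    obtain ⟨y, hy1, hy2⟩ := exists_between hx.1
    exact ⟨y, ⟨hy1, hy2.trans hx.2⟩, hy2⟩
  noMax x hx := by
    obtain ⟨y, hy1, hy2⟩ := exists_between hx.2
    exact ⟨y, ⟨hx.1.trans hy1, hy2⟩, hy1⟩

end OIs

section Lat

variable {G Ω : Type*} [Group G] [LinearOrder Ω] [MulAction G Ω] [DenselyOrdered Ω]
  [NoMinOrder Ω] [NoMaxOrder Ω] [Lattice G] [MulLeftMono G] [MulRightMono G]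

omit [Lattice G] [MulLeftMono G] [MulRightMono G] in
theorem supp_of_cc (hN : Nice G Ω) {g z : G} (h : ∀ k : G, Commute k g → Commute k z) {a b : Ω}
    (hs : Supp g a b) : Supp z a b := by
  intro x hx
  rcases hx with hx | hx
  · refine hN.fix_of_commute (OI_Iio a) (g := z) ?_ x hx
    intro k hk
    obtain ⟨c, d, _, hd, _, hk⟩ := hk
    exact (h k (hk.commute hN hs (le_of_lt hd))).symm
  · refine hN.fix_of_commute (OI_Ioi b) (g := z) ?_ x hx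
    intro k hk
    obtain ⟨c, d, hc, _, _, hk⟩ := hk
    exact (h k (hs.commute hN hk (le_of_lt hc)).symm).symm

theorem supp_mabs (hN : Nice G Ω) {g : G} {a b : Ω} (hs : Supp g a b) : Supp |g|ₘ a b :=
  supp_of_cc hN (fun _ hk => commute_mabs hk) hs

theorem InI.mabs (hN : Nice G Ω) {I : Set Ω} {g : G} (h : InI I g) : InI I |g|ₘ := by
  obtain ⟨a, b, ha, hb, hab, hs⟩ := h
  exact ⟨a, b, ha, hb, hab, supp_mabs hN hs⟩

/-- C1 -/
theorem dichotomy (hN : Nice G Ω) {I : Set Ω} (hI : OI I) {b : G} (hb : 1 ≤ b)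
    (hc : ∀ k : G, InI I k → Commute k b) {h₀ : G} (h₀I : InI I h₀) (hne : h₀ ≠ 1) {n : ℕ}
    (hle : |h₀|ₘ ≤ b ^ n) : ∀ h : G, InI I h → |h|ₘ ≤ b := by
  have hall : ∀ h : G, InI I h → ∃ n : ℕ, |h|ₘ ≤ b ^ n := by
    refine hN.simple hI (fun h => ∃ n : ℕ, |h|ₘ ≤ b ^ n) ?_ ?_ ?_ h₀I ⟨n, hle⟩ hne
    · rintro x y ⟨m, hm⟩ ⟨m', hm'⟩
      refine ⟨m + m' + m, (mabs_mul_le3 x y).trans ?_⟩
      rw [pow_add, pow_add]
      exact mul_le_mul' (mul_le_mul' hm hm') hm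
    · rintro x ⟨m, hm⟩
      exact ⟨m, by rw [mabs_inv]; exact hm⟩
    · rintro k x hk ⟨m, hm⟩
      refine ⟨m, ?_⟩
      rw [mabs_conj]
      calc k * |x|ₘ * k⁻¹ ≤ k * b ^ m * k⁻¹ := conj_le_conj hm
        _ = b ^ m := by rw [((hc k hk).pow_right m).eq]; group
  intro h hh
  have hx := hh.mabs hN
  have hcx : Commute |h|ₘ b := hc _ hx
  have hx1 : 1 ≤ |h|ₘ := one_le_mabs h
  set x := |h|ₘ with hxdef
  obtain ⟨a₁, b₁, ha₁, hb₁, hab₁, hs₁⟩ := hx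
  obtain ⟨p, hp, hpa⟩ := hI.noMin a₁ ha₁
  obtain ⟨q, hq, hbq⟩ := hI.noMax b₁ hb₁
  obtain ⟨g, s, hg, hs, hcomm, heq⟩ := hN.trick x a₁ b₁ p q hpa hab₁ hbq hs₁
  have hpq : p < q := hpa.trans (hab₁.trans hbq)
  have hgI : InI I g := ⟨p, q, hp, hq, hpq, hg⟩
  have hsI : InI I s := ⟨p, q, hp, hq, hpq, hs⟩
  obtain ⟨N, hN'⟩ := hall s hsI
  have hN1 : |s|ₘ ≤ b ^ (N + 1) := hN'.trans (by
    rw [pow_succ]; exact le_mul_of_one_le_right' hb)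
  have hpow : ∀ m : ℕ, x ^ m = g ^ m * s * (g ^ m)⁻¹ * s⁻¹ := by
    intro m
    have e1 : g ^ m = x ^ m * (s * g ^ m * s⁻¹) := by
      conv_lhs => rw [heq]
      rw [hcomm.mul_pow, conj_pow]
    have e2 : x ^ m = g ^ m * (s * g ^ m * s⁻¹)⁻¹ := by
      rw [eq_mul_inv_iff_mul_eq]; exact e1.symm
    rw [e2]; group
  have hbound : ∀ m : ℕ, x ^ m ≤ b ^ (2 * (N + 1)) := by
    intro m
    rw [hpow m]
    have hgm : Commute (g ^ m) b := (hc g hgI).pow_left m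
    have h1 : g ^ m * s * (g ^ m)⁻¹ ≤ b ^ (N + 1) := by
      calc g ^ m * s * (g ^ m)⁻¹ ≤ g ^ m * b ^ (N + 1) * (g ^ m)⁻¹ :=
            conj_le_conj ((le_mabs_self s).trans hN1)
        _ = b ^ (N + 1) := by rw [(hgm.pow_right (N + 1)).eq]; group
    have h2 : s⁻¹ ≤ b ^ (N + 1) := (inv_le_mabs s).trans hN1
    calc g ^ m * s * (g ^ m)⁻¹ * s⁻¹ ≤ b ^ (N + 1) * b ^ (N + 1) := mul_le_mul' h1 h2
      _ = b ^ (2 * (N + 1)) := by rw [← pow_add]; congr 1; ring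
  exact le_of_pow_le_pow_commute hcx (by omega : 2 * (N + 1) ≠ 0) (hbound _)

/-- C2a -/
theorem dom_aux (hN : Nice G Ω) {I : Set Ω} (hI : OI I) {h k d₁ d₂ : G}
    (hk : ∀ l : G, InI I l → Commute l k) (hd : |h|ₘ ⊓ |k|ₘ = d₁ * d₂) (hd₁ : InI I d₁)
    (hd₂ : ∀ l : G, InI I l → Commute l d₂) (hne : d₁ ≠ 1) : ∀ h' : G, InI I h' → |h'|ₘ ≤ |k|ₘ := by
  have hl : ∃ l : G, InI I l ∧ ¬ Commute d₁ l := by
    by_contra hc
    push Not at hc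
    have hfix := hN.fix_of_commute hI (g := d₁) hc
    apply hne
    apply hN.faithful
    intro x
    obtain ⟨a, b, ha, hb, hab, hs⟩ := hd₁
    by_cases hx : x < a ∨ b < x
    · exact hs x hx
    · push Not at hx
      exact hfix x (hI.mem_of ha hb hx.1 hx.2)
  obtain ⟨l, hlI, hl⟩ := hl
  have hb := comm_bound (k := l) (u := |k|ₘ) (v := |h|ₘ ⊓ |k|ₘ)
    (le_inf (one_le_mabs _) (one_le_mabs _)) inf_le_right (commute_mabs (hk l hlI))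
  have he : l * (|h|ₘ ⊓ |k|ₘ) * l⁻¹ * (|h|ₘ ⊓ |k|ₘ)⁻¹ = l * d₁ * l⁻¹ * d₁⁻¹ := by
    rw [hd]
    have e : d₂ * l⁻¹ = l⁻¹ * d₂ := ((hd₂ l hlI).inv_left.eq).symm
    calc l * (d₁ * d₂) * l⁻¹ * (d₁ * d₂)⁻¹ = l * d₁ * (d₂ * l⁻¹) * d₂⁻¹ * d₁⁻¹ := by group
      _ = l * d₁ * (l⁻¹ * d₂) * d₂⁻¹ * d₁⁻¹ := by rw [e]
      _ = l * d₁ * l⁻¹ * d₁⁻¹ := by group
  rw [he] at hb
  refine dichotomy hN hI (one_le_mabs k) (fun m hm => commute_mabs (hk m hm))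
    (h₀ := l * d₁ * l⁻¹ * d₁⁻¹) ((hlI.conj hN hI hd₁).mul hd₁.inv) ?_ (n := 1) (by simpa using hb)
  intro h1
  apply hl
  have : l * d₁ * l⁻¹ = d₁ := by
    rw [mul_inv_eq_one] at h1; exact h1
  show d₁ * l = l * d₁
  calc d₁ * l = (l * d₁ * l⁻¹) * l := by rw [this]
    _ = l * d₁ := by group

theorem dom_half (hN : Nice G Ω) {I J : Set Ω} (hI : OI I) (hJ : OI J)
    (hcomm : ∀ h k : G, InI I h → InI J k → Commute h k)
    (hD : ∀ h k : G, InI I h → InI J k → ∃ d₁ d₂ : G, InI I d₁ ∧ InI J d₂ ∧ |h|ₘ ⊓ |k|ₘ = d₁ * d₂)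
    {h₀ k₀ d₁ d₂ : G} (hh₀ : InI I h₀) (hk₀ : InI J k₀) (hd₁ : InI I d₁) (hd₂ : InI J d₂)
    (hd : |h₀|ₘ ⊓ |k₀|ₘ = d₁ * d₂) (hne : d₁ ≠ 1) (hnp : ¬ Perp h₀ k₀) :
    ∀ h k : G, InI I h → InI J k → k ≠ 1 → |h|ₘ ≤ |k|ₘ := by
  have hA : ∀ h' : G, InI I h' → |h'|ₘ ≤ |k₀|ₘ :=
    dom_aux hN hI (fun l hl => hcomm l k₀ hl hk₀) hd hd₁ (fun l hl => hcomm l d₂ hl hd₂) hne
  intro h k hh hk hk1
  -- k is not orthogonal to all of G_I
  have hnot : ∃ h₁ : G, InI I h₁ ∧ ¬ Perp h₁ k := by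
    by_contra hc
    push Not at hc
    have := hN.simple hJ (fun k' => ∀ h₁ : G, InI I h₁ → Perp h₁ k') ?_ ?_ ?_ hk hc hk1 k₀ hk₀
    · exact hnp (this h₀ hh₀)
    · intro x y hx hy h₁ hh₁
      exact (hx h₁ hh₁).mul_right (hy h₁ hh₁)
    · intro x hx h₁ hh₁
      exact (hx h₁ hh₁).inv_right
    · intro l x hl hx h₁ hh₁
      have h2 := (hx h₁ hh₁).conj l
      have h3 : l * h₁ * l⁻¹ = h₁ := by
        rw [← (hcomm h₁ l hh₁ hl).eq]; group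
      rwa [h3] at h2
  obtain ⟨h₁, hh₁, hnp₁⟩ := hnot
  obtain ⟨e₁, e₂, he₁, he₂, he⟩ := hD h₁ k hh₁ hk
  by_cases he₁1 : e₁ = 1
  · -- then e₂ ≠ 1
    have he₂1 : e₂ ≠ 1 := by
      rintro rfl
      apply hnp₁
      unfold Perp
      rw [he, he₁1, one_mul]
    have hB : ∀ k' : G, InI J k' → |k'|ₘ ≤ |h₁|ₘ := by
      refine dom_aux hN hJ (h := k) (k := h₁) (d₁ := e₂) (d₂ := e₁)
        (fun l hl => (hcomm h₁ l hh₁ hl).symm) ?_ he₂ (fun l hl => (hcomm e₁ l he₁ hl).symm) he₂1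
      rw [inf_comm, he, (hcomm e₁ e₂ he₁ he₂).eq]
    exfalso
    have h1 : |h₁|ₘ ^ 2 ≤ |k₀|ₘ := by
      have := hA (|h₁|ₘ ^ 2) ((hh₁.mabs hN).pow 2 (by norm_num))
      rwa [mabs_of_one_le (one_le_pow_of_one_le' (one_le_mabs h₁) 2)] at this
    have h2 : |k₀|ₘ ≤ |h₁|ₘ := hB k₀ hk₀
    have h3 : |h₁|ₘ * |h₁|ₘ ≤ |h₁|ₘ := by rw [← pow_two]; exact h1.trans h2
    have h4 : |h₁|ₘ ≤ 1 := by simpa using h3
    have h5 : h₁ = 1 := mabs_eq_one_iff'.mp (le_antisymm h4 (one_le_mabs _))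
    apply hnp₁
    unfold Perp
    rw [h5]; simp
  · exact dom_aux hN hI (fun l hl => hcomm l k hl hk) he he₁ (fun l hl => hcomm l e₂ hl he₂) he₁1 h hh

theorem trichotomy_gen (hN : Nice G Ω) {I J : Set Ω} (hI : OI I) (hJ : OI J)
    (hcomm : ∀ h k : G, InI I h → InI J k → Commute h k)
    (hD : ∀ h k : G, InI I h → InI J k →
      ∃ d₁ d₂ : G, InI I d₁ ∧ InI J d₂ ∧ |h|ₘ ⊓ |k|ₘ = d₁ * d₂) :
    (∀ h k : G, InI I h → InI J k → Perp h k) ∨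
    (∀ h k : G, InI I h → InI J k → k ≠ 1 → |h|ₘ ≤ |k|ₘ) ∨
    (∀ h k : G, InI I h → InI J k → h ≠ 1 → |k|ₘ ≤ |h|ₘ) := by
  by_cases hP : ∀ h k : G, InI I h → InI J k → Perp h k
  · exact Or.inl hP
  · right
    push Not at hP
    obtain ⟨h₀, k₀, hh₀, hk₀, hnp⟩ := hP
    obtain ⟨d₁, d₂, hd₁, hd₂, hd⟩ := hD h₀ k₀ hh₀ hk₀
    by_cases hd₁1 : d₁ = 1
    · right
      have hd₂1 : d₂ ≠ 1 := by
        rintro rfl
        apply hnp
        unfold Perp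
        rw [hd, hd₁1, one_mul]
      have := dom_half hN hJ hI (fun h k hh hk => (hcomm k h hk hh).symm) (by
        intro h k hh hk
        obtain ⟨e₁, e₂, he₁, he₂, he⟩ := hD k h hk hh
        exact ⟨e₂, e₁, he₂, he₁, by rw [inf_comm, he, (hcomm e₁ e₂ he₁ he₂).eq]⟩)
        (h₀ := k₀) (k₀ := h₀) (d₁ := d₂) (d₂ := d₁) hk₀ hh₀ hd₂ hd₁
        (by rw [inf_comm, hd, (hcomm d₁ d₂ hd₁ hd₂).eq]) hd₂1 (fun h => hnp h.symm)
      intro h k hh hk hh1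
      exact this k h hk hh hh1
    · left
      exact dom_half hN hI hJ hcomm hD hh₀ hk₀ hd₁ hd₂ hd hd₁1 hnp

theorem decomp_at (hN : Nice G Ω) (c : Ω) (h k : G) (hh : InI (Set.Iio c) h)
    (hk : InI (Set.Ioi c) k) :
    ∃ d₁ d₂ : G, InI (Set.Iio c) d₁ ∧ InI (Set.Ioi c) d₂ ∧ |h|ₘ ⊓ |k|ₘ = d₁ * d₂ := by
  obtain ⟨a₁, b₁, ha₁, hb₁, hab₁, hs₁⟩ := hh
  obtain ⟨a₂, b₂, ha₂, hb₂, hab₂, hs₂⟩ := hk
  simp only [Set.mem_Iio, Set.mem_Ioi] at ha₁ hb₁ ha₂ hb₂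
  set d := |h|ₘ ⊓ |k|ₘ with hd
  have hcd : ∀ l : G, Commute l h → Commute l k → Commute d l := fun l h1 h2 =>
    (commute_inf (commute_mabs h1) (commute_mabs h2)).symm
  have fix1 : ∀ w, w < a₁ → d • w = w := by
    intro w hw
    refine hN.fix_of_commute (OI_Iio a₁) (g := d) ?_ w hw
    rintro l ⟨x, y, _, hy, _, hl⟩
    have hy' : y < a₁ := hy
    exact hcd l (hl.commute hN hs₁ hy'.le)
      (hl.commute hN hs₂ (hy'.trans (hab₁.trans (hb₁.trans ha₂))).le)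
  have fix2 : ∀ w, b₁ < w → w < a₂ → d • w = w := by
    intro w hw1 hw2
    refine hN.fix_of_commute (OI_Ioo b₁ a₂) (g := d) ?_ w ⟨hw1, hw2⟩
    rintro l ⟨x, y, hx, hy, _, hl⟩
    exact hcd l (hs₁.commute hN hl hx.1.le).symm (hl.commute hN hs₂ hy.2.le)
  have fix3 : ∀ w, b₂ < w → d • w = w := by
    intro w hw
    refine hN.fix_of_commute (OI_Ioi b₂) (g := d) ?_ w hw
    rintro l ⟨x, y, hx, _, _, hl⟩
    have hx' : b₂ < x := hx
    exact hcd l (hs₁.commute hN hl (hb₁.le.trans (ha₂.le.trans (hab₂.le.trans hx'.le)))).symm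
      (hs₂.commute hN hl hx'.le).symm
  have hdc : d • c = c := fix2 c hb₁ ha₂
  obtain ⟨d₁, hd₁a, hd₁b⟩ := hN.cut d c hdc
  refine ⟨d₁, d₁⁻¹ * d, ⟨a₁, b₁, ha₁, hb₁, hab₁, ?_⟩, ⟨a₂, b₂, ha₂, hb₂, hab₂, ?_⟩, by group⟩
  · intro x hx
    rcases hx with hx | hx
    · rw [hd₁a x (hx.trans ha₁).le]; exact fix1 x hx
    · rcases le_total x c with hxc | hxc
      · rw [hd₁a x hxc]; exact fix2 x hx (hxc.trans_lt ha₂)
      · exact hd₁b x hxc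
  · intro x hx
    rw [mul_smul]
    rcases hx with hx | hx
    · rcases le_total x c with hxc | hxc
      · rw [← hd₁a x hxc, inv_smul_smul]
      · rw [fix2 x (hb₁.trans_le hxc) hx]
        exact inv_fix (hd₁b x hxc)
    · rw [fix3 x hx]
      exact inv_fix (hd₁b x (ha₂.trans (hab₂.trans hx)).le)

theorem comm_at (hN : Nice G Ω) (c : Ω) (h k : G) (hh : InI (Set.Iio c) h)
    (hk : InI (Set.Ioi c) k) : Commute h k := by
  obtain ⟨a₁, b₁, _, hb₁, _, hs₁⟩ := hh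
  obtain ⟨a₂, b₂, ha₂, _, _, hs₂⟩ := hk
  have h1 : b₁ < c := hb₁
  have h2 : c < a₂ := ha₂
  exact hs₁.commute hN hs₂ (h1.trans h2).le

theorem trichotomy_at (hN : Nice G Ω) (c : Ω) :
    (∀ h k : G, InI (Set.Iio c) h → InI (Set.Ioi c) k → Perp h k) ∨
    (∀ h k : G, InI (Set.Iio c) h → InI (Set.Ioi c) k → k ≠ 1 → |h|ₘ ≤ |k|ₘ) ∨
    (∀ h k : G, InI (Set.Iio c) h → InI (Set.Ioi c) k → h ≠ 1 → |k|ₘ ≤ |h|ₘ) :=
  trichotomy_gen hN (OI_Iio c) (OI_Ioi c) (comm_at hN c) (decomp_at hN c)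

theorem exists_ne_one_Iio (hN : Nice G Ω) (c : Ω) : ∃ h : G, InI (Set.Iio c) h ∧ h ≠ 1 := by
  obtain ⟨b, hb⟩ := exists_lt c
  obtain ⟨a, ha⟩ := exists_lt b
  obtain ⟨k, hk, hk1⟩ := hN.exists_ne_one ha
  exact ⟨k, ⟨a, b, ha.trans hb, hb, ha, hk⟩, hk1⟩

theorem exists_ne_one_Ioi (hN : Nice G Ω) (c : Ω) : ∃ h : G, InI (Set.Ioi c) h ∧ h ≠ 1 := by
  obtain ⟨a, ha⟩ := exists_gt c
  obtain ⟨b, hb⟩ := exists_gt a
  obtain ⟨k, hk, hk1⟩ := hN.exists_ne_one hb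
  exact ⟨k, ⟨a, b, ha, ha.trans hb, hb, hk⟩, hk1⟩

theorem sq_contra {x y : G} (h1 : |(|x|ₘ) ^ 2|ₘ ≤ |y|ₘ) (h2 : |y|ₘ ≤ |x|ₘ) : x = 1 := by
  rw [mabs_of_one_le (one_le_pow_of_one_le' (one_le_mabs x) 2)] at h1
  have h3 : |x|ₘ * |x|ₘ ≤ |x|ₘ := by rw [← pow_two]; exact h1.trans h2
  have h4 : |x|ₘ ≤ 1 := by simpa using h3
  exact mabs_eq_one_iff'.mp (le_antisymm h4 (one_le_mabs _))

theorem trichotomy [Nonempty Ω] (hN : Nice G Ω) :
    (∀ (c : Ω) (h k : G), InI (Set.Iio c) h → InI (Set.Ioi c) k → Perp h k) ∨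
    (∀ (c : Ω) (h k : G), InI (Set.Iio c) h → InI (Set.Ioi c) k → k ≠ 1 → |h|ₘ ≤ |k|ₘ) ∨
    (∀ (c : Ω) (h k : G), InI (Set.Iio c) h → InI (Set.Ioi c) k → h ≠ 1 → |k|ₘ ≤ |h|ₘ) := by
  obtain ⟨c₀⟩ := ‹Nonempty Ω›
  have hpair : ∀ c : Ω, ∃ h k : G, InI (Set.Iio c) h ∧ InI (Set.Iio c₀) h ∧ InI (Set.Ioi c) k ∧
      InI (Set.Ioi c₀) k ∧ h ≠ 1 ∧ k ≠ 1 := by
    intro c
    obtain ⟨h, hh, hh1⟩ := exists_ne_one_Iio (G := G) hN (min c c₀)
    obtain ⟨k, hk, hk1⟩ := exists_ne_one_Ioi (G := G) hN (max c c₀)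
    exact ⟨h, k, hh.supp_mono (Set.Iio_subset_Iio (min_le_left _ _)),
      hh.supp_mono (Set.Iio_subset_Iio (min_le_right _ _)),
      hk.supp_mono (Set.Ioi_subset_Ioi (le_max_left _ _)),
      hk.supp_mono (Set.Ioi_subset_Ioi (le_max_right _ _)), hh1, hk1⟩
  rcases trichotomy_at (G := G) hN c₀ with h0 | h0 | h0
  · left
    intro c
    rcases trichotomy_at (G := G) hN c with h1 | h1 | h1
    · exact h1
    · exfalso
      obtain ⟨h, k, ha, hb, hc, hd, he, hf⟩ := hpair c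
      exact he ((h0 h k hb hd).eq_one_of_le (h1 h k ha hc hf))
    · exfalso
      obtain ⟨h, k, ha, hb, hc, hd, he, hf⟩ := hpair c
      exact hf ((h0 h k hb hd).eq_one_of_le' (h1 h k ha hc he))
  · right; left
    intro c
    rcases trichotomy_at (G := G) hN c with h1 | h1 | h1
    · exfalso
      obtain ⟨h, k, ha, hb, hc, hd, he, hf⟩ := hpair c
      exact he ((h1 h k ha hc).eq_one_of_le (h0 h k hb hd hf))
    · exact h1
    · exfalso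
      obtain ⟨h, k, ha, hb, hc, hd, he, hf⟩ := hpair c
      exact he (sq_contra (h0 _ k ((hb.mabs hN).pow 2 (by norm_num)) hd hf) (h1 h k ha hc he))
  · right; right
    intro c
    rcases trichotomy_at (G := G) hN c with h1 | h1 | h1
    · exfalso
      obtain ⟨h, k, ha, hb, hc, hd, he, hf⟩ := hpair c
      exact hf ((h1 h k ha hc).eq_one_of_le' (h0 h k hb hd he))
    · exfalso
      obtain ⟨h, k, ha, hb, hc, hd, he, hf⟩ := hpair c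
      exact he (sq_contra (h1 _ k ((ha.mabs hN).pow 2 (by norm_num)) hc hf) (h0 h k hb hd he))
    · exact h1

/-- moving part: if `g` moves `w > c`, there is `k` supported in `(c,∞)` such that a commutator of
`g` or `g⁻¹` with `k` is a non-trivial element supported in `(c,∞)`. -/
theorem exists_comm_right (hN : Nice G Ω) {g : G} {c w : Ω} (hcw : c < w) (hw : g • w ≠ w) :
    ∃ k : G, InI (Set.Ioi c) k ∧
      ((InI (Set.Ioi c) (k * g * k⁻¹ * g⁻¹) ∧ k * g * k⁻¹ * g⁻¹ ≠ 1) ∨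
       (InI (Set.Ioi c) (k * g⁻¹ * k⁻¹ * g) ∧ k * g⁻¹ * k⁻¹ * g ≠ 1)) := by
  obtain ⟨q, hq⟩ := exists_gt w
  obtain ⟨a, b, h1, h2, h3, h4, h5⟩ := hN.displace hw hcw hq
  have hab := h2.trans h3
  obtain ⟨k, hk, hk1⟩ := hN.exists_ne_one hab
  have haI : a ∈ Set.Ioi c := h1
  have hbI : b ∈ Set.Ioi c := h1.trans hab
  have hkI : InI (Set.Ioi c) k := ⟨a, b, haI, hbI, hab, hk⟩
  refine ⟨k, hkI, ?_⟩
  rcases h5 with h5 | h5
  · -- g moves [a,b] down; use g⁻¹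
    right
    have hga : b < g⁻¹ • a := by
      have := (hN.lt_iff g⁻¹).mpr h5
      simpa using this
    have hconj : Supp (g⁻¹ * k⁻¹ * g⁻¹⁻¹) (g⁻¹ • a) (g⁻¹ • b) := hk.inv.conj hN g⁻¹
    have hIn : InI (Set.Ioi c) (g⁻¹ * k⁻¹ * g⁻¹⁻¹) :=
      ⟨g⁻¹ • a, g⁻¹ • b, lt_trans hbI hga, lt_trans hbI (hga.trans (hN.mono g⁻¹ hab)),
        hN.mono g⁻¹ hab, hconj⟩
    have heq : k * g⁻¹ * k⁻¹ * g = k * (g⁻¹ * k⁻¹ * g⁻¹⁻¹) := by group
    rw [heq]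
    refine ⟨hkI.mul hIn, ?_⟩
    intro h6
    have h7 : g⁻¹ * k⁻¹ * g⁻¹⁻¹ = k⁻¹ := eq_inv_of_mul_eq_one_right h6
    rw [h7] at hconj
    have h8 := hk.inv.eq_one_of_disjoint hN hconj (Or.inl hga)
    exact hk1 (inv_eq_one.mp h8)
  · left
    have hconj : Supp (g * k⁻¹ * g⁻¹) (g • a) (g • b) := hk.inv.conj hN g
    have hIn : InI (Set.Ioi c) (g * k⁻¹ * g⁻¹) :=
      ⟨g • a, g • b, lt_trans hbI h5, lt_trans hbI (h5.trans (hN.mono g hab)),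
        hN.mono g hab, hconj⟩
    have heq : k * g * k⁻¹ * g⁻¹ = k * (g * k⁻¹ * g⁻¹) := by group
    rw [heq]
    refine ⟨hkI.mul hIn, ?_⟩
    intro h6
    have h7 : g * k⁻¹ * g⁻¹ = k⁻¹ := eq_inv_of_mul_eq_one_right h6
    rw [h7] at hconj
    have h8 := hk.inv.eq_one_of_disjoint hN hconj (Or.inl h5)
    exact hk1 (inv_eq_one.mp h8)

/-- right dominance -/
def TR (G Ω : Type*) [Group G] [LinearOrder Ω] [MulAction G Ω] [Lattice G] : Prop :=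
  ∀ (c : Ω) (h k : G), InI (Set.Iio c) h → InI (Set.Ioi c) k → k ≠ 1 → |h|ₘ ≤ |k|ₘ

/-- C4a -/
theorem TR.fix_of_le (hN : Nice G Ω) (hR : TR G Ω) {u v : G} {a b : Ω} (hab : a < b)
    (hv : 1 ≤ v) (hvu : v ≤ u) (hs : Supp u a b) : ∀ w, b < w → v • w = w := by
  intro w hw
  by_contra hne
  obtain ⟨c, hbc, hcw⟩ := exists_between hw
  obtain ⟨k, hk, hor⟩ := exists_comm_right hN hcw hne
  have huI : InI (Set.Iio c) u := ⟨a, b, hab.trans hbc, hbc, hab, hs⟩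
  have hku : Commute k u := (comm_at hN c u k huI hk).symm
  have hu1 : 1 ≤ u := hv.trans hvu
  have key : ∀ e : G, InI (Set.Ioi c) e → e ≠ 1 → |e|ₘ ≤ u → False := by
    intro e he he1 hle
    have h1 := hR c (u ^ 2) e (huI.pow 2 (by norm_num)) he he1
    rw [mabs_of_one_le (one_le_pow_of_one_le' hu1 2)] at h1
    have h2 : u * u ≤ u := by rw [← pow_two]; exact h1.trans hle
    have h3 : u ≤ 1 := by simpa using h2
    have h4 : u = 1 := le_antisymm h3 hu1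
    have h5 : v = 1 := le_antisymm (h4 ▸ hvu) hv
    rw [h5] at hne
    simp at hne
  rcases hor with ⟨h1, h2⟩ | ⟨h1, h2⟩
  · exact key _ h1 h2 (comm_bound hv hvu hku)
  · exact key _ h1 h2 (comm_bound' hv hvu hku)

/-- C4b -/
theorem TR.le_of_moves (hN : Nice G Ω) (hR : TR G Ω) {u f : G} {c w : Ω} (hu : InI (Set.Iio c) u)
    (hu1 : 1 ≤ u) (hf : 1 ≤ f) (hcw : c < w) (hw : f • w ≠ w) : u ≤ f := by
  obtain ⟨a, b, ha, hb, hab, hs⟩ := hu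
  have hb' : b < c := hb
  obtain ⟨hv1, hu'1, hf'1, hperp⟩ := inf_decomp u f hu1 hf
  have hvu : u ⊓ f ≤ u := inf_le_left
  set v := u ⊓ f with hv
  have hvfix := TR.fix_of_le hN hR hab hv1 hvu hs
  have hu'fix := TR.fix_of_le hN hR hab hu'1 (inv_mul_le_self hv1) hs
  set u' := v⁻¹ * u with hu'
  set f' := v⁻¹ * f with hf'
  -- f' moves w
  have hf'w : f' • w ≠ w := by
    intro h1
    apply hw
    have h2 : f • w = v • w := by
      have h3 : f = v * f' := by rw [hf']; group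
      conv_lhs => rw [h3, mul_smul, h1]
    rw [h2, hvfix w (hb'.trans hcw)]
  obtain ⟨k, hk, hor⟩ := exists_comm_right hN hcw hf'w
  have hu'I : InI (Set.Iio c) u' := by
    obtain ⟨a₂, b₂, hab₂, hs₂⟩ := hN.bdd (Ω := Ω) u'
    refine ⟨min a₂ a, b, ?_, hb, (min_le_right _ _).trans_lt hab, ?_⟩
    · exact (min_le_right _ _).trans_lt ha
    · intro x hx
      rcases hx with hx | hx
      · exact hs₂ x (Or.inl (hx.trans_le (min_le_left _ _)))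
      · exact hu'fix x hx
  have hku' : Commute k u' := (comm_at hN c u' k hu'I hk).symm
  have hP : Perp u' f' := (perp_of_one_le hu'1 hf'1).mpr hperp
  have hkc : k * u' * k⁻¹ = u' := by rw [hku'.eq]; group
  have hP2 : Perp u' (k * f' * k⁻¹) := by
    have := hP.conj k; rwa [hkc] at this
  have hu'one : u' = 1 := by
    rcases hor with ⟨h1, h2⟩ | ⟨h1, h2⟩
    · have hP3 : Perp u' (k * f' * k⁻¹ * f'⁻¹) := hP2.mul_right hP.inv_right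
      exact hP3.eq_one_of_le (hR c u' _ hu'I h1 h2)
    · have hP3 : Perp u' (k * f'⁻¹ * k⁻¹ * f') := by
        have h3 : k * f'⁻¹ * k⁻¹ = (k * f' * k⁻¹)⁻¹ := by group
        rw [h3]
        exact hP2.inv_right.mul_right hP
      exact hP3.eq_one_of_le (hR c u' _ hu'I h1 h2)
  have : u = v := by
    have h1 : v * u' = u := by rw [hu']; group
    rw [hu'one, mul_one] at h1; exact h1.symm
  rw [this]
  exact inf_le_right

/-- C4c -/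
theorem TR.total (hN : Nice G Ω) (hR : TR G Ω) (f : G) : 1 ≤ f ∨ f ≤ 1 := by
  by_contra hc
  push Not at hc
  have h1 : f⁺ᵐ ≠ 1 := fun h => hc.2 (oneLePart_eq_one.mp h)
  have h2 : f⁻ᵐ ≠ 1 := fun h => hc.1 (leOnePart_eq_one.mp h)
  obtain ⟨w₁, hw₁⟩ := hN.exists_moved h1
  obtain ⟨w₂, hw₂⟩ := hN.exists_moved h2
  obtain ⟨c, hc⟩ := exists_lt (min w₁ w₂)
  obtain ⟨u, huI, hu1⟩ := exists_ne_one_Iio (G := G) hN c
  have h3 := TR.le_of_moves hN hR (huI.mabs hN) (one_le_mabs u) (one_le_oneLePart f)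
    (hc.trans_le (min_le_left _ _)) hw₁
  have h4 := TR.le_of_moves hN hR (huI.mabs hN) (one_le_mabs u) (one_le_leOnePart f)
    (hc.trans_le (min_le_right _ _)) hw₂
  have h5 : |u|ₘ ≤ 1 := by
    rw [← oneLePart_inf_leOnePart_eq_one f]; exact le_inf h3 h4
  exact hu1 (mabs_eq_one_iff'.mp (le_antisymm h5 (one_le_mabs _)))

end Lat

end Pool.Agent.Lib.MP_aba4aa_al
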