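import Pool.Agent.Lib.MP_aba4aa_al.Chain2

/-!
The left-dominant case (by duality) and the pointwise case.
-/

set_option autoImplicit false
set_option linter.unusedSectionVars false

namespace Pool.Agent.Lib.MP_aba4aa_al

section Dual

variable {G Ω : Type*} [Group G] [LinearOrder Ω] [MulAction G Ω]

theorem supp_dual {g : G} {a b : Ω} (h : Supp g a b) :
    Supp (Ω := Ωᵒᵈ) g (OrderDual.toDual b) (OrderDual.toDual a) := by
  intro x hx
  exact h (OrderDual.ofDual x) (Or.symm hx)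

theorem supp_of_dual {g : G} {a b : Ωᵒᵈ} (h : Supp (Ω := Ωᵒᵈ) g a b) :
    Supp g (OrderDual.ofDual b) (OrderDual.ofDual a) := by
  intro x hx
  exact h (OrderDual.toDual x) (Or.symm hx)

theorem Nice.dual (hN : Nice G Ω) : Nice G Ωᵒᵈ where
  mono g x y hxy := by
    have h : OrderDual.ofDual y < OrderDual.ofDual x := hxy
    have h2 : g • OrderDual.ofDual y < g • OrderDual.ofDual x := hN.mono g h
    exact h2
  faithful g h := hN.faithful g h
  bdd g := by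
    obtain ⟨a, b, hab, hs⟩ := hN.bdd g
    exact ⟨OrderDual.toDual b, OrderDual.toDual a, hab, supp_dual hs⟩
  trick g a b p q h1 h2 h3 hs := by
    have e1 : OrderDual.ofDual q < OrderDual.ofDual b := h3
    have e2 : OrderDual.ofDual b < OrderDual.ofDual a := h2
    have e3 : OrderDual.ofDual a < OrderDual.ofDual p := h1
    have hs1 : Supp (Ω := Ω) g (OrderDual.ofDual b) (OrderDual.ofDual a) :=
      supp_of_dual (Ω := Ω) hs
    have key := @Nice.trick G Ω _ _ _ hN g (OrderDual.ofDual b) (OrderDual.ofDual a)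
      (OrderDual.ofDual q) (OrderDual.ofDual p) e1 e2 e3 hs1
    obtain ⟨h, s, hh, hs', hc, heq⟩ := key
    exact ⟨h, s, supp_dual (Ω := Ω) hh, supp_dual (Ω := Ω) hs', hc, heq⟩
  trans p q a b a' b' h1 h2 h3 h4 h5 h6 := by
    have e1 : OrderDual.ofDual q < OrderDual.ofDual b := h3
    have e2 : OrderDual.ofDual b < OrderDual.ofDual a := h2
    have e3 : OrderDual.ofDual a < OrderDual.ofDual p := h1
    have e4 : OrderDual.ofDual q < OrderDual.ofDual b' := h6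
    have e5 : OrderDual.ofDual b' < OrderDual.ofDual a' := h5
    have e6 : OrderDual.ofDual a' < OrderDual.ofDual p := h4
    have key := @Nice.trans G Ω _ _ _ hN (OrderDual.ofDual q) (OrderDual.ofDual p)
      (OrderDual.ofDual b) (OrderDual.ofDual a) (OrderDual.ofDual b') (OrderDual.ofDual a')
      e1 e2 e3 e4 e5 e6
    obtain ⟨g, hg, hg1, hg2⟩ := key
    exact ⟨g, supp_dual (Ω := Ω) hg, hg2, hg1⟩
  cut g x hx := by
    have hx' : g • OrderDual.ofDual x = OrderDual.ofDual x := hx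
    obtain ⟨g₁, h1, h2⟩ := hN.cut g (OrderDual.ofDual x) hx'
    refine ⟨g₁⁻¹ * g, ?_, ?_⟩
    · intro y hy
      have hy' : OrderDual.ofDual x ≤ OrderDual.ofDual y := hy
      have h3 : g₁ • (g • OrderDual.ofDual y) = g • OrderDual.ofDual y := by
        apply h2
        have h4 := (hN.le_iff g).mpr hy'
        rwa [hx'] at h4
      have h6 : (g₁⁻¹ * g) • OrderDual.ofDual y = g • OrderDual.ofDual y := by
        rw [mul_smul]; exact inv_fix h3
      exact h6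
    · intro y hy
      have hy' : OrderDual.ofDual y ≤ OrderDual.ofDual x := hy
      have h3 : (g₁⁻¹ * g) • OrderDual.ofDual y = OrderDual.ofDual y := by
        rw [mul_smul, ← h1 _ hy', inv_smul_smul]
      exact h3
  ends g w hw := by
    have hw' : g • OrderDual.ofDual w ≠ OrderDual.ofDual w := hw
    obtain ⟨η, ξ, h1, h2, h3, h4, h5⟩ := hN.ends g (OrderDual.ofDual w) hw'
    exact ⟨OrderDual.toDual ξ, OrderDual.toDual η, h2, h1, h4, h3,
      fun y hy1 hy2 => h5 (OrderDual.ofDual y) hy2 hy1⟩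

theorem InI_dual_Iio {c : Ω} {g : G} (h : InI (Set.Ioi c) g) :
    InI (Ω := Ωᵒᵈ) (Set.Iio (OrderDual.toDual c)) g := by
  obtain ⟨a, b, ha, hb, hab, hs⟩ := h
  exact ⟨OrderDual.toDual b, OrderDual.toDual a, hb, ha, hab, supp_dual hs⟩

theorem InI_of_dual_Iio {c : Ωᵒᵈ} {g : G} (h : InI (Ω := Ωᵒᵈ) (Set.Iio c) g) :
    InI (Set.Ioi (OrderDual.ofDual c)) g := by
  obtain ⟨a, b, ha, hb, hab, hs⟩ := h
  exact ⟨OrderDual.ofDual b, OrderDual.ofDual a, hb, ha, hab, supp_of_dual hs⟩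

theorem InI_of_dual_Ioi {c : Ωᵒᵈ} {g : G} (h : InI (Ω := Ωᵒᵈ) (Set.Ioi c) g) :
    InI (Set.Iio (OrderDual.ofDual c)) g := by
  obtain ⟨a, b, ha, hb, hab, hs⟩ := h
  exact ⟨OrderDual.ofDual b, OrderDual.ofDual a, hb, ha, hab, supp_of_dual hs⟩

end Dual

section Lat

variable {G Ω : Type*} [Group G] [LinearOrder Ω] [MulAction G Ω] [DenselyOrdered Ω]
  [NoMinOrder Ω] [NoMaxOrder Ω] [Lattice G] [MulLeftMono G] [MulRightMono G]

/-- left dominance -/
def TL (G Ω : Type*) [Group G] [LinearOrder Ω] [MulAction G Ω] [Lattice G] : Prop :=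
  ∀ (c : Ω) (h k : G), InI (Set.Iio c) h → InI (Set.Ioi c) k → h ≠ 1 → |k|ₘ ≤ |h|ₘ

omit [DenselyOrdered Ω] [NoMinOrder Ω] [NoMaxOrder Ω] [MulLeftMono G] [MulRightMono G] in
theorem TL.dual (hL : TL G Ω) : TR G Ωᵒᵈ := by
  intro c h k hh hk hk1
  exact hL (OrderDual.ofDual c) k h (InI_of_dual_Ioi hk) (InI_of_dual_Iio hh) hk1

/-- The hypothesis excluding left dominance. -/
def Alt (G Ω : Type*) [Group G] [LinearOrder Ω] [MulAction G Ω] : Prop :=
  ∃ (c w : Ω) (g h s : G), h * (s * h * s⁻¹) = g ∧ InI (Set.Ioi c) g ∧ w < c ∧ h • w ≠ w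

theorem TL.false (hN : Nice G Ω) (hA : Alt G Ω) (hL : TL G Ω) : False := by
  obtain ⟨c, w, g, h, s, heq, hg, hw, hhw⟩ := hA
  have hR := hL.dual
  have hN' := hN.dual
  have key : ∀ h' g' : G, 1 ≤ h' → h' • w ≠ w → InI (Set.Ioi c) g' → h' ≤ g' → False := by
    intro h' g' h1 h2 h3 h4
    have hg1 : 1 ≤ g' := h1.trans h4
    have h5 : g' ^ 2 ≤ h' := by
      refine TR.le_of_moves (Ω := Ωᵒᵈ) hN' hR (c := OrderDual.toDual c) (w := OrderDual.toDual w)
        ((InI_dual_Iio h3).pow 2 (by norm_num)) (one_le_pow_of_one_le' hg1 2) h1 hw h2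
    have h6 : g' * g' ≤ g' := by rw [← pow_two]; exact h5.trans h4
    have h7 : g' ≤ 1 := by simpa using h6
    have h8 : h' = 1 := le_antisymm (h4.trans h7) h1
    rw [h8] at h2
    simp at h2
  rcases TR.total (Ω := Ωᵒᵈ) hN' hR h with h1 | h1
  · refine key h g h1 hhw hg ?_
    rw [← heq]
    exact le_mul_of_one_le_right' (one_le_conj h1)
  · have h1' : 1 ≤ h⁻¹ := Left.one_le_inv_iff.mpr h1
    refine key h⁻¹ g⁻¹ h1' (fun h2 => hhw (inv_fix_iff.mp h2)) hg.inv ?_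
    have heq' : g⁻¹ = (s * h⁻¹ * s⁻¹) * h⁻¹ := by rw [← heq]; group
    rw [heq']
    exact le_mul_of_one_le_left' (one_le_conj h1')

/-- pointwise case -/
def TP (G Ω : Type*) [Group G] [LinearOrder Ω] [MulAction G Ω] [Lattice G] : Prop :=
  ∀ (c : Ω) (h k : G), InI (Set.Iio c) h → InI (Set.Ioi c) k → Perp h k

/-- P0 -/
theorem TP.supp_of_le (hN : Nice G Ω) (hP : TP G Ω) {u v : G} {a b : Ω} (hab : a < b)
    (hv : 1 ≤ v) (hvu : v ≤ u) (hs : Supp u a b) : Supp v a b := by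
  have hvu' : |v|ₘ ≤ |u|ₘ := by rwa [mabs_of_one_le hv, mabs_of_one_le (hv.trans hvu)]
  intro x hx
  rcases hx with hx | hx
  · refine hN.fix_of_commute (OI_Iio a) (g := v) ?_ x hx
    rintro k ⟨c, d, hc, hd, hcd, hk⟩
    have hd' : d < a := hd
    obtain ⟨e, he1, he2⟩ := exists_between hd'
    have hk' : InI (Set.Iio e) k := ⟨c, d, hcd.trans he1, he1, hcd, hk⟩
    have hu' : InI (Set.Ioi e) u := ⟨a, b, he2, he2.trans hab, hab, hs⟩
    exact ((hP e k u hk' hu').of_mabs_le hvu').commute.symm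
  · refine hN.fix_of_commute (OI_Ioi b) (g := v) ?_ x hx
    rintro k ⟨c, d, hc, hd, hcd, hk⟩
    have hc' : b < c := hc
    obtain ⟨e, he1, he2⟩ := exists_between hc'
    have hk' : InI (Set.Ioi e) k := ⟨c, d, he2, he2.trans hcd, hcd, hk⟩
    have hu' : InI (Set.Iio e) u := ⟨a, b, hab.trans he1, he1, hab, hs⟩
    exact ((hP e u k hu' hk').symm.of_mabs_le hvu').commute.symm

/-- P1' -/
theorem TP.le_of_displace (hN : Nice G Ω) (hP : TP G Ω) {x g : G} {a b : Ω} (hab : a < b)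
    (hx : 1 ≤ x) (hd : x • b < a ∨ b < x • a) (hg : 1 ≤ g) (hs : Supp g a b) : g ≤ x := by
  obtain ⟨hv1, hg'1, hx'1, hperp⟩ := inf_decomp g x hg hx
  have hvu : g ⊓ x ≤ g := inf_le_left
  set v := g ⊓ x with hv
  have hvs : Supp v a b := TP.supp_of_le hN hP hab hv1 hvu hs
  have hg's : Supp (v⁻¹ * g) a b := TP.supp_of_le hN hP hab hg'1 (inv_mul_le_self hv1) hs
  set g' := v⁻¹ * g with hg'
  set x' := v⁻¹ * x with hx'
  have hab' : x • a < x • b := hN.mono x hab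
  have hxa : x' • a = x • a := by
    rw [hx', mul_smul]
    apply hvs.inv
    rcases hd with hd | hd
    · exact Or.inl (hab'.trans hd)
    · exact Or.inr hd
  have hxb : x' • b = x • b := by
    rw [hx', mul_smul]
    apply hvs.inv
    rcases hd with hd | hd
    · exact Or.inl hd
    · exact Or.inr (hd.trans hab')
  have hc : Commute g' x' := lg_comm hperp
  have hconj := hg's.conj hN x'
  have h1 : x' * g' * x'⁻¹ = g' := by rw [← hc.eq]; group
  rw [h1, hxa, hxb] at hconj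
  have h2 : g' = 1 := by
    refine hg's.eq_one_of_disjoint hN hconj ?_
    rcases hd with hd | hd
    · exact Or.inr hd
    · exact Or.inl hd
  have h3 : g = v := by
    have : v * g' = g := by rw [hg']; group
    rw [h2, mul_one] at this; exact this.symm
  rw [h3]; exact inf_le_right

/-- P1 -/
theorem TP.disjoint_moved (hN : Nice G Ω) (hP : TP G Ω) {x y : G} (hx : 1 ≤ x) (hy : 1 ≤ y)
    (hxy : x ⊓ y = 1) {w : Ω} (hw : x • w ≠ w) : y • w = w := by
  obtain ⟨p, hp⟩ := exists_lt w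
  obtain ⟨q, hq⟩ := exists_gt w
  obtain ⟨a, b, _, h2, h3, _, h5⟩ := hN.displace hw hp hq
  have hab := h2.trans h3
  refine hN.fix_of_commute (OI_Ioo a b) (g := y) ?_ w ⟨h2, h3⟩
  rintro k ⟨c, d, hc, hd, _, hk⟩
  have hk' : Supp |k|ₘ a b := supp_mabs hN (hk.mono hc.1.le hd.2.le)
  have h6 : |k|ₘ ≤ x := TP.le_of_displace hN hP hab hx h5 (one_le_mabs k) hk'
  have h7 : Perp y x := ((perp_of_one_le hx hy).mpr hxy).symm
  exact (h7.of_mabs_le (by rwa [mabs_of_one_le hx])).commute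

/-- P6d -/
theorem TP.perp_of_fix (hN : Nice G Ω) (hP : TP G Ω) {x : G} {a b : Ω}
    (hfix : ∀ y, a < y → y < b → x • y = y) (g : G) (hg : InI (Set.Ioo a b) g) : Perp x g := by
  obtain ⟨c, d, hc, hd, hcd, hs⟩ := hg
  have hac : a < c := hc.1
  have hdb : d < b := hd.2
  obtain ⟨m, hm1, hm2⟩ := exists_between hcd
  have ham : a < m := hac.trans hm1
  have hmb : m < b := hm2.trans hdb
  obtain ⟨x₁, hx₁a, hx₁b⟩ := hN.cut x m (hfix m ham hmb)
  obtain ⟨e, he1, he2⟩ := exists_between hac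
  obtain ⟨e', he'1, he'2⟩ := exists_between hdb
  have h1 : InI (Set.Iio e) x₁ := by
    obtain ⟨a₁, b₁, hab₁, hs₁⟩ := hN.bdd (Ω := Ω) x₁
    obtain ⟨a₂, ha₂⟩ := exists_lt (min a₁ a)
    refine ⟨a₂, a, (ha₂.trans_le (min_le_right _ _)).trans he1, he1,
      ha₂.trans_le (min_le_right _ _), ?_⟩
    intro z hz
    rcases hz with hz | hz
    · exact hs₁ z (Or.inl (hz.trans (ha₂.trans_le (min_le_left _ _))))
    · rcases le_total z m with hzm | hzm
      · rw [hx₁a z hzm]; exact hfix z hz (hzm.trans_lt hmb)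
      · exact hx₁b z hzm
  have h2 : InI (Set.Ioi e') (x₁⁻¹ * x) := by
    obtain ⟨a₁, b₁, hab₁, hs₁⟩ := hN.bdd (Ω := Ω) (x₁⁻¹ * x)
    obtain ⟨b₂, hb₂⟩ := exists_gt (max b₁ b)
    refine ⟨b, b₂, he'2, he'2.trans ((le_max_right _ _).trans_lt hb₂),
      (le_max_right _ _).trans_lt hb₂, ?_⟩
    intro z hz
    rcases hz with hz | hz
    · rw [mul_smul]
      rcases le_total z m with hzm | hzm
      · rw [← hx₁a z hzm, inv_smul_smul]
      · rw [hfix z (ham.trans_le hzm) hz]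
        exact inv_fix (hx₁b z hzm)
    · exact hs₁ z (Or.inr (((le_max_left _ _).trans_lt hb₂).trans hz))
  have hg1 : InI (Set.Ioi e) g := ⟨c, d, he2, he2.trans hcd, hcd, hs⟩
  have hg2 : InI (Set.Iio e') g := ⟨c, d, hcd.trans he'1, he'1, hcd, hs⟩
  have h3 : Perp x₁ g := hP e x₁ g h1 hg1
  have h4 : Perp (x₁⁻¹ * x) g := (hP e' g _ hg2 h2).symm
  have h5 := h3.mul_left h4
  have h6 : x₁ * (x₁⁻¹ * x) = x := by group
  rwa [h6] at h5

/-- P6e -/
theorem TP.fix_of_le (hN : Nice G Ω) (hP : TP G Ω) {v x : G} {a b : Ω} (hv : 1 ≤ v) (hvx : v ≤ x)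
    (hfix : ∀ y, a < y → y < b → x • y = y) : ∀ y, a < y → y < b → v • y = y := by
  intro y h1 h2
  refine hN.fix_of_commute (OI_Ioo a b) (g := v) ?_ y ⟨h1, h2⟩
  intro k hk
  have h3 := TP.perp_of_fix hN hP hfix k hk
  have hvx' : |v|ₘ ≤ |x|ₘ := by rwa [mabs_of_one_le hv, mabs_of_one_le (hv.trans hvx)]
  exact (h3.symm.of_mabs_le hvx').commute.symm

/-- P2 -/
theorem TP.comparable (hN : Nice G Ω) (hP : TP G Ω) {x : G} {η ξ : Ω} (hs : Supp x η ξ)
    (hmv : ∀ y, η < y → y < ξ → x • y ≠ y) : 1 ≤ x ∨ x ≤ 1 := by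
  by_contra hc
  push Not at hc
  have h1 : x⁺ᵐ ≠ 1 := fun h => hc.2 (oneLePart_eq_one.mp h)
  have h2 : x⁻ᵐ ≠ 1 := fun h => hc.1 (leOnePart_eq_one.mp h)
  have hdis : ∀ w : Ω, x⁺ᵐ • w ≠ w → x⁻ᵐ • w ≠ w → False := fun w hw1 hw2 =>
    hw2 (TP.disjoint_moved hN hP (one_le_oneLePart x) (one_le_leOnePart x)
      (oneLePart_inf_leOnePart_eq_one x) hw1)
  have hs1 : Supp x⁺ᵐ η ξ := supp_of_cc hN (fun _ hk => commute_posPart hk) hs
  have hs2 : Supp x⁻ᵐ η ξ := supp_of_cc hN (fun _ hk => commute_negPart hk) hs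
  obtain ⟨w₁, hw₁⟩ := hN.exists_moved h1
  obtain ⟨w₂, hw₂⟩ := hN.exists_moved h2
  have hin : ∀ {z : G} {w : Ω}, Supp z η ξ → z • w ≠ w → η < w ∧ w < ξ := by
    intro z w hz hw
    constructor
    · by_contra h; push Not at h; exact hw (hz.fixL hN h)
    · by_contra h; push Not at h; exact hw (hz.fixR hN h)
  have hw₁' := hin hs1 hw₁
  have hw₂' := hin hs2 hw₂
  have hnb : ∀ y, η < y → y < ξ → x⁺ᵐ • y = y → x⁻ᵐ • y ≠ y := by
    intro y hy1 hy2 hy3 hy4
    apply hmv y hy1 hy2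
    have : x • y = (x⁺ᵐ * (x⁻ᵐ)⁻¹) • y := by rw [← pos_mul_neg]
    rw [this, mul_smul, inv_fix hy4, hy3]
  have hw₂fix : x⁺ᵐ • w₂ = w₂ := by
    by_contra h; exact hdis w₂ h hw₂
  obtain ⟨η₁, ξ₁, e1, e2, e3, e4, e5⟩ := hN.ends x⁺ᵐ w₁ hw₁
  rcases lt_trichotomy w₁ w₂ with hlt | heq | hgt
  · have h3 : ξ₁ ≤ w₂ := by
      by_contra h; push Not at h
      exact e5 w₂ (e1.trans hlt) h hw₂fix
    have h4 : x⁻ᵐ • ξ₁ ≠ ξ₁ := hnb ξ₁ (hw₁'.1.trans e2) (h3.trans_lt hw₂'.2) e4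
    obtain ⟨q, hq⟩ := exists_gt ξ₁
    obtain ⟨a, b, f1, f2, f3, f4, f5⟩ := hN.displace h4 e2 hq
    have h5 : x⁻ᵐ • a ≠ a := by
      rcases f5 with f5 | f5
      · exact ((hN.mono _ (f2.trans f3)).trans f5).ne
      · exact ((f2.trans f3).trans f5).ne'
    exact hdis a (e5 a (e1.trans f1) f2) h5
  · rw [heq] at hw₁; exact hdis w₂ hw₁ hw₂
  · have h3 : w₂ ≤ η₁ := by
      by_contra h; push Not at h
      exact e5 w₂ h (hgt.trans e2) hw₂fix
    have h4 : x⁻ᵐ • η₁ ≠ η₁ := hnb η₁ (hw₂'.1.trans_le h3) (e1.trans hw₁'.2) e3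
    obtain ⟨p, hp⟩ := exists_lt η₁
    obtain ⟨a, b, f1, f2, f3, f4, f5⟩ := hN.displace h4 hp e1
    have h5 : x⁻ᵐ • b ≠ b := by
      rcases f5 with f5 | f5
      · exact (f5.trans (f2.trans f3)).ne
      · exact (f5.trans (hN.mono _ (f2.trans f3))).ne'
    exact hdis b (e5 b f3 (f4.trans e2)) h5

/-- a single upward bump -/
def BumpUp {G Ω : Type*} [Group G] [LinearOrder Ω] [MulAction G Ω] (x : G) (η ξ : Ω) : Prop :=
  η < ξ ∧ Supp x η ξ ∧ ∀ y, η < y → y < ξ → y < x • y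

theorem BumpUp.le (hN : Nice G Ω) {x : G} {η ξ : Ω} (h : BumpUp x η ξ) (v : Ω) : v ≤ x • v := by
  rcases le_or_gt v η with h1 | h1
  · exact (h.2.1.fixL hN h1).ge
  · rcases lt_or_ge v ξ with h2 | h2
    · exact (h.2.2 v h1 h2).le
    · exact (h.2.1.fixR hN h2).ge

/-- P3 -/
theorem TP.bump_sign (hN : Nice G Ω) (hP : TP G Ω) {x y : G} {η ξ η' ξ' : Ω}
    (hx : BumpUp x η ξ) (hx1 : 1 ≤ x) (hy : BumpUp y η' ξ') (hy1 : y ≤ 1) : False := by
  obtain ⟨a', ha1, ha2⟩ := exists_between hx.1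
  obtain ⟨b', hb'⟩ := exists_gt ξ
  obtain ⟨p, hp⟩ := exists_lt (min η' a')
  obtain ⟨q, hq⟩ := exists_gt (max ξ' b')
  obtain ⟨h, hh, hh1, hh2⟩ := hN.trans p q η' ξ' a' b' (hp.trans_le (min_le_left _ _)) hy.1
    ((le_max_left _ _).trans_lt hq) (hp.trans_le (min_le_right _ _)) (ha2.trans hb')
    ((le_max_right _ _).trans_lt hq)
  have hs' : Supp (h * y * h⁻¹) a' b' := by
    have := hy.2.1.conj hN h; rwa [hh1, hh2] at this
  have hup : ∀ z, a' < z → z < b' → z < (h * y * h⁻¹) • z := by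
    intro z hz1 hz2
    have h1 : η' < h⁻¹ • z := by
      rw [← hN.lt_iff h, hh1]; simpa using hz1
    have h2 : h⁻¹ • z < ξ' := by
      rw [← hN.lt_iff h, hh2]; simpa using hz2
    have h3 := hN.mono h (hy.2.2 _ h1 h2)
    rw [smul_inv_smul] at h3
    rw [mul_smul, mul_smul]; exact h3
  have hy'1 : h * y * h⁻¹ ≤ 1 := by
    have := conj_le_conj (k := h) hy1; simpa using this
  set y' := h * y * h⁻¹ with hy'
  have hy'b : BumpUp y' a' b' := ⟨ha2.trans hb', hs', hup⟩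
  have hz : ∀ w, η < w → w < b' → w < (x * y') • w := by
    intro w hw1 hw2
    rw [mul_smul]
    rcases le_or_gt w a' with h1 | h1
    · rw [hs'.fixL hN h1]
      exact hx.2.2 w hw1 (h1.trans_lt ha2)
    · exact (hup w h1 hw2).trans_le (hx.le hN _)
  have hzs : Supp (x * y') η b' :=
    (hx.2.1.mono le_rfl hb'.le).mul (hs'.mono ha1.le le_rfl)
  have hy'inv : 1 ≤ y'⁻¹ := Left.one_le_inv_iff.mpr hy'1
  rcases TP.comparable hN hP hzs (fun w h1 h2 => (hz w h1 h2).ne') with h1 | h1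
  · -- y'⁻¹ ≤ x
    have h2 : y'⁻¹ ≤ x := by
      have := mul_le_mul_left h1 y'⁻¹
      simpa using this
    obtain ⟨v, hv1, hv2⟩ := exists_between hb'
    have h3 := TP.fix_of_le hN hP hy'inv h2 (a := ξ) (b := b')
      (fun z hz1 _ => hx.2.1.fixR hN hz1.le) v hv1 hv2
    exact (hup v (ha2.trans hv1) hv2).ne' (inv_fix_iff.mp h3)
  · have h2 : x ≤ y'⁻¹ := by
      have := mul_le_mul_left h1 y'⁻¹
      simpa using this
    obtain ⟨v, hv1, hv2⟩ := exists_between ha1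
    have h3 := TP.fix_of_le hN hP hx1 h2 (a := η) (b := a')
      (fun z _ hz2 => inv_fix (hs'.fixL hN hz2.le)) v hv1 hv2
    exact (hx.2.2 v hv1 (hv2.trans ha2)).ne' h3

theorem TP.bump_all (hN : Nice G Ω) (hP : TP G Ω) :
    (∀ (x : G) (η ξ : Ω), BumpUp x η ξ → 1 ≤ x) ∨ (∀ (x : G) (η ξ : Ω), BumpUp x η ξ → x ≤ 1) := by
  by_cases h : ∀ (x : G) (η ξ : Ω), BumpUp x η ξ → x ≤ 1
  · exact Or.inr h
  · left
    push Not at h
    obtain ⟨x, η, ξ, hx, hx1⟩ := h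
    have hx2 : 1 ≤ x := by
      rcases TP.comparable hN hP hx.2.1 (fun w h1 h2 => (hx.2.2 w h1 h2).ne') with h1 | h1
      · exact h1
      · exact absurd h1 hx1
    intro y η' ξ' hy
    rcases TP.comparable hN hP hy.2.1 (fun w h1 h2 => (hy.2.2 w h1 h2).ne') with h1 | h1
    · exact h1
    · exact (TP.bump_sign hN hP hx hx2 hy h1).elim

omit [NoMinOrder Ω] [NoMaxOrder Ω] [Lattice G] [MulLeftMono G] [MulRightMono G] in
/-- restriction to a component -/
theorem Nice.restrict (hN : Nice G Ω) {g : G} {η ξ : Ω} (hηξ : η ≤ ξ) (h1 : g • η = η)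
    (h2 : g • ξ = ξ) : ∃ gJ : G, (∀ y, y ≤ η → gJ • y = y) ∧
      (∀ y, η ≤ y → y ≤ ξ → gJ • y = g • y) ∧ (∀ y, ξ ≤ y → gJ • y = y) := by
  obtain ⟨c₁, hc₁a, hc₁b⟩ := hN.cut g ξ h2
  have hc₁η : c₁ • η = η := by rw [hc₁a η hηξ, h1]
  obtain ⟨c₂, hc₂a, hc₂b⟩ := hN.cut c₁ η hc₁η
  refine ⟨c₂⁻¹ * c₁, ?_, ?_, ?_⟩
  · intro y hy
    rw [mul_smul, ← hc₂a y hy, inv_smul_smul]
  · intro y hy1 hy2
    rw [mul_smul, hc₁a y hy2]
    apply inv_fix
    apply hc₂b
    have := (hN.le_iff g).mpr hy1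
    rwa [h1] at this
  · intro y hy
    rw [mul_smul, hc₁b y hy]
    apply inv_fix
    exact hc₂b y (hηξ.trans hy)

/-- closure under pointwise supremum with the identity -/
def SupC (G Ω : Type*) [Group G] [LinearOrder Ω] [MulAction G Ω] : Prop :=
  ∀ g : G, ∃ g' : G, ∀ x : Ω, g' • x = max (g • x) x

omit [NoMinOrder Ω] [NoMaxOrder Ω] [Lattice G] [MulLeftMono G] [MulRightMono G] in
theorem sign_const [NoMinOrder Ω] [NoMaxOrder Ω] (hN : Nice G Ω) (hS : SupC G Ω) {g : G}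
    {η ξ w : Ω} (h1 : η < w) (h2 : w < ξ) (hmv : ∀ y, η < y → y < ξ → g • y ≠ y)
    (hw : g • w < w) : ∀ y, η < y → y < ξ → g • y < y := by
  intro y hy1 hy2
  by_contra hc
  push Not at hc
  have hy : y < g • y := lt_of_le_of_ne hc (hmv y hy1 hy2).symm
  obtain ⟨g', hg'⟩ := hS g
  have hg'w : g' • w = w := by rw [hg', max_eq_right hw.le]
  have hg'y : g' • y ≠ y := by rw [hg', max_eq_left hy.le]; exact hy.ne'
  obtain ⟨η', ξ', e1, e2, e3, e4, e5⟩ := hN.ends g' y hg'y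
  rcases lt_trichotomy w y with hlt | heq | hgt
  · have h3 : w ≤ η' := by
      by_contra h; push Not at h
      exact e5 w h (hlt.trans e2) hg'w
    have h4 : g • η' ≠ η' := hmv η' (h1.trans_le h3) (e1.trans hy2)
    have h5 : g • η' < η' := by
      refine lt_of_le_of_ne ?_ h4
      rw [hg'] at e3; exact max_eq_right_iff.mp e3
    obtain ⟨p, hp⟩ := exists_lt η'
    obtain ⟨a, b, f1, f2, f3, f4, f5⟩ := hN.displace h4 hp e1
    have h6 : g • b < b := by
      rcases f5 with f5 | f5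
      · exact f5.trans (f2.trans f3)
      · exact absurd ((f5.trans (hN.mono g f2)).trans h5) (not_lt.mpr f3.le)
    have h7 : g' • b = b := by rw [hg', max_eq_right h6.le]
    exact e5 b f3 (f4.trans e2) h7
  · rw [heq] at hw; exact absurd hw (not_lt.mpr hy.le)
  · have h3 : ξ' ≤ w := by
      by_contra h; push Not at h
      exact e5 w (e1.trans hgt) h hg'w
    have h4 : g • ξ' ≠ ξ' := hmv ξ' (hy1.trans e2) (h3.trans_lt h2)
    have h5 : g • ξ' < ξ' := by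
      refine lt_of_le_of_ne ?_ h4
      rw [hg'] at e4; exact max_eq_right_iff.mp e4
    obtain ⟨q, hq⟩ := exists_gt ξ'
    obtain ⟨a, b, f1, f2, f3, f4, f5⟩ := hN.displace h4 e2 hq
    have h6 : g • a < a := by
      rcases f5 with f5 | f5
      · exact (hN.mono g (f2.trans f3)).trans f5
      · exact absurd ((f5.trans (hN.mono g f2)).trans h5) (not_lt.mpr f3.le)
    have h7 : g' • a = a := by rw [hg', max_eq_right h6.le]
    exact e5 a (e1.trans f1) f2 h7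

/-- P4 -/
theorem TP.pointwise_of_one_le (hN : Nice G Ω) (hS : SupC G Ω) (hP : TP G Ω)
    (hup : ∀ (x : G) (η ξ : Ω), BumpUp x η ξ → 1 ≤ x) {g : G} (hg : 1 ≤ g) (w : Ω) :
    w ≤ g • w := by
  by_contra hc
  push Not at hc
  obtain ⟨η, ξ, e1, e2, e3, e4, e5⟩ := hN.ends g w hc.ne
  have hdown := sign_const hN hS e1 e2 e5 hc
  obtain ⟨gJ, h1, h2, h3⟩ := hN.restrict (e1.trans e2).le e3 e4
  have hsupp : Supp gJ η ξ := by
    intro x hx
    rcases hx with hx | hx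
    · exact h1 x hx.le
    · exact h3 x hx.le
  have hb : BumpUp gJ⁻¹ η ξ := by
    refine ⟨e1.trans e2, hsupp.inv, ?_⟩
    intro y hy1 hy2
    have hz := hsupp.inv.maps hN hy1.le hy2.le
    have hz1 : η < gJ⁻¹ • y := by
      rcases hz.1.lt_or_eq with h | h
      · exact h
      · exfalso
        have : gJ • η = y := by rw [h]; simp
        rw [h1 η le_rfl] at this
        exact hy1.ne this
    have hz2 : gJ⁻¹ • y < ξ := by
      rcases hz.2.lt_or_eq with h | h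
      · exact h
      · exfalso
        have : gJ • ξ = y := by rw [← h]; simp
        rw [h3 ξ le_rfl] at this
        exact hy2.ne' this
    have h4 := hdown _ hz1 hz2
    rw [← h2 _ hz1.le hz2.le, smul_inv_smul] at h4
    exact h4
  have hb1 := hup _ _ _ hb
  have hm : gJ⁻¹ ≤ gJ⁻¹ * g := le_mul_of_one_le_right' hg
  have hmfix : ∀ y, η < y → y < ξ → (gJ⁻¹ * g) • y = y := by
    intro y hy1 hy2
    rw [mul_smul, ← h2 y hy1.le hy2.le, inv_smul_smul]
  have h6 := TP.fix_of_le hN hP hb1 hm hmfix w e1 e2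
  exact (hb.2.2 w e1 e2).ne' h6

theorem TP.pointwise (hN : Nice G Ω) (hS : SupC G Ω) (hP : TP G Ω)
    (hup : ∀ (x : G) (η ξ : Ω), BumpUp x η ξ → 1 ≤ x) (g : G) :
    1 ≤ g ↔ ∀ w : Ω, w ≤ g • w := by
  constructor
  · intro hg w
    exact TP.pointwise_of_one_le hN hS hP hup hg w
  · intro hg
    by_contra hc
    have h2 : g⁻ᵐ ≠ 1 := fun h => hc (leOnePart_eq_one.mp h)
    obtain ⟨w, hw⟩ := hN.exists_moved h2
    have h3 : w < g⁻ᵐ • w :=
      lt_of_le_of_ne (TP.pointwise_of_one_le hN hS hP hup (one_le_leOnePart g) w) hw.symm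
    have h4 : g⁺ᵐ • w = w := TP.disjoint_moved hN hP (one_le_leOnePart g) (one_le_oneLePart g)
      (by rw [inf_comm]; exact oneLePart_inf_leOnePart_eq_one g) hw
    have h5 : g • (g⁻ᵐ • w) = w := by
      have : g • (g⁻ᵐ • w) = (g⁺ᵐ * (g⁻ᵐ)⁻¹) • (g⁻ᵐ • w) := by rw [← pos_mul_neg]
      rw [this, mul_smul, inv_smul_smul, h4]
    have h6 := hg (g⁻ᵐ • w)
    rw [h5] at h6
    exact absurd h3 (not_lt.mpr h6)

end Lat

end Pool.Agent.Lib.MP_aba4aa_al
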