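import Pool.Agent.Lib.MP_aba4aa_al.PL2

/-!
Classification of lattice orders on groups satisfying the axioms, at the level of relations.
-/

set_option autoImplicit false
set_option linter.unusedSectionVars false

namespace Pool.Agent.Lib.MP_aba4aa_al

section Rel

variable {G : Type*} [Group G]

theorem IsLO.refl {r : G → G → Prop} (h : IsLO G r) (a : G) : r a a := h.1 a

theorem IsLO.trans {r : G → G → Prop} (h : IsLO G r) {a b c : G} (h1 : r a b) (h2 : r b c) :
    r a c := h.2.1 a b c h1 h2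

theorem IsLO.antisymm {r : G → G → Prop} (h : IsLO G r) {a b : G} (h1 : r a b) (h2 : r b a) :
    a = b := h.2.2.1 a b h1 h2

theorem IsLO.inv {r : G → G → Prop} (h : IsLO G r) {a b : G} (c d : G) (h1 : r a b) :
    r (c * a * d) (c * b * d) := h.2.2.2.1 a b c d h1

theorem IsLO.mul_left {r : G → G → Prop} (h : IsLO G r) {a b : G} (c : G) (h1 : r a b) :
    r (c * a) (c * b) := by
  have := h.inv c 1 h1; simpa using this

theorem IsLO.mul_right {r : G → G → Prop} (h : IsLO G r) {a b : G} (c : G) (h1 : r a b) :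
    r (a * c) (b * c) := by
  have := h.inv 1 c h1; simpa using this

theorem IsLO.iff_one {r : G → G → Prop} (h : IsLO G r) (a b : G) : r a b ↔ r 1 (a⁻¹ * b) := by
  constructor
  · intro h1
    have := h.mul_left a⁻¹ h1; simpa using this
  · intro h1
    have := h.mul_left a h1; simpa using this

theorem IsLO.inv_one {r : G → G → Prop} (h : IsLO G r) {a : G} (h1 : r a 1) : r 1 a⁻¹ := by
  have := h.mul_left a⁻¹ h1; simpa using this

theorem IsLO.inv_one' {r : G → G → Prop} (h : IsLO G r) {a : G} (h1 : r 1 a) : r a⁻¹ 1 := by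
  have := h.mul_left a⁻¹ h1; simpa using this

theorem IsLO.mul_one {r : G → G → Prop} (h : IsLO G r) {a b : G} (h1 : r 1 a) (h2 : r 1 b) :
    r 1 (a * b) := by
  refine h.trans h1 ?_
  have := h.mul_left a h2; simpa using this

theorem IsLO.conj_one {r : G → G → Prop} (h : IsLO G r) {a : G} (k : G) (h1 : r 1 a) :
    r 1 (k * a * k⁻¹) := by
  have := h.inv k k⁻¹ h1; simpa using this

/-- meets follow from joins -/
theorem isLO_of {r : G → G → Prop} (h1 : ∀ a, r a a) (h2 : ∀ a b c, r a b → r b c → r a c)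
    (h3 : ∀ a b, r a b → r b a → a = b) (h4 : ∀ a b c d, r a b → r (c * a * d) (c * b * d))
    (h5 : ∀ a b, ∃ s, r a s ∧ r b s ∧ ∀ u, r a u → r b u → r s u) : IsLO G r := by
  refine ⟨h1, h2, h3, h4, h5, ?_⟩
  have hinv : ∀ a b, r a b → r b⁻¹ a⁻¹ := by
    intro a b h
    have := h4 a b b⁻¹ a⁻¹ h
    simpa using this
  intro a b
  obtain ⟨s, hs1, hs2, hs3⟩ := h5 a⁻¹ b⁻¹
  refine ⟨s⁻¹, ?_, ?_, ?_⟩
  · have := hinv _ _ hs1; simpa using this
  · have := hinv _ _ hs2; simpa using this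
  · intro u hu1 hu2
    have := hinv _ _ (hs3 u⁻¹ (hinv _ _ hu1) (hinv _ _ hu2))
    simpa using this

/-- total orders are lattice orders -/
theorem isLO_of_total {r : G → G → Prop} (h1 : ∀ a, r a a) (h2 : ∀ a b c, r a b → r b c → r a c)
    (h3 : ∀ a b, r a b → r b a → a = b) (h4 : ∀ a b c d, r a b → r (c * a * d) (c * b * d))
    (h5 : ∀ a b, r a b ∨ r b a) : IsLO G r := by
  refine isLO_of h1 h2 h3 h4 ?_
  intro a b
  rcases h5 a b with h | h
  · exact ⟨b, h, h1 b, fun u _ hu => hu⟩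
  · exact ⟨a, h1 a, h, fun u hu _ => hu⟩

theorem IsLO.rev {r : G → G → Prop} (h : IsLO G r) : IsLO G (fun a b => r b a) := by
  obtain ⟨h1, h2, h3, h4, h5, h6⟩ := h
  exact ⟨h1, fun a b c hab hbc => h2 c b a hbc hab, fun a b hab hba => h3 a b hba hab,
    fun a b c d hab => h4 b a c d hab, h6, h5⟩

/-- the lattice structure of a lattice order -/
@[reducible]
noncomputable def latticeOf {r : G → G → Prop} (h : IsLO G r) : Lattice G where
  le := r
  lt a b := r a b ∧ ¬ r b a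
  le_refl := h.1
  le_trans := h.2.1
  lt_iff_le_not_ge _ _ := Iff.rfl
  le_antisymm := h.2.2.1
  sup a b := Classical.choose (h.2.2.2.2.1 a b)
  inf a b := Classical.choose (h.2.2.2.2.2 a b)
  le_sup_left a b := (Classical.choose_spec (h.2.2.2.2.1 a b)).1
  le_sup_right a b := (Classical.choose_spec (h.2.2.2.2.1 a b)).2.1
  sup_le a b c hac hbc := (Classical.choose_spec (h.2.2.2.2.1 a b)).2.2 c hac hbc
  inf_le_left a b := (Classical.choose_spec (h.2.2.2.2.2 a b)).1
  inf_le_right a b := (Classical.choose_spec (h.2.2.2.2.2 a b)).2.1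
  le_inf a b c hab hac := (Classical.choose_spec (h.2.2.2.2.2 b c)).2.2 a hab hac

end Rel

section Classify

variable {G Ω : Type*} [Group G] [LinearOrder Ω] [MulAction G Ω] [DenselyOrdered Ω]
  [NoMinOrder Ω] [NoMaxOrder Ω]

theorem exists_bumpUp [Nonempty Ω] (hN : Nice G Ω) (hS : SupC G Ω) :
    ∃ (x : G) (η ξ : Ω), BumpUp x η ξ := by
  obtain ⟨w⟩ := ‹Nonempty Ω›
  obtain ⟨a, ha⟩ := exists_lt w
  obtain ⟨b, hb⟩ := exists_gt w
  obtain ⟨k, hk, hkw⟩ := hN.exists_move ha hb
  have h1 : k⁻¹ • w < w := by rw [← hN.lt_iff k]; simpa using hkw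
  obtain ⟨η, ξ, e1, e2, e3, e4, e5⟩ := hN.ends k⁻¹ w h1.ne
  have hdown := sign_const hN hS e1 e2 e5 h1
  obtain ⟨gJ, f1, f2, f3⟩ := hN.restrict (g := k) (e1.trans e2).le (inv_fix_iff.mp e3)
    (inv_fix_iff.mp e4)
  refine ⟨gJ, η, ξ, e1.trans e2, ?_, ?_⟩
  · intro x hx
    rcases hx with hx | hx
    · exact f1 x hx.le
    · exact f3 x hx.le
  · intro y hy1 hy2
    rw [f2 y hy1.le hy2.le]
    have h2 := hN.mono k (hdown y hy1 hy2)
    rwa [smul_inv_smul] at h2

theorem chain_classify [Nonempty Ω] [Lattice G] [MulLeftMono G] [MulRightMono G] (hN : Nice G Ω)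
    (hS : SupC G Ω) (hA : Alt G Ω) :
    (∀ g : G, 1 ≤ g ↔ ∀ w : Ω, w ≤ g • w) ∨ TR G Ω ∨
      (TP G Ω ∧ ∀ (x : G) (η ξ : Ω), BumpUp x η ξ → x ≤ 1) := by
  rcases trichotomy (G := G) (Ω := Ω) hN with h | h | h
  · rcases TP.bump_all hN h with h1 | h1
    · exact Or.inl (fun g => TP.pointwise hN hS h h1 g)
    · exact Or.inr (Or.inr ⟨h, h1⟩)
  · exact Or.inr (Or.inl h)
  · exact (TL.false hN hA h).elim

/-- right dominant total orders, as relations -/
def RT (G Ω : Type*) [Group G] [LinearOrder Ω] [MulAction G Ω] (r : G → G → Prop) : Prop :=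
  (∀ a b, r a b ∨ r b a) ∧ ∀ (f u : G) (c w : Ω), r 1 f → c < w → f • w ≠ w →
    InI (Set.Iio c) u → r 1 u → r u f

theorem classify_rel_aux [Nonempty Ω] (hN : Nice G Ω) (hS : SupC G Ω) (hA : Alt G Ω)
    {r : G → G → Prop} (h : IsLO G r) :
    (∀ a b : G, r a b ↔ ∀ w : Ω, a • w ≤ b • w) ∨ RT G Ω r ∨
      (¬ (∀ a b : G, r a b ∨ r b a) ∧ ∀ (x : G) (η ξ : Ω), BumpUp x η ξ → r x 1) := by
  let _ : Lattice G := latticeOf h
  have e1 : MulLeftMono G := ⟨fun c a b hab => h.mul_left c hab⟩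
  have e2 : MulRightMono G := ⟨fun c a b hab => h.mul_right c hab⟩
  have hle : ∀ a b : G, a ≤ b ↔ r a b := fun a b => Iff.rfl
  rcases chain_classify (G := G) (Ω := Ω) hN hS hA with h1 | h1 | h1
  · left
    intro a b
    rw [h.iff_one, ← hle, h1]
    constructor
    · intro h2 w
      have := (hN.le_iff a).mpr (h2 w)
      rwa [mul_smul, smul_inv_smul] at this
    · intro h2 w
      rw [← hN.le_iff a, mul_smul, smul_inv_smul]
      exact h2 w
  · right; left
    constructor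
    · intro a b
      rcases TR.total hN h1 (a⁻¹ * b) with h2 | h2
      · left
        rw [h.iff_one]; exact h2
      · right
        have h3 : r (a⁻¹ * b) 1 := h2
        have := h.mul_left a h3; simpa using this
    · intro f u c w hf hcw hw hu hu1
      exact TR.le_of_moves hN h1 hu hu1 hf hcw hw
  · right; right
    refine ⟨?_, h1.2⟩
    intro htot
    obtain ⟨c⟩ := ‹Nonempty Ω›
    obtain ⟨x, hx, hx1⟩ := exists_ne_one_Iio (G := G) hN c
    obtain ⟨y, hy, hy1⟩ := exists_ne_one_Ioi (G := G) hN c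
    have h2 := h1.1 c x y hx hy
    rcases htot |x|ₘ |y|ₘ with h3 | h3
    · exact hx1 (h2.eq_one_of_le h3)
    · exact hy1 (h2.eq_one_of_le' h3)

theorem classify_rel [Nonempty Ω] (hN : Nice G Ω) (hS : SupC G Ω) (hA : Alt G Ω)
    {r : G → G → Prop} (h : IsLO G r) :
    (r = fun a b => ∀ w : Ω, a • w ≤ b • w) ∨ (r = fun a b => ∀ w : Ω, b • w ≤ a • w) ∨
      RT G Ω r := by
  rcases classify_rel_aux hN hS hA h with h1 | h1 | h1
  · left
    funext a b
    exact propext (h1 a b)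
  · exact Or.inr (Or.inr h1)
  · right; left
    rcases classify_rel_aux hN hS hA h.rev with h2 | h2 | h2
    · funext a b
      exact propext (h2 b a)
    · exact (h1.1 (fun a b => (h2.1 b a))).elim
    · exfalso
      obtain ⟨x, η, ξ, hx⟩ := exists_bumpUp (G := G) hN hS
      have h3 : x = 1 := h.antisymm (h1.2 x η ξ hx) (h2.2 x η ξ hx)
      obtain ⟨y, hy1, hy2⟩ := exists_between hx.1
      have h4 := hx.2.2 y hy1 hy2
      rw [h3, one_smul] at h4
      exact lt_irrefl _ h4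

/-- the pointwise order is a lattice order -/
theorem ptw_isLO (hN : Nice G Ω) (hS : SupC G Ω) :
    IsLO G (fun a b => ∀ w : Ω, a • w ≤ b • w) := by
  refine isLO_of (fun a w => le_rfl) (fun a b c h1 h2 w => (h1 w).trans (h2 w)) ?_ ?_ ?_
  · intro a b h1 h2
    have h3 : b⁻¹ * a = 1 := by
      apply hN.faithful
      intro x
      rw [mul_smul, le_antisymm (h1 x) (h2 x), inv_smul_smul]
    exact (inv_mul_eq_one.mp h3).symm
  · intro a b c d h w
    rw [mul_smul, mul_smul, mul_smul, mul_smul, hN.le_iff]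
    exact h _
  · intro a b
    obtain ⟨g, hg⟩ := hS (a⁻¹ * b)
    have hs : ∀ w : Ω, (a * g) • w = max (b • w) (a • w) := by
      intro w
      rw [mul_smul, hg]
      rcases le_total ((a⁻¹ * b) • w) w with h1 | h1
      · rw [max_eq_right h1, max_eq_right]
        have := (hN.le_iff a).mpr h1
        rwa [mul_smul, smul_inv_smul] at this
      · rw [max_eq_left h1, mul_smul, smul_inv_smul, max_eq_left]
        have := (hN.le_iff a).mpr h1
        rwa [mul_smul, smul_inv_smul] at this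
    refine ⟨a * g, fun w => ?_, fun w => ?_, fun u h1 h2 w => ?_⟩
    · rw [hs]; exact le_max_right _ _
    · rw [hs]; exact le_max_left _ _
    · rw [hs]; exact max_le (h2 w) (h1 w)

theorem ptw_not_total [Nonempty Ω] (hN : Nice G Ω) :
    ∃ a : G, ¬ (∀ w : Ω, a • w ≤ (1 : G) • w) ∧ ¬ (∀ w : Ω, (1 : G) • w ≤ a • w) := by
  obtain ⟨c⟩ := ‹Nonempty Ω›
  obtain ⟨w₁, hw₁⟩ := exists_lt c
  obtain ⟨w₂, hw₂⟩ := exists_gt c
  obtain ⟨p, hp⟩ := exists_lt w₁
  obtain ⟨q, hq⟩ := exists_gt w₂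
  obtain ⟨x, hx, hx1⟩ := hN.exists_move hp hw₁
  obtain ⟨y, hy, hy1⟩ := hN.exists_move hw₂ hq
  refine ⟨x * y⁻¹, ?_, ?_⟩
  · intro h
    have h1 := h w₁
    rw [one_smul, mul_smul, hy.inv.fixL hN hw₁.le] at h1
    exact absurd hx1 (not_lt.mpr h1)
  · intro h
    have h1 := h (y • w₂)
    rw [one_smul, mul_smul, inv_smul_smul, hx.fixR hN hw₂.le] at h1
    exact absurd hy1 (not_lt.mpr h1)

end Classify

end Pool.Agent.Lib.MP_aba4aa_al
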