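import Pool.Agent.Lib.MP_aba4aa_al.Classify

/-!
Germs at the right end of the support, and the orders of `W` coming from total orders of `Γ`.
-/

set_option autoImplicit false
set_option linter.unusedSectionVars false
set_option linter.unusedVariables false

namespace Pool.Agent.Lib.MP_aba4aa_al

section Basic

variable {Γ Ω : Type*} [Group Γ] [AddCommGroup Ω] [LinearOrder Ω] [IsOrderedAddMonoid Ω]
  [DistribMulAction Γ Ω]

/-- `f` is the identity on `[ξ,∞)` and has slope `γ` to the left of `ξ` -/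
def Germ (f : WW Γ Ω) (ξ : Ω) (γ : Γ) : Prop :=
  (∀ x, ξ ≤ x → f • x = x) ∧ ∃ y, y < ξ ∧ ∀ w, y ≤ w → w ≤ ξ → f • w = ξ + γ • (w - ξ)

theorem Germ.moves (hA : GoodAct Γ Ω) {f : WW Γ Ω} {ξ : Ω} {γ : Γ} (h : Germ f ξ γ)
    (hγ : γ ≠ 1) {c : Ω} (hc : c < ξ) : ∃ w, c < w ∧ w < ξ ∧ f • w ≠ w := by
  have := hA.dense
  obtain ⟨_, y, hy, hyw⟩ := h
  obtain ⟨w, hw1, hw2⟩ := exists_between (max_lt hc hy)
  refine ⟨w, (le_max_left _ _).trans_lt hw1, hw2, ?_⟩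
  intro h1
  rw [hyw w ((le_max_right _ _).trans hw1.le) hw2.le] at h1
  have h2 : γ • (w - ξ) = w - ξ := by
    rw [eq_sub_iff_add_eq, add_comm]; exact h1
  exact hγ (hA.fix h2 (sub_ne_zero.mpr hw2.ne))

theorem Germ.unique (hA : GoodAct Γ Ω) {f : WW Γ Ω} {ξ ξ' : Ω} {γ γ' : Γ} (h : Germ f ξ γ)
    (h' : Germ f ξ' γ') (hγ : γ ≠ 1) (hγ' : γ' ≠ 1) : ξ = ξ' ∧ γ = γ' := by
  have := hA.dense
  have h1 : ξ = ξ' := by
    rcases lt_trichotomy ξ ξ' with hlt | heq | hgt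
    · obtain ⟨w, hw1, _, hw3⟩ := h'.moves hA hγ' hlt
      exact (hw3 (h.1 w hw1.le)).elim
    · exact heq
    · obtain ⟨w, hw1, _, hw3⟩ := h.moves hA hγ hgt
      exact (hw3 (h'.1 w hw1.le)).elim
  subst h1
  refine ⟨rfl, ?_⟩
  obtain ⟨_, y, hy, hyw⟩ := h
  obtain ⟨_, y', hy', hyw'⟩ := h'
  obtain ⟨w, hw1, hw2⟩ := exists_between (max_lt hy hy')
  have e1 := hyw w ((le_max_left _ _).trans hw1.le) hw2.le
  have e2 := hyw' w ((le_max_right _ _).trans hw1.le) hw2.le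
  have e3 : γ • (w - ξ) = γ' • (w - ξ) := add_left_cancel (e1.symm.trans e2)
  have e4 : (γ'⁻¹ * γ) • (w - ξ) = w - ξ := by
    rw [mul_smul, e3, inv_smul_smul]
  have e5 := hA.fix e4 (sub_ne_zero.mpr hw2.ne)
  exact (inv_mul_eq_one.mp e5).symm

theorem Germ.mul (hA : GoodAct Γ Ω) {f g : WW Γ Ω} {ξ : Ω} {γ δ : Γ} (h : Germ f ξ γ)
    (h' : Germ g ξ δ) : Germ (f * g) ξ (γ * δ) := by
  obtain ⟨h1, y, hy, hyw⟩ := h
  obtain ⟨h1', y', hy', hyw'⟩ := h'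
  refine ⟨fun x hx => by rw [mul_smul, h1' x hx, h1 x hx], max y' (g⁻¹ • y), ?_, ?_⟩
  · apply max_lt hy'
    rw [← W_lt_iff g, smul_inv_smul, h1' ξ le_rfl]; exact hy
  · intro w hw1 hw2
    have e1 := hyw' w ((le_max_left _ _).trans hw1) hw2
    have e2 : y ≤ g • w := by
      have := (W_le_iff g).mpr ((le_max_right _ _).trans hw1)
      rwa [smul_inv_smul] at this
    have e3 : g • w ≤ ξ := by
      have := (W_le_iff g).mpr hw2
      rwa [h1' ξ le_rfl] at this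
    rw [mul_smul, hyw _ e2 e3, e1, mul_smul]
    simp

theorem Germ.inv (hA : GoodAct Γ Ω) {f : WW Γ Ω} {ξ : Ω} {γ : Γ} (h : Germ f ξ γ) :
    Germ f⁻¹ ξ γ⁻¹ := by
  obtain ⟨h1, y, hy, hyw⟩ := h
  have hinv : ∀ x, ξ ≤ x → f⁻¹ • x = x := fun x hx => inv_fix (h1 x hx)
  refine ⟨hinv, f • y, ?_, ?_⟩
  · have := W_mono f hy
    rwa [h1 ξ le_rfl] at this
  · intro w hw1 hw2
    have e1 : y ≤ f⁻¹ • w := by
      rw [← W_le_iff f, smul_inv_smul]; exact hw1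
    have e2 : f⁻¹ • w ≤ ξ := by
      rw [← W_le_iff f, smul_inv_smul, h1 ξ le_rfl]; exact hw2
    have e3 := hyw _ e1 e2
    rw [smul_inv_smul] at e3
    have e4 : w - ξ = γ • (f⁻¹ • w - ξ) := by
      rw [sub_eq_iff_eq_add, add_comm]; exact e3
    rw [e4, inv_smul_smul]; abel

theorem Germ.lower {f : WW Γ Ω} {ξ ξ' : Ω} {γ : Γ} (h : Germ f ξ' γ) (hlt : ξ' < ξ) :
    Germ f ξ 1 := by
  refine ⟨fun x hx => h.1 x (hlt.le.trans hx), ξ', hlt, ?_⟩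
  intro w hw1 _
  rw [h.1 w hw1, one_smul]; abel

theorem W_slope (hA : GoodAct Γ Ω) (k : WW Γ Ω) (ξ : Ω) :
    ∃ (δ : Γ) (y : Ω), y < ξ ∧ ∀ w, y ≤ w → w ≤ ξ → k • w = k • ξ + δ • (w - ξ) := by
  have := hA.dense
  have := hA.nontrivial
  have hL : IsCut (Set.Iio ξ) := by
    refine ⟨fun x y hxy hy => hxy.trans_lt hy, exists_lt ξ, ⟨ξ, lt_irrefl ξ⟩, ?_⟩
    intro y hy
    obtain ⟨y', h1, h2⟩ := exists_between (show y < ξ from hy)
    exact ⟨y', h2, h1⟩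
  obtain ⟨y, hy, z, hz, γ, c, haff⟩ := W_loc k _ hL
  have hz' : ξ ≤ z := not_lt.mp hz
  have hy' : y < ξ := hy
  refine ⟨γ, y, hy', ?_⟩
  intro w hw1 hw2
  have e1 : k • w = γ • w + c := haff w hw1 (hw2.trans hz')
  have e2 : k • ξ = γ • ξ + c := haff ξ hy'.le hz'
  rw [e1, e2, smul_sub]; abel

theorem Germ.conj (hA : GoodAct Γ Ω) {f : WW Γ Ω} {ξ : Ω} {γ : Γ} (h : Germ f ξ γ)
    {k : WW Γ Ω} {δ : Γ} {y₀ : Ω} (hy₀ : y₀ < ξ)
    (hk : ∀ w, y₀ ≤ w → w ≤ ξ → k • w = k • ξ + δ • (w - ξ)) :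
    Germ (k * f * k⁻¹) (k • ξ) (δ * γ * δ⁻¹) := by
  obtain ⟨h1, y, hy, hyw⟩ := h
  constructor
  · intro x hx
    have e1 : ξ ≤ k⁻¹ • x := by rw [← W_le_iff k, smul_inv_smul]; exact hx
    rw [mul_smul, mul_smul, h1 _ e1, smul_inv_smul]
  · -- the point
    set y₁ := max y₀ (max y (f⁻¹ • y₀)) with hy₁
    have hfy₀ : f⁻¹ • y₀ < ξ := by
      rw [← W_lt_iff f, smul_inv_smul, h1 ξ le_rfl]; exact hy₀
    have hy₁ξ : y₁ < ξ := max_lt hy₀ (max_lt hy hfy₀)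
    refine ⟨k • y₁, W_mono k hy₁ξ, ?_⟩
    intro w hw1 hw2
    set v := k⁻¹ • w with hv
    have hvw : k • v = w := by rw [hv, smul_inv_smul]
    have e1 : y₁ ≤ v := by rw [← W_le_iff k, hvw]; exact hw1
    have e2 : v ≤ ξ := by rw [← W_le_iff k, hvw]; exact hw2
    have e3 : y₀ ≤ v := (le_max_left _ _).trans e1
    have e4 : y ≤ v := (le_max_left _ _).trans ((le_max_right _ _).trans e1)
    have e5 : f⁻¹ • y₀ ≤ v := (le_max_right _ _).trans ((le_max_right _ _).trans e1)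
    have e6 : y₀ ≤ f • v := by
      have := (W_le_iff f).mpr e5
      rwa [smul_inv_smul] at this
    have e7 : f • v ≤ ξ := by
      have := (W_le_iff f).mpr e2
      rwa [h1 ξ le_rfl] at this
    have e8 : w - k • ξ = δ • (v - ξ) := by
      rw [← hvw, hk v e3 e2]; abel
    rw [mul_smul, mul_smul, ← hv, hk _ e6 e7, hyw v e4 e2, e8, mul_smul, mul_smul, inv_smul_smul]
    simp

theorem Germ.conj_any (hA : GoodAct Γ Ω) {f : WW Γ Ω} {ξ : Ω} {γ : Γ} (h : Germ f ξ γ)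
    (k : WW Γ Ω) : ∃ δ : Γ, Germ (k * f * k⁻¹) (k • ξ) (δ * γ * δ⁻¹) := by
  obtain ⟨δ, y₀, hy₀, hk⟩ := W_slope hA k ξ
  exact ⟨δ, h.conj hA hy₀ hk⟩

/-- existence of elements with given germ -/
theorem exists_germ (hA : GoodAct Γ Ω) (ξ : Ω) (γ : Γ) : ∃ f : WW Γ Ω, Germ f ξ γ := by
  have := hA.dense
  have := hA.nontrivial
  obtain ⟨p, hp⟩ := exists_lt ξ
  obtain ⟨q, hq⟩ := exists_gt ξ
  have hval : ∀ w, affIso hA γ (ξ - γ • ξ) w = ξ + γ • (w - ξ) := by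
    intro w; rw [affIso_apply, smul_sub]; abel
  have hγ : ξ + γ⁻¹ • (p - ξ) < ξ := by
    have h1 := hA.pos γ⁻¹ (ξ - p) (sub_pos.mpr hp)
    have h2 : γ⁻¹ • (p - ξ) = -(γ⁻¹ • (ξ - p)) := by rw [← smul_neg]; congr 1; abel
    rw [h2]
    calc ξ + -(γ⁻¹ • (ξ - p)) = ξ - γ⁻¹ • (ξ - p) := by abel
      _ < ξ := sub_lt_self ξ h1
  obtain ⟨y, hy1, hy2⟩ := exists_between (max_lt hp hγ)
  have hpy : p < y := (le_max_left _ _).trans_lt hy1
  have hpy' : p < affIso hA γ (ξ - γ • ξ) y := by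
    rw [hval]
    have h3 : γ⁻¹ • (p - ξ) < y - ξ := by
      have := (le_max_right _ _).trans_lt hy1
      rwa [lt_sub_iff_add_lt, add_comm]
    have h4 := hA.lt γ h3
    rw [smul_inv_smul] at h4
    rwa [sub_lt_iff_lt_add, add_comm] at h4
  have hξfix : affIso hA γ (ξ - γ • ξ) ξ = ξ := by rw [hval]; simp
  obtain ⟨g, hg, hgv⟩ := W_extend hA (Loc.aff hA γ (ξ - γ • ξ)) hy2.le hpy hpy' hq
    (by rw [hξfix]; exact hq)
  have hgξ : g • ξ = ξ := by rw [hgv ξ hy2.le le_rfl, hξfix]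
  obtain ⟨f, hf1, hf2⟩ := W_cut g ξ hgξ
  refine ⟨f, hf2, y, hy2, ?_⟩
  intro w hw1 hw2
  rw [hf1 w hw2, hgv w hw1 hw2, hval]

/-- transport of the point, with slope one -/
theorem exists_translate (hA : GoodAct Γ Ω) (ξ ξ' : Ω) : ∃ (k : WW Γ Ω) (y : Ω), y < ξ ∧
    k • ξ = ξ' ∧ ∀ w, y ≤ w → w ≤ ξ → k • w = k • ξ + (1 : Γ) • (w - ξ) := by
  have := hA.dense
  have := hA.nontrivial
  have hval : ∀ w, affIso hA (1 : Γ) (ξ' - ξ) w = ξ' + (w - ξ) := by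
    intro w; rw [affIso_apply, one_smul]; abel
  obtain ⟨y, hy⟩ := exists_lt ξ
  obtain ⟨p, hp⟩ := exists_lt (min y (ξ' + (y - ξ)))
  obtain ⟨q, hq⟩ := exists_gt (max ξ ξ')
  obtain ⟨k, _, hkv⟩ := W_extend hA (Loc.aff hA (1 : Γ) (ξ' - ξ)) hy.le
    (hp.trans_le (min_le_left _ _)) (by rw [hval]; exact hp.trans_le (min_le_right _ _))
    ((le_max_left _ _).trans_lt hq) (by rw [hval]; simpa using (le_max_right _ _).trans_lt hq)
  have hkξ : k • ξ = ξ' := by rw [hkv ξ hy.le le_rfl, hval]; simp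
  refine ⟨k, y, hy, hkξ, ?_⟩
  intro w hw1 hw2
  rw [hkv w hw1 hw2, hval, hkξ, one_smul]

/-- every non-trivial element has a germ -/
theorem exists_germ_of_ne (hA : GoodAct Γ Ω) {f : WW Γ Ω} (hf : f ≠ 1) :
    ∃ (ξ : Ω) (γ : Γ), γ ≠ 1 ∧ Germ f ξ γ := by
  have := hA.dense
  have := hA.nontrivial
  have hN := W_nice hA
  obtain ⟨w₀, hw₀⟩ := hN.exists_moved hf
  obtain ⟨_, a, b, hab⟩ := f.2
  have hfa : ∀ x, (x < a ∨ b < x) → f • x = x := hab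
  set L : Set Ω := {y | ∃ w, y ≤ w ∧ f • w ≠ w} with hLdef
  have hL : IsCut L := by
    refine ⟨?_, ⟨w₀, w₀, le_rfl, hw₀⟩, ?_, ?_⟩
    · rintro x y hxy ⟨w, h1, h2⟩
      exact ⟨w, hxy.trans h1, h2⟩
    · obtain ⟨q, hq⟩ := exists_gt b
      refine ⟨q, ?_⟩
      rintro ⟨w, h1, h2⟩
      exact h2 (hfa w (Or.inr (hq.trans_le h1)))
    · rintro y ⟨w, h1, h2⟩
      obtain ⟨η, ξ, e1, e2, _, _, e5⟩ := hN.ends f w h2
      obtain ⟨w', h3, h4⟩ := exists_between e2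
      exact ⟨w', ⟨w', le_rfl, e5 w' (e1.trans h3) h4⟩, h1.trans_lt h3⟩
  obtain ⟨y, hy, z, hz, γ, c, haff⟩ := W_loc f _ hL
  have hzfix : ∀ v, z ≤ v → f • v = v := by
    intro v hv
    by_contra hc
    exact hz ⟨v, hv, hc⟩
  have haff' : ∀ w, y ≤ w → w ≤ z → f • w = γ • w + c := haff
  have hyz : y < z := hL.lt hy hz
  have hform : ∀ w, y ≤ w → w ≤ z → f • w = z + γ • (w - z) := by
    intro w h1 h2
    have e1 := haff' z hyz.le le_rfl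
    rw [hzfix z le_rfl] at e1
    rw [haff' w h1 h2, smul_sub]
    have e2 : c = z - γ • z := by
      conv_rhs => rw [e1]
      rw [smul_add]
      have e3 : γ • z + c = z := e1.symm
      calc c = (γ • z + c) - γ • z := by abel
        _ = γ • z + c - (γ • (γ • z) + γ • c) := by
          rw [← smul_add, e3]
    rw [e2]; abel
  refine ⟨z, γ, ?_, hzfix, y, hyz, hform⟩
  rintro rfl
  obtain ⟨w, h1, h2⟩ := hy
  have hwz : w < z := by
    by_contra hc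
    push Not at hc
    exact h2 (hzfix w hc)
  have h3 := hform w h1 hwz.le
  rw [one_smul] at h3
  exact h2 (by rw [h3]; abel)

theorem germ_one (hA : GoodAct Γ Ω) {ξ : Ω} {γ : Γ} (h : Germ (1 : WW Γ Ω) ξ γ) : γ = 1 := by
  by_contra hγ
  have := hA.nontrivial
  obtain ⟨c, hc⟩ := exists_lt ξ
  obtain ⟨w, _, _, hw⟩ := h.moves hA hγ hc
  exact hw (one_smul _ w)

/-- the positive cone on `W` of a total order of `Γ` -/
def Pos (ρ : Γ → Γ → Prop) (f : WW Γ Ω) : Prop :=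
  f = 1 ∨ ∃ (ξ : Ω) (γ : Γ), γ ≠ 1 ∧ ρ 1 γ ∧ Germ f ξ γ

/-- the order on `W` of a total order of `Γ` -/
def Ord (Ω : Type*) [AddCommGroup Ω] [LinearOrder Ω] [IsOrderedAddMonoid Ω]
    [DistribMulAction Γ Ω] (ρ : Γ → Γ → Prop) (a b : WW Γ Ω) : Prop := Pos ρ (a⁻¹ * b)

theorem Pos.mul (hA : GoodAct Γ Ω) {ρ : Γ → Γ → Prop} (hρ : IsLO Γ ρ) {f g : WW Γ Ω}
    (hf : Pos ρ f) (hg : Pos ρ g) : Pos ρ (f * g) := by
  rcases hf with rfl | ⟨ξ, γ, hγ, h1, hf⟩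
  · rwa [one_mul]
  rcases hg with rfl | ⟨ξ', γ', hγ', h1', hg⟩
  · rw [_root_.mul_one]; exact Or.inr ⟨ξ, γ, hγ, h1, hf⟩
  right
  rcases lt_trichotomy ξ ξ' with hlt | heq | hgt
  · have := (hf.lower hlt).mul hA hg
    rw [one_mul] at this
    exact ⟨ξ', γ', hγ', h1', this⟩
  · subst heq
    refine ⟨ξ, γ * γ', ?_, hρ.mul_one h1 h1', hf.mul hA hg⟩
    intro h2
    have h3 : γ⁻¹ = γ' := by
      rw [inv_eq_iff_mul_eq_one]; exact h2
    have h4 : ρ 1 γ⁻¹ := by rw [h3]; exact h1'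
    have h5 : ρ γ 1 := by
      have := hρ.mul_left γ h4; simpa using this
    exact hγ (hρ.antisymm h5 h1)
  · have := hf.mul hA (hg.lower hgt)
    rw [_root_.mul_one] at this
    exact ⟨ξ, γ, hγ, h1, this⟩

theorem Pos.conj (hA : GoodAct Γ Ω) {ρ : Γ → Γ → Prop} (hρ : IsLO Γ ρ) {f : WW Γ Ω}
    (hf : Pos ρ f) (k : WW Γ Ω) : Pos ρ (k * f * k⁻¹) := by
  rcases hf with rfl | ⟨ξ, γ, hγ, h1, hf⟩
  · left; group
  · right
    obtain ⟨δ, h2⟩ := hf.conj_any hA k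
    refine ⟨k • ξ, δ * γ * δ⁻¹, ?_, hρ.conj_one δ h1, h2⟩
    intro h3
    apply hγ
    rw [mul_inv_eq_one] at h3
    exact (mul_eq_left.mp h3)

theorem Pos.antisymm (hA : GoodAct Γ Ω) {ρ : Γ → Γ → Prop} (hρ : IsLO Γ ρ) {f : WW Γ Ω}
    (hf : Pos ρ f) (hf' : Pos ρ f⁻¹) : f = 1 := by
  rcases hf with rfl | ⟨ξ, γ, hγ, h1, hf⟩
  · rfl
  rcases hf' with h2 | ⟨ξ', γ', hγ', h1', hf'⟩
  · exact inv_eq_one.mp h2
  exfalso
  have h2 := (hf.inv hA).unique hA hf' (fun h => hγ (inv_eq_one.mp h)) hγ'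
  have h3 : ρ 1 γ⁻¹ := by rw [h2.2]; exact h1'
  have h5 : ρ γ 1 := by
    have := hρ.mul_left γ h3; simpa using this
  exact hγ (hρ.antisymm h5 h1)

theorem Pos.total (hA : GoodAct Γ Ω) {ρ : Γ → Γ → Prop} (hρ : IsLO Γ ρ)
    (htot : ∀ a b, ρ a b ∨ ρ b a) (f : WW Γ Ω) : Pos ρ f ∨ Pos ρ f⁻¹ := by
  by_cases hf : f = 1
  · exact Or.inl (Or.inl hf)
  · obtain ⟨ξ, γ, hγ, h⟩ := exists_germ_of_ne hA hf
    rcases htot 1 γ with h1 | h1
    · exact Or.inl (Or.inr ⟨ξ, γ, hγ, h1, h⟩)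
    · exact Or.inr (Or.inr ⟨ξ, γ⁻¹, fun h => hγ (inv_eq_one.mp h), hρ.inv_one h1, h.inv hA⟩)

theorem Ord_total (hA : GoodAct Γ Ω) {ρ : Γ → Γ → Prop} (hρ : IsLO Γ ρ)
    (htot : ∀ a b, ρ a b ∨ ρ b a) (a b : WW Γ Ω) : Ord Ω ρ a b ∨ Ord Ω ρ b a := by
  rcases Pos.total hA hρ htot (a⁻¹ * b) with h | h
  · exact Or.inl h
  · right
    have e : (a⁻¹ * b)⁻¹ = b⁻¹ * a := by group
    rw [e] at h
    exact h

theorem Ord_isLO (hA : GoodAct Γ Ω) {ρ : Γ → Γ → Prop} (hρ : IsLO Γ ρ)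
    (htot : ∀ a b, ρ a b ∨ ρ b a) : IsLO (WW Γ Ω) (Ord Ω ρ) := by
  refine isLO_of_total ?_ ?_ ?_ ?_ (Ord_total hA hρ htot)
  · intro a
    left; group
  · intro a b c h1 h2
    have := Pos.mul hA hρ h1 h2
    have e : a⁻¹ * b * (b⁻¹ * c) = a⁻¹ * c := by group
    rw [e] at this
    exact this
  · intro a b h1 h2
    have e : b⁻¹ * a = (a⁻¹ * b)⁻¹ := by group
    have h3 : Pos ρ (a⁻¹ * b)⁻¹ := by rw [← e]; exact h2
    exact inv_mul_eq_one.mp (Pos.antisymm hA hρ h1 h3)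
  · intro a b c d h
    have := Pos.conj hA hρ h d⁻¹
    have e : d⁻¹ * (a⁻¹ * b) * d⁻¹⁻¹ = (c * a * d)⁻¹ * (c * b * d) := by group
    rw [e] at this
    exact this

theorem pos_iff (hA : GoodAct Γ Ω) {ρ : Γ → Γ → Prop} {f : WW Γ Ω} {ξ : Ω} {γ : Γ} (hγ : γ ≠ 1)
    (h : Germ f ξ γ) : Pos ρ f ↔ ρ 1 γ := by
  constructor
  · rintro (rfl | ⟨ξ', γ', hγ', h1, h'⟩)
    · exact (hγ (germ_one hA h)).elim
    · rw [(h.unique hA h' hγ hγ').2]; exact h1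
  · intro h1
    exact Or.inr ⟨ξ, γ, hγ, h1, h⟩

theorem Ord_inj (hA : GoodAct Γ Ω) {ρ ρ' : Γ → Γ → Prop} (hρ : IsLO Γ ρ) (hρ' : IsLO Γ ρ')
    (h : Ord Ω ρ = Ord Ω ρ') : ρ = ρ' := by
  have key : ∀ γ, ρ 1 γ ↔ ρ' 1 γ := by
    intro γ
    by_cases hγ : γ = 1
    · subst hγ; exact ⟨fun _ => hρ'.refl 1, fun _ => hρ.refl 1⟩
    · obtain ⟨f, hf⟩ := exists_germ hA (0 : Ω) γ
      rw [← pos_iff hA (ρ := ρ) hγ hf, ← pos_iff hA (ρ := ρ') hγ hf]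
      have h1 := congrFun (congrFun h 1) f
      have e1 : Ord Ω ρ 1 f = Pos ρ f := by unfold Ord; rw [inv_one, one_mul]
      have e2 : Ord Ω ρ' 1 f = Pos ρ' f := by unfold Ord; rw [inv_one, one_mul]
      rw [e1, e2] at h1
      rw [h1]
  funext a b
  apply propext
  rw [hρ.iff_one, hρ'.iff_one, key]

theorem RT.same_sign (hA : GoodAct Γ Ω) {r : WW Γ Ω → WW Γ Ω → Prop} (hr : IsLO (WW Γ Ω) r)
    (hR : RT (WW Γ Ω) Ω r) {f f' : WW Γ Ω} {ξ : Ω} {γ : Γ} (hγ : γ ≠ 1) (h : Germ f ξ γ)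
    (h' : Germ f' ξ γ) (h1 : r 1 f) : r 1 f' := by
  rcases hR.1 1 f' with h2 | h2
  · exact h2
  have hN := W_nice hA
  have := hA.dense
  have := hA.nontrivial
  have h3 : r 1 f'⁻¹ := hr.inv_one h2
  have hv : Germ (f'⁻¹ * f) ξ 1 := by
    have := (h'.inv hA).mul hA h
    rwa [inv_mul_cancel] at this
  obtain ⟨hv1, y, hy, hyw⟩ := hv
  have hvfix : ∀ x, y ≤ x → (f'⁻¹ * f) • x = x := by
    intro x hx
    rcases le_total x ξ with h4 | h4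
    · rw [hyw x hx h4, one_smul]; abel
    · exact hv1 x h4
  obtain ⟨c, hc1, hc2⟩ := exists_between hy
  set v := f'⁻¹ * f with hvdef
  have hvI : InI (Set.Iio c) v := by
    obtain ⟨a, b, hab, hs⟩ := hN.bdd v
    obtain ⟨a', ha'⟩ := exists_lt (min a y)
    refine ⟨a', y, ?_, hc1, ha'.trans_le (min_le_right _ _), ?_⟩
    · exact (ha'.trans_le (min_le_right _ _)).trans hc1
    · intro x hx
      rcases hx with hx | hx
      · exact hs x (Or.inl (hx.trans (ha'.trans_le (min_le_left _ _))))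
      · exact hvfix x hx.le
  have hv1' : r 1 v := hr.mul_one h3 h1
  have hvv : r 1 (v * v) := hr.mul_one hv1' hv1'
  have hγ' : γ⁻¹ ≠ 1 := fun h => hγ (inv_eq_one.mp h)
  obtain ⟨w, hw1, _, hw3⟩ := (h'.inv hA).moves hA hγ' hc2
  have h4 : r (v * v) f'⁻¹ := hR.2 f'⁻¹ (v * v) c w h3 hw1 hw3 (hvI.mul hvI) hvv
  have h5 : r f'⁻¹ v := by
    have := hr.mul_left f'⁻¹ h1
    rwa [_root_.mul_one] at this
  have h6 : r (v * v) v := hr.trans h4 h5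
  have h7 : r v 1 := by
    have := hr.mul_left v⁻¹ h6
    simpa using this
  have h8 : v = 1 := hr.antisymm h7 hv1'
  have h9 : f' = f := inv_mul_eq_one.mp h8
  rw [h9]; exact h1

theorem RT.sign_change (hA : GoodAct Γ Ω) {r : WW Γ Ω → WW Γ Ω → Prop} (hr : IsLO (WW Γ Ω) r)
    (hR : RT (WW Γ Ω) Ω r) {f f' : WW Γ Ω} {ξ ξ' : Ω} {γ : Γ} (hγ : γ ≠ 1) (h : Germ f ξ γ)
    (h' : Germ f' ξ' γ) (h1 : r 1 f) : r 1 f' := by
  obtain ⟨k, y, hy, hk, hkw⟩ := exists_translate (Γ := Γ) hA ξ ξ'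
  have h2 := h.conj hA hy hkw
  rw [hk, one_mul, inv_one, _root_.mul_one] at h2
  exact RT.same_sign hA hr hR hγ h2 h' (hr.conj_one k h1)

/-- the order on `Γ` of a right dominant order on `W` -/
def Rho (r : WW Γ Ω → WW Γ Ω → Prop) (a b : Γ) : Prop :=
  a = b ∨ ∃ f : WW Γ Ω, Germ f 0 (a⁻¹ * b) ∧ r 1 f

theorem Rho_iff (r : WW Γ Ω → WW Γ Ω → Prop) (γ : Γ) : Rho r 1 γ ↔
    (γ = 1 ∨ ∃ f : WW Γ Ω, Germ f 0 γ ∧ r 1 f) := by
  unfold Rho
  rw [inv_one, one_mul]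
  constructor
  · rintro (h | h)
    · exact Or.inl h.symm
    · exact Or.inr h
  · rintro (h | h)
    · exact Or.inl h.symm
    · exact Or.inr h

theorem Rho_iff' (r : WW Γ Ω → WW Γ Ω → Prop) (a b : Γ) : Rho r a b ↔ Rho r 1 (a⁻¹ * b) := by
  rw [Rho_iff]
  unfold Rho
  constructor
  · rintro (h | h)
    · left; rw [h]; group
    · exact Or.inr h
  · rintro (h | h)
    · left; exact inv_mul_eq_one.mp h
    · exact Or.inr h

theorem Rho_isLO (hA : GoodAct Γ Ω) {r : WW Γ Ω → WW Γ Ω → Prop} (hr : IsLO (WW Γ Ω) r)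
    (hR : RT (WW Γ Ω) Ω r) : IsLO Γ (Rho r) ∧ ∀ a b, Rho r a b ∨ Rho r b a := by
  have htot : ∀ a b, Rho r a b ∨ Rho r b a := by
    intro a b
    obtain ⟨f, hf⟩ := exists_germ hA (0 : Ω) (a⁻¹ * b)
    rcases hR.1 1 f with h1 | h1
    · exact Or.inl (Or.inr ⟨f, hf, h1⟩)
    · refine Or.inr (Or.inr ⟨f⁻¹, ?_, hr.inv_one h1⟩)
      have e : b⁻¹ * a = (a⁻¹ * b)⁻¹ := by group
      rw [e]; exact hf.inv hA
  refine ⟨isLO_of_total ?_ ?_ ?_ ?_ htot, htot⟩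
  · intro a; exact Or.inl rfl
  · intro a b c h1 h2
    rcases h1 with rfl | ⟨f, hf, hf1⟩
    · exact h2
    rcases h2 with rfl | ⟨g, hg, hg1⟩
    · exact Or.inr ⟨f, hf, hf1⟩
    refine Or.inr ⟨f * g, ?_, hr.mul_one hf1 hg1⟩
    have := hf.mul hA hg
    have e : a⁻¹ * b * (b⁻¹ * c) = a⁻¹ * c := by group
    rwa [e] at this
  · intro a b h1 h2
    rcases h1 with rfl | ⟨f, hf, hf1⟩
    · rfl
    rcases h2 with rfl | ⟨g, hg, hg1⟩
    · rfl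
    by_contra hab
    have hne : a⁻¹ * b ≠ 1 := fun h => hab (inv_mul_eq_one.mp h)
    have hg' : Germ g⁻¹ 0 (a⁻¹ * b) := by
      have := hg.inv hA
      have e : (b⁻¹ * a)⁻¹ = a⁻¹ * b := by group
      rwa [e] at this
    have h3 : r 1 g⁻¹ := RT.same_sign hA hr hR hne hf hg' hf1
    have h4 : r g⁻¹ 1 := hr.inv_one' hg1
    have h5 : g⁻¹ = 1 := hr.antisymm h4 h3
    rw [h5] at hg'
    exact hne (germ_one hA hg')
  · intro a b c d h
    rcases h with rfl | ⟨f, hf, hf1⟩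
    · exact Or.inl rfl
    obtain ⟨k, hk⟩ := exists_germ hA (0 : Ω) d⁻¹
    obtain ⟨hk1, y, hy, hkw⟩ := hk
    have hk0 : k • (0 : Ω) = 0 := hk1 0 le_rfl
    have h2 := hf.conj hA (k := k) (δ := d⁻¹) hy (by
      intro w h3 h4
      rw [hk0]; exact hkw w h3 h4)
    rw [hk0] at h2
    refine Or.inr ⟨k * f * k⁻¹, ?_, hr.conj_one k hf1⟩
    have e : d⁻¹ * (a⁻¹ * b) * d⁻¹⁻¹ = (c * a * d)⁻¹ * (c * b * d) := by group
    rwa [e] at h2

theorem RT.eq_Ord (hA : GoodAct Γ Ω) {r : WW Γ Ω → WW Γ Ω → Prop} (hr : IsLO (WW Γ Ω) r)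
    (hR : RT (WW Γ Ω) Ω r) : Ord Ω (Rho r) = r := by
  funext a b
  apply propext
  rw [hr.iff_one]
  unfold Ord
  set f := a⁻¹ * b
  constructor
  · rintro (h | ⟨ξ, γ, hγ, h1, h2⟩)
    · rw [h]; exact hr.refl 1
    · rw [Rho_iff] at h1
      rcases h1 with h1 | ⟨g, hg, hg1⟩
      · exact (hγ h1).elim
      · exact RT.sign_change hA hr hR hγ hg h2 hg1
  · intro h
    by_cases hf : f = 1
    · exact Or.inl hf
    · obtain ⟨ξ, γ, hγ, h2⟩ := exists_germ_of_ne hA hf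
      refine Or.inr ⟨ξ, γ, hγ, ?_, h2⟩
      rw [Rho_iff]
      right
      obtain ⟨g, hg⟩ := exists_germ hA (0 : Ω) γ
      exact ⟨g, hg, RT.sign_change hA hr hR hγ h2 hg h⟩

end Basic

section Count

/-- the number of lattice orders on `W` -/
theorem W_count {Γ Ω : Type} [Group Γ] [AddCommGroup Ω] [LinearOrder Ω] [IsOrderedAddMonoid Ω]
    [DistribMulAction Γ Ω] (hA : GoodAct Γ Ω)
    (htot : ∀ R : Γ → Γ → Prop, IsLO Γ R → ∀ a b, R a b ∨ R b a) {n : ℕ} (hn : 0 < n)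
    (hcard : Set.ncard {R : Γ → Γ → Prop | IsLO Γ R} = n) :
    Set.ncard {r : WW Γ Ω → WW Γ Ω → Prop | IsLO (WW Γ Ω) r} = n + 2 := by
  have := hA.dense
  have := hA.nontrivial
  have hN := W_nice hA
  have hS := W_supC hA
  have hAlt := W_alt hA
  set P1 : WW Γ Ω → WW Γ Ω → Prop := fun a b => ∀ w : Ω, a • w ≤ b • w with hP1
  set P2 : WW Γ Ω → WW Γ Ω → Prop := fun a b => ∀ w : Ω, b • w ≤ a • w with hP2
  have h1 : IsLO (WW Γ Ω) P1 := ptw_isLO hN hS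
  have h2 : IsLO (WW Γ Ω) P2 := h1.rev
  have hset : {r : WW Γ Ω → WW Γ Ω → Prop | IsLO (WW Γ Ω) r} =
      insert P1 (insert P2 (Ord Ω '' {R : Γ → Γ → Prop | IsLO Γ R})) := by
    ext r
    simp only [Set.mem_ofPred_eq, Set.mem_insert_iff, Set.mem_image]
    constructor
    · intro hr
      rcases classify_rel hN hS hAlt hr with h | h | h
      · exact Or.inl h
      · exact Or.inr (Or.inl h)
      · exact Or.inr (Or.inr ⟨Rho r, (Rho_isLO hA hr h).1, h.eq_Ord hA hr⟩)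
    · rintro (rfl | rfl | ⟨R, hR, rfl⟩)
      · exact h1
      · exact h2
      · exact Ord_isLO hA hR (htot R hR)
  have hfin : {R : Γ → Γ → Prop | IsLO Γ R}.Finite := by
    apply Set.finite_of_ncard_pos
    rw [hcard]; exact hn
  obtain ⟨a, ha1, ha2⟩ := ptw_not_total (G := WW Γ Ω) (Ω := Ω) hN
  have hnot1 : P1 ∉ (Ord Ω '' {R : Γ → Γ → Prop | IsLO Γ R}) := by
    rintro ⟨R, hR, hRP⟩
    have := Ord_total hA hR (htot R hR) a 1
    rw [hRP] at this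
    rcases this with h | h
    · exact ha1 h
    · exact ha2 h
  have hnot2 : P2 ∉ (Ord Ω '' {R : Γ → Γ → Prop | IsLO Γ R}) := by
    rintro ⟨R, hR, hRP⟩
    have := Ord_total hA hR (htot R hR) a 1
    rw [hRP] at this
    rcases this with h | h
    · exact ha2 h
    · exact ha1 h
  have hne : P1 ≠ P2 := by
    intro h
    obtain ⟨x, η, ξ, hx⟩ := exists_bumpUp (G := WW Γ Ω) (Ω := Ω) hN hS
    have h3 : P1 1 x := by
      intro w
      rw [one_smul]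
      rcases le_or_gt w η with h1 | h1
      · exact (hx.2.1.fixL hN h1).ge
      · rcases lt_or_ge w ξ with h2 | h2
        · exact (hx.2.2 w h1 h2).le
        · exact (hx.2.1.fixR hN h2).ge
    have h4 : P2 1 x := by rw [← h]; exact h3
    obtain ⟨y, hy1, hy2⟩ := exists_between hx.1
    have h5 := h4 y
    rw [one_smul] at h5
    exact absurd (hx.2.2 y hy1 hy2) (not_lt.mpr h5)
  have hfin' : (Ord Ω '' {R : Γ → Γ → Prop | IsLO Γ R}).Finite := hfin.image _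
  rw [hset, Set.ncard_insert_of_notMem _ (hfin'.insert _),
    Set.ncard_insert_of_notMem hnot2 hfin', Set.InjOn.ncard_image, hcard]
  · intro R hR R' hR' h
    exact Ord_inj hA hR hR' h
  · rintro (h | h)
    · exact hne h
    · exact hnot1 h

end Count

end Pool.Agent.Lib.MP_aba4aa_al
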