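import Pool.Agent.Lib.MP_aba4aa_al.Defs
import Pool.Agent.Lib.MP_aba4aa_al.Chain3

/-!
Locally affine order automorphisms of an ordered abelian group `Ω` with an action of `Γ`.
-/

set_option autoImplicit false
set_option linter.unusedSectionVars false

namespace Pool.Agent.Lib.MP_aba4aa_al

/-- lower parts of cuts, without a maximum -/
structure IsCut {Ω : Type*} [LinearOrder Ω] (L : Set Ω) : Prop where
  lower : ∀ x y, x ≤ y → y ∈ L → x ∈ L
  ne : ∃ y, y ∈ L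
  neu : ∃ z, z ∉ L
  noMax : ∀ y ∈ L, ∃ y' ∈ L, y < y'

/-- affine on an interval -/
def AffOn (Γ : Type*) {Ω : Type*} [Group Γ] [AddCommGroup Ω] [LinearOrder Ω]
    [DistribMulAction Γ Ω] (f : Ω → Ω) (y z : Ω) : Prop :=
  ∃ (γ : Γ) (c : Ω), ∀ w, y ≤ w → w ≤ z → f w = γ • w + c

/-- affine near every cut with lower part without maximum -/
def Loc (Γ : Type*) {Ω : Type*} [Group Γ] [AddCommGroup Ω] [LinearOrder Ω]
    [DistribMulAction Γ Ω] (f : Ω → Ω) : Prop :=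
  ∀ L : Set Ω, IsCut L → ∃ y ∈ L, ∃ z, z ∉ L ∧ AffOn Γ f y z

section Cuts

variable {Ω : Type*} [LinearOrder Ω]

theorem IsCut.lt {L : Set Ω} (hL : IsCut L) {y z : Ω} (hy : y ∈ L) (hz : z ∉ L) : y < z := by
  by_contra h
  push Not at h
  exact hz (hL.lower z y h hy)

theorem IsCut.max_mem {L : Set Ω} {y y' : Ω} (h : y ∈ L) (h' : y' ∈ L) :
    max y y' ∈ L := by
  rcases max_choice y y' with e | e <;> rw [e] <;> assumption

theorem IsCut.min_notMem {L : Set Ω} {y y' : Ω} (h : y ∉ L) (h' : y' ∉ L) :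
    min y y' ∉ L := by
  rcases min_choice y y' with e | e <;> rw [e] <;> assumption

end Cuts

section Basic

variable {Γ Ω : Type*} [Group Γ] [AddCommGroup Ω] [LinearOrder Ω] [IsOrderedAddMonoid Ω]
  [DistribMulAction Γ Ω]

theorem GoodAct.lt (hA : GoodAct Γ Ω) (γ : Γ) {x y : Ω} (h : x < y) : γ • x < γ • y := by
  have := hA.pos γ (y - x) (sub_pos.mpr h)
  rw [smul_sub] at this
  exact sub_pos.mp this

theorem GoodAct.lt_iff (hA : GoodAct Γ Ω) (γ : Γ) {x y : Ω} : γ • x < γ • y ↔ x < y := by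
  constructor
  · intro h
    have := hA.lt γ⁻¹ h
    simpa using this
  · exact hA.lt γ

theorem GoodAct.le_iff (hA : GoodAct Γ Ω) (γ : Γ) {x y : Ω} : γ • x ≤ γ • y ↔ x ≤ y := by
  rw [← not_lt, ← not_lt, hA.lt_iff]

theorem GoodAct.fix (hA : GoodAct Γ Ω) {γ : Γ} {x : Ω} (h : γ • x = x) (hx : x ≠ 0) : γ = 1 := by
  by_contra hγ
  rcases lt_or_gt_of_ne hx with h0 | h0
  · have h1 : (0 : Ω) < -x := neg_pos.mpr h0
    have h2 : γ • (-x) = -x := by rw [smul_neg, h]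
    rcases hA.expand γ hγ with h3 | h3
    · exact (h3 _ h1).ne' h2
    · exact (h3 _ h1).ne h2
  · rcases hA.expand γ hγ with h3 | h3
    · exact (h3 _ h0).ne' h
    · exact (h3 _ h0).ne h

theorem GoodAct.contr (hA : GoodAct Γ Ω) : ∃ σ : Γ, (∀ x : Ω, 0 < x → σ • x < x) ∧
    ∀ x ε : Ω, 0 < x → 0 < ε → ∃ n : ℕ, σ ^ n • x < ε := by
  obtain ⟨σ, hσ⟩ := hA.shrink
  refine ⟨σ, ?_, hσ⟩
  have key : ∀ x : Ω, 0 < x → (∀ n : ℕ, x ≤ σ ^ n • x) → False := by
    intro x hx h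
    obtain ⟨n, hn⟩ := hσ x x hx hx
    exact absurd hn (not_lt.mpr (h n))
  by_cases h1 : σ = 1
  · obtain ⟨x, hx⟩ := hA.nontriv
    exact (key x hx (fun n => by rw [h1]; simp)).elim
  · rcases hA.expand σ h1 with h2 | h2
    · obtain ⟨x, hx⟩ := hA.nontriv
      refine (key x hx (fun n => ?_)).elim
      induction n with
      | zero => simp
      | succ n ih =>
        refine ih.trans ?_
        rw [pow_succ, mul_smul, hA.le_iff]
        exact (h2 x hx).le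
    · exact h2

theorem GoodAct.nontrivial (hA : GoodAct Γ Ω) : Nontrivial Ω := by
  obtain ⟨x, hx⟩ := hA.nontriv
  exact ⟨⟨x, 0, hx.ne'⟩⟩

theorem GoodAct.dense (hA : GoodAct Γ Ω) : DenselyOrdered Ω := by
  refine ⟨fun x y hxy => ?_⟩
  obtain ⟨σ, h1, _⟩ := hA.contr
  have h0 : 0 < y - x := sub_pos.mpr hxy
  refine ⟨x + σ • (y - x), ?_, ?_⟩
  · exact lt_add_of_pos_right x (hA.pos σ _ h0)
  · have := h1 _ h0
    calc x + σ • (y - x) < x + (y - x) := by gcongr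
      _ = y := by abel

/-- the affine order automorphism -/
def affIso (hA : GoodAct Γ Ω) (γ : Γ) (c : Ω) : Ω ≃o Ω where
  toFun w := γ • w + c
  invFun w := γ⁻¹ • (w - c)
  left_inv w := by simp
  right_inv w := by simp
  map_rel_iff' := by
    intro a b
    show γ • a + c ≤ γ • b + c ↔ a ≤ b
    rw [add_le_add_iff_right, hA.le_iff]

theorem affIso_apply (hA : GoodAct Γ Ω) (γ : Γ) (c w : Ω) : affIso hA γ c w = γ • w + c := rfl

theorem Loc.aff (hA : GoodAct Γ Ω) (γ : Γ) (c : Ω) : Loc Γ (affIso hA γ c) := by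
  intro L hL
  obtain ⟨y, hy⟩ := hL.ne
  obtain ⟨z, hz⟩ := hL.neu
  exact ⟨y, hy, z, hz, γ, c, fun w _ _ => rfl⟩

theorem AffOn.id (y z : Ω) : AffOn Γ (fun w : Ω => w) y z :=
  ⟨1, 0, fun w _ _ => by simp⟩

theorem AffOn.mono {f : Ω → Ω} {y z y' z' : Ω} (h : AffOn Γ f y z) (hy : y ≤ y') (hz : z' ≤ z) :
    AffOn Γ f y' z' := by
  obtain ⟨γ, c, h⟩ := h
  exact ⟨γ, c, fun w h1 h2 => h w (hy.trans h1) (h2.trans hz)⟩

theorem AffOn.congr {f g : Ω → Ω} {y z : Ω} (h : AffOn Γ f y z)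
    (hfg : ∀ w, y ≤ w → w ≤ z → g w = f w) : AffOn Γ g y z := by
  obtain ⟨γ, c, h⟩ := h
  exact ⟨γ, c, fun w h1 h2 => (hfg w h1 h2).trans (h w h1 h2)⟩

theorem Loc.id : Loc Γ (fun w : Ω => w) := by
  intro L hL
  obtain ⟨y, hy⟩ := hL.ne
  obtain ⟨z, hz⟩ := hL.neu
  exact ⟨y, hy, z, hz, AffOn.id y z⟩

theorem Loc.glue {f g h : Ω → Ω} (hf : Loc Γ f) (hg : Loc Γ g) (x : Ω)
    (h1 : ∀ w, w ≤ x → h w = f w) (h2 : ∀ w, x ≤ w → h w = g w) : Loc Γ h := by
  intro L hL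
  by_cases hx : x ∈ L
  · obtain ⟨y, hy, z, hz, ha⟩ := hg L hL
    refine ⟨max x y, IsCut.max_mem hx hy, z, hz, ?_⟩
    exact (ha.mono (le_max_right _ _) le_rfl).congr
      (fun w hw _ => h2 w ((le_max_left _ _).trans hw))
  · obtain ⟨y, hy, z, hz, ha⟩ := hf L hL
    refine ⟨y, hy, min x z, IsCut.min_notMem hx hz, ?_⟩
    exact (ha.mono le_rfl (min_le_right _ _)).congr
      (fun w _ hw => h1 w (hw.trans (min_le_left _ _)))

theorem IsCut.map {L : Set Ω} (hL : IsCut L) (g : Ω ≃o Ω) : IsCut {v | g.symm v ∈ L} where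
  lower x y hxy hy := hL.lower _ _ (g.symm.monotone hxy) hy
  ne := by
    obtain ⟨y, hy⟩ := hL.ne
    exact ⟨g y, by simpa using hy⟩
  neu := by
    obtain ⟨z, hz⟩ := hL.neu
    exact ⟨g z, by simpa using hz⟩
  noMax := by
    intro y hy
    obtain ⟨y', hy', hlt⟩ := hL.noMax _ hy
    refine ⟨g y', by simpa using hy', ?_⟩
    have := g.strictMono hlt
    simpa using this

theorem Loc.comp {f g : Ω ≃o Ω} (hf : Loc Γ f) (hg : Loc Γ g) :
    Loc Γ (fun w => f (g w)) := by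
  intro L hL
  obtain ⟨y, hy, z, hz, γ, c, h⟩ := hg L hL
  obtain ⟨y', hy', z', hz', γ', c', h'⟩ := hf _ (hL.map g)
  refine ⟨max y (g.symm y'), IsCut.max_mem hy hy', min z (g.symm z'), IsCut.min_notMem hz hz',
    γ' * γ, γ' • c + c', ?_⟩
  intro w h1 h2
  have h3 : y' ≤ g w := by
    have := g.monotone ((le_max_right _ _).trans h1)
    simpa using this
  have h4 : g w ≤ z' := by
    have := g.monotone (h2.trans (min_le_right _ _))
    simpa using this
  show f (g w) = _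
  rw [h' _ h3 h4, h w ((le_max_left _ _).trans h1) (h2.trans (min_le_left _ _)), smul_add,
    mul_smul, add_assoc]

theorem Loc.symm {g : Ω ≃o Ω} (hg : Loc Γ g) : Loc Γ g.symm := by
  intro L hL
  obtain ⟨y, hy, z, hz, γ, c, h⟩ := hg _ (hL.map g.symm)
  refine ⟨g y, hy, g z, hz, γ⁻¹, -(γ⁻¹ • c), ?_⟩
  intro w h1 h2
  have h3 : y ≤ g.symm w := by
    have := g.symm.monotone h1
    simpa using this
  have h4 : g.symm w ≤ z := by
    have := g.symm.monotone h2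
    simpa using this
  have h5 := h _ h3 h4
  rw [OrderIso.apply_symm_apply] at h5
  have h6 : γ⁻¹ • w = g.symm w + γ⁻¹ • c := by
    conv_lhs => rw [h5]
    rw [smul_add, inv_smul_smul]
  rw [h6]; abel

omit [AddCommGroup Ω] [IsOrderedAddMonoid Ω] in
/-- gluing order automorphisms -/
theorem exists_glue {Ω : Type*} [LinearOrder Ω] (f g : Ω ≃o Ω) (x : Ω) (h : f x = g x) :
    ∃ k : Ω ≃o Ω, (∀ w, w ≤ x → k w = f w) ∧ (∀ w, x ≤ w → k w = g w) := by
  classical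
  set F : Ω → Ω := fun w => if w ≤ x then f w else g w with hF
  have hF1 : ∀ w, w ≤ x → F w = f w := fun w hw => by simp [hF, hw]
  have hF2 : ∀ w, x ≤ w → F w = g w := by
    intro w hw
    rcases hw.lt_or_eq with h1 | h1
    · simp [hF, not_le.mpr h1]
    · rw [← h1, hF1 x le_rfl, h]
  have hmono : StrictMono F := by
    intro a b hab
    rcases le_or_gt b x with h1 | h1
    · rw [hF1 b h1, hF1 a (hab.le.trans h1)]
      exact f.strictMono hab
    · rcases le_or_gt a x with h2 | h2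
      · rw [hF1 a h2, hF2 b h1.le]
        calc f a ≤ f x := f.monotone h2
          _ = g x := h
          _ < g b := g.strictMono h1
      · rw [hF2 a h2.le, hF2 b h1.le]
        exact g.strictMono hab
  have hsurj : Function.Surjective F := by
    intro v
    rcases le_or_gt v (f x) with h1 | h1
    · refine ⟨f.symm v, ?_⟩
      have : f.symm v ≤ x := by
        have := f.symm.monotone h1
        simpa using this
      rw [hF1 _ this]; simp
    · refine ⟨g.symm v, ?_⟩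
      have : x ≤ g.symm v := by
        rw [h] at h1
        have := g.symm.monotone h1.le
        simpa using this
      rw [hF2 _ this]; simp
  exact ⟨StrictMono.orderIsoOfSurjective F hmono hsurj, hF1, hF2⟩

theorem exists_glue_loc {f g : Ω ≃o Ω} (hf : Loc Γ f) (hg : Loc Γ g) (x : Ω) (h : f x = g x) :
    ∃ k : Ω ≃o Ω, Loc Γ k ∧ (∀ w, w ≤ x → k w = f w) ∧ (∀ w, x ≤ w → k w = g w) := by
  obtain ⟨k, h1, h2⟩ := exists_glue f g x h
  exact ⟨k, Loc.glue hf hg x h1 h2, h1, h2⟩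

/-- two-piece maps -/
theorem exists_PL2 (hA : GoodAct Γ Ω) {x₁ x₂ y₁ y₂ : Ω} (hx : x₁ < x₂) (hy : y₁ < y₂) :
    ∃ f : Ω ≃o Ω, Loc Γ f ∧ f x₁ = y₁ ∧ f x₂ = y₂ := by
  obtain ⟨σ, h1, h2⟩ := hA.contr
  have hpow : ∀ (n : ℕ) (x : Ω), 0 ≤ x → σ ^ n • x ≤ x := by
    intro n
    induction n with
    | zero => intro x _; simp
    | succ n ih =>
      intro x hx
      rw [pow_succ, mul_smul]
      rcases hx.lt_or_eq with h | h
      · exact (ih _ (hA.pos σ x h).le).trans (h1 x h).le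
      · rw [← h]; simp
  have hpow' : ∀ (m n : ℕ) (x : Ω), m ≤ n → 0 ≤ x → σ ^ n • x ≤ σ ^ m • x := by
    intro m n x hmn hx
    obtain ⟨k, rfl⟩ := Nat.exists_eq_add_of_le hmn
    rw [pow_add, mul_smul, hA.le_iff]
    exact hpow k x hx
  set A := x₂ - x₁ with hAd
  set B := y₂ - y₁ with hBd
  have hA0 : 0 < A := sub_pos.mpr hx
  have hB0 : 0 < B := sub_pos.mpr hy
  obtain ⟨n₁, hn₁⟩ := h2 A B hA0 hB0
  obtain ⟨n₂, hn₂⟩ := h2 B A hB0 hA0
  set n := max n₁ n₂ with hn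
  set τ := σ ^ n with hτ
  have hAB : τ • A < B := (hpow' n₁ n A (le_max_left _ _) hA0.le).trans_lt hn₁
  have hBA : τ • B < A := (hpow' n₂ n B (le_max_right _ _) hB0.le).trans_lt hn₂
  have hBA' : B < τ⁻¹ • A := by
    rw [← hA.lt_iff τ]; simpa using hBA
  have hδ : τ⁻¹ * τ⁻¹ ≠ 1 := by
    intro h
    have h3 : τ * τ = 1 := by
      have h4 : (τ * τ)⁻¹ = 1 := by rw [mul_inv_rev]; exact h
      exact inv_eq_one.mp h4
    have h4 : τ • (τ • A) < A := ((hA.lt_iff τ).mpr hAB).trans hBA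
    rw [← mul_smul, h3, one_smul] at h4
    exact lt_irrefl _ h4
  obtain ⟨t, ht⟩ := hA.surj _ hδ (τ⁻¹ • B - A)
  have ht' : τ⁻¹ • t - τ • t = B - τ • A := by
    have h3 : τ • ((τ⁻¹ * τ⁻¹) • t - t) = τ • (τ⁻¹ • B - A) := by rw [ht]
    rw [smul_sub, smul_sub, smul_inv_smul, mul_smul, smul_inv_smul] at h3
    exact h3
  have hneg : ∀ s : Ω, s ≤ 0 → τ⁻¹ • s - τ • s ≤ 0 := by
    intro s hs
    have h3 : 0 ≤ -s := neg_nonneg.mpr hs
    have h4 : τ • (-s) ≤ -s := hpow n _ h3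
    have h5 : -s ≤ τ⁻¹ • (-s) := by rw [← hA.le_iff τ]; simpa using h4
    rw [smul_neg] at h4 h5
    have h6 : τ⁻¹ • s ≤ s := neg_le_neg_iff.mp h5
    have h7 : s ≤ τ • s := neg_le_neg_iff.mp h4
    exact sub_nonpos.mpr (h6.trans h7)
  have ht0 : 0 < t := by
    by_contra hc
    push Not at hc
    have h3 := hneg t hc
    rw [ht'] at h3
    exact absurd hAB (not_lt.mpr (sub_nonpos.mp h3))
  have htA : t < A := by
    by_contra hc
    push Not at hc
    have h3 := hneg (A - t) (sub_nonpos.mpr hc)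
    have h4 : τ⁻¹ • (A - t) - τ • (A - t) = τ⁻¹ • A - B := by
      calc τ⁻¹ • (A - t) - τ • (A - t)
          = τ⁻¹ • A - τ • A - (τ⁻¹ • t - τ • t) := by
            rw [smul_sub τ⁻¹ A t, smul_sub τ A t]; abel
        _ = τ⁻¹ • A - B := by rw [ht']; abel
    rw [h4] at h3
    exact absurd hBA' (not_lt.mpr (sub_nonpos.mp h3))
  have hmatch : affIso hA τ⁻¹ (y₁ - τ⁻¹ • x₁) (x₁ + t) = affIso hA τ (y₂ - τ • x₂) (x₁ + t) := by
    rw [affIso_apply, affIso_apply, smul_add, smul_add]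
    have h3 : τ⁻¹ • t = τ • t + (B - τ • A) := by rw [← ht']; abel
    rw [h3, hAd, hBd, smul_sub]
    abel
  obtain ⟨f, hf, hf1, hf2⟩ := exists_glue_loc (Loc.aff hA τ⁻¹ (y₁ - τ⁻¹ • x₁))
    (Loc.aff hA τ (y₂ - τ • x₂)) (x₁ + t) hmatch
  refine ⟨f, hf, ?_, ?_⟩
  · rw [hf1 x₁ (le_add_of_nonneg_right ht0.le), affIso_apply]; abel
  · have h3 : x₁ + t ≤ x₂ := by
      calc x₁ + t ≤ x₁ + A := by gcongr
        _ = x₂ := by rw [hAd]; abel
    rw [hf2 x₂ h3, affIso_apply]; abel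

/-- extension of locally affine maps to maps with bounded support -/
theorem exists_extend (hA : GoodAct Γ Ω) {f : Ω ≃o Ω} (hf : Loc Γ f) {p x y q : Ω} (hxy : x ≤ y)
    (h1 : p < x) (h2 : p < f x) (h3 : y < q) (h4 : f y < q) :
    ∃ g : Ω ≃o Ω, Loc Γ g ∧ (∀ w, w ≤ p → g w = w) ∧ (∀ w, q ≤ w → g w = w) ∧
      (∀ w, x ≤ w → w ≤ y → g w = f w) := by
  obtain ⟨f₁, hf₁, e1, e2⟩ := exists_PL2 hA h1 h2
  obtain ⟨f₂, hf₂, e3, e4⟩ := exists_PL2 hA h3 h4
  obtain ⟨k₁, hk₁, a1, b1⟩ := exists_glue_loc (f := OrderIso.refl Ω) (g := f₁) Loc.id hf₁ p e1.symm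
  obtain ⟨k₂, hk₂, a2, b2⟩ := exists_glue_loc hk₁ hf x (by rw [b1 x h1.le, e2])
  obtain ⟨k₃, hk₃, a3, b3⟩ := exists_glue_loc hk₂ hf₂ y (by rw [b2 y hxy, e3])
  obtain ⟨k₄, hk₄, a4, b4⟩ := exists_glue_loc (f := k₃) (g := OrderIso.refl Ω) hk₃ Loc.id q
    (by rw [b3 q h3.le, e4]; rfl)
  refine ⟨k₄, hk₄, ?_, ?_, ?_⟩
  · intro w hw
    have hwx : w ≤ x := hw.trans h1.le
    have hwy : w ≤ y := hwx.trans hxy
    rw [a4 w (hwy.trans h3.le), a3 w hwy, a2 w hwx, a1 w hw]; rfl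
  · intro w hw
    rw [b4 w hw]; rfl
  · intro w hw1 hw2
    rw [a4 w (hw2.trans h3.le), a3 w hw2, b2 w hw1]

/-- limits of sequences of locally affine maps -/
theorem exists_limit {e : Ω} {x : ℕ → Ω} (hx : ∀ n, e < x n) (hx' : ∀ w, e < w → ∃ n, x n ≤ w)
    (P : ℕ → (Ω ≃o Ω)) (hP : ∀ n, Loc Γ (P n)) (hfix : ∀ n, P n (x n) = x n)
    (hag : ∀ n m, n ≤ m → ∀ w, x n ≤ w → P m w = P n w) :
    ∃ h : Ω ≃o Ω, Loc Γ h ∧ (∀ w, w ≤ e → h w = w) ∧ (∀ n w, x n ≤ w → h w = P n w) := by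
  classical
  choose! N hN using hx'
  set F : Ω → Ω := fun w => if w ≤ e then w else P (N w) w with hF
  have hF1 : ∀ w, w ≤ e → F w = w := fun w hw => by simp [hF, hw]
  have hF2 : ∀ n w, x n ≤ w → F w = P n w := by
    intro n w hw
    have hew : e < w := (hx n).trans_le hw
    have h1 : F w = P (N w) w := by simp [hF, not_le.mpr hew]
    rw [h1]
    rcases le_total n (N w) with h2 | h2
    · exact hag n _ h2 w hw
    · exact (hag _ n h2 w (hN w hew)).symm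
  have hge : ∀ n w, x n ≤ w → x n ≤ P n w := by
    intro n w hw
    calc x n = P n (x n) := (hfix n).symm
      _ ≤ P n w := (P n).monotone hw
  have hmono : StrictMono F := by
    intro a b hab
    rcases le_or_gt b e with h1 | h1
    · rw [hF1 b h1, hF1 a (hab.le.trans h1)]; exact hab
    · rcases le_or_gt a e with h2 | h2
      · rw [hF1 a h2, hF2 _ b (hN b h1)]
        exact h2.trans_lt ((hx _).trans_le (hge _ b (hN b h1)))
      · rw [hF2 _ a (hN a h2), hF2 (N a) b ((hN a h2).trans hab.le)]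
        exact (P _).strictMono hab
  have hsurj : Function.Surjective F := by
    intro v
    rcases le_or_gt v e with h1 | h1
    · exact ⟨v, hF1 v h1⟩
    · have h2 : x (N v) ≤ (P (N v)).symm v := by
        have := (P (N v)).symm.monotone (hN v h1)
        rw [← hfix (N v)] at this
        simpa using this
      refine ⟨(P (N v)).symm v, ?_⟩
      rw [hF2 _ _ h2]; simp
  refine ⟨StrictMono.orderIsoOfSurjective F hmono hsurj, ?_, hF1, hF2⟩
  intro L hL
  by_cases he : e ∈ L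
  · obtain ⟨w, hw, hew⟩ := hL.noMax e he
    obtain ⟨n, hn⟩ : ∃ n, x n ≤ w := ⟨N w, hN w hew⟩
    obtain ⟨y, hy, z, hz, ha⟩ := hP n L hL
    refine ⟨max w y, IsCut.max_mem hw hy, z, hz, ?_⟩
    exact (ha.mono (le_max_right _ _) le_rfl).congr
      (fun v hv _ => hF2 n v (hn.trans ((le_max_left _ _).trans hv)))
  · obtain ⟨y, hy⟩ := hL.ne
    refine ⟨y, hy, e, he, ?_⟩
    exact (AffOn.id y e).congr (fun v _ hv => hF1 v hv)

end Basic

end Pool.Agent.Lib.MP_aba4aa_al
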