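import Pool.Agent.Lib.MP_aba4aa_al.PL1

/-!
The group `W` of locally affine order automorphisms with bounded support satisfies the axioms.
-/

set_option autoImplicit false
set_option linter.unusedSectionVars false

namespace Pool.Agent.Lib.MP_aba4aa_al

section Basic

variable {Γ Ω : Type*} [Group Γ] [AddCommGroup Ω] [LinearOrder Ω] [IsOrderedAddMonoid Ω]
  [DistribMulAction Γ Ω]

/-- The group `W`. -/
def WW (Γ Ω : Type*) [Group Γ] [AddCommGroup Ω] [LinearOrder Ω] [IsOrderedAddMonoid Ω]
    [DistribMulAction Γ Ω] : Subgroup (Ω ≃o Ω) where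
  carrier := {f | Loc Γ f ∧ ∃ a b : Ω, ∀ x, (x < a ∨ b < x) → f x = x}
  mul_mem' := by
    rintro f g ⟨hf, a, b, hab⟩ ⟨hg, c, d, hcd⟩
    refine ⟨Loc.comp hf hg, min a c, max b d, ?_⟩
    intro x hx
    have h1 : x < c ∨ d < x := by
      rcases hx with h | h
      · exact Or.inl (h.trans_le (min_le_right _ _))
      · exact Or.inr ((le_max_right _ _).trans_lt h)
    have h2 : x < a ∨ b < x := by
      rcases hx with h | h
      · exact Or.inl (h.trans_le (min_le_left _ _))
      · exact Or.inr ((le_max_left _ _).trans_lt h)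
    show f (g x) = x
    rw [hcd x h1, hab x h2]
  one_mem' := ⟨Loc.id, 0, 0, fun _ _ => rfl⟩
  inv_mem' := by
    rintro f ⟨hf, a, b, hab⟩
    refine ⟨hf.symm, a, b, ?_⟩
    intro x hx
    show f.symm x = x
    rw [OrderIso.symm_apply_eq]
    exact (hab x hx).symm

theorem W_smul (g : WW Γ Ω) (x : Ω) : g • x = g.1 x := rfl

theorem W_loc (g : WW Γ Ω) : Loc Γ (g.1 : Ω → Ω) := g.2.1

/-- constructing elements of `W` -/
def mkW (f : Ω ≃o Ω) (h : Loc Γ f) (p q : Ω) (h1 : ∀ w, w ≤ p → f w = w)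
    (h2 : ∀ w, q ≤ w → f w = w) : WW Γ Ω :=
  ⟨f, h, p, q, fun x hx => by
    rcases hx with hx | hx
    · exact h1 x hx.le
    · exact h2 x hx.le⟩

theorem mkW_supp (f : Ω ≃o Ω) (h : Loc Γ f) (p q : Ω) (h1 : ∀ w, w ≤ p → f w = w)
    (h2 : ∀ w, q ≤ w → f w = w) : Supp (mkW f h p q h1 h2) p q := by
  intro x hx
  rcases hx with hx | hx
  · exact h1 x hx.le
  · exact h2 x hx.le

theorem mkW_smul (f : Ω ≃o Ω) (h : Loc Γ f) (p q : Ω) (h1 : ∀ w, w ≤ p → f w = w)
    (h2 : ∀ w, q ≤ w → f w = w) (x : Ω) : mkW f h p q h1 h2 • x = f x := rfl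

/-- extension of local maps to elements of `W` -/
theorem W_extend (hA : GoodAct Γ Ω) {f : Ω ≃o Ω} (hf : Loc Γ f) {p x y q : Ω} (hxy : x ≤ y)
    (h1 : p < x) (h2 : p < f x) (h3 : y < q) (h4 : f y < q) :
    ∃ g : WW Γ Ω, Supp g p q ∧ (∀ w, x ≤ w → w ≤ y → g • w = f w) := by
  obtain ⟨g, hg, e1, e2, e3⟩ := exists_extend hA hf hxy h1 h2 h3 h4
  exact ⟨mkW g hg p q e1 e2, mkW_supp g hg p q e1 e2, e3⟩

theorem W_trans (hA : GoodAct Γ Ω) (p q a b a' b' : Ω) (h1 : p < a) (h2 : a < b) (h3 : b < q)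
    (h4 : p < a') (h5 : a' < b') (h6 : b' < q) :
    ∃ g : WW Γ Ω, Supp g p q ∧ g • a = a' ∧ g • b = b' := by
  obtain ⟨f, hf, e1, e2⟩ := exists_PL2 hA h2 h5
  obtain ⟨g, hg, e3⟩ := W_extend hA hf h2.le h1 (by rw [e1]; exact h4) h3 (by rw [e2]; exact h6)
  exact ⟨g, hg, by rw [e3 a le_rfl h2.le, e1], by rw [e3 b h2.le le_rfl, e2]⟩

theorem W_mono (g : WW Γ Ω) {x y : Ω} (h : x < y) : g • x < g • y := g.1.strictMono h

theorem W_mono_le (g : WW Γ Ω) {x y : Ω} (h : x ≤ y) : g • x ≤ g • y := g.1.monotone h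

theorem W_lt_iff (g : WW Γ Ω) {x y : Ω} : g • x < g • y ↔ x < y := g.1.lt_iff_lt

theorem W_le_iff (g : WW Γ Ω) {x y : Ω} : g • x ≤ g • y ↔ x ≤ y := g.1.le_iff_le

theorem W_faithful (g : WW Γ Ω) (h : ∀ x : Ω, g • x = x) : g = 1 := by
  apply Subtype.ext
  apply RelIso.ext
  exact h

theorem W_cut (g : WW Γ Ω) (x : Ω) (hx : g • x = x) :
    ∃ g₁ : WW Γ Ω, (∀ y, y ≤ x → g₁ • y = g • y) ∧ (∀ y, x ≤ y → g₁ • y = y) := by
  obtain ⟨k, hk, h1, h2⟩ := exists_glue_loc (f := g.1) (g := OrderIso.refl Ω) (W_loc g) Loc.id x hx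
  obtain ⟨_, a, b, hab⟩ := g.2
  refine ⟨⟨k, hk, a, max b x, ?_⟩, h1, h2⟩
  intro y hy
  rcases hy with hy | hy
  · rcases le_total y x with hyx | hyx
    · rw [h1 y hyx]; exact hab y (Or.inl hy)
    · exact h2 y hyx
  · exact h2 y ((le_max_right _ _).trans_lt hy).le

theorem W_ends (hA : GoodAct Γ Ω) (g : WW Γ Ω) (w : Ω) (hw : g • w ≠ w) :
    ∃ η ξ : Ω, η < w ∧ w < ξ ∧ g • η = η ∧ g • ξ = ξ ∧ ∀ y, η < y → y < ξ → g • y ≠ y := by
  have hnt := hA.nontrivial
  obtain ⟨_, a, b, hab⟩ := g.2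
  have hga : ∀ x, (x < a ∨ b < x) → g • x = x := hab
  -- the right end
  have hright : ∃ ξ : Ω, w < ξ ∧ g • ξ = ξ ∧ ∀ y, w ≤ y → y < ξ → g • y ≠ y := by
    set L : Set Ω := {y | ∀ z, w ≤ z → z ≤ y → g • z ≠ z} with hLdef
    have hwL : w ∈ L := by
      intro z h1 h2
      have : z = w := le_antisymm h2 h1
      rw [this]; exact hw
    obtain ⟨q, hq⟩ := exists_gt (max b w)
    have hqfix : g • q = q := hga q (Or.inr ((le_max_left _ _).trans_lt hq))
    have hqL : q ∉ L := fun h => h q ((le_max_right _ _).trans_lt hq).le le_rfl hqfix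
    have hL : IsCut L := by
      refine ⟨?_, ⟨w, hwL⟩, ⟨q, hqL⟩, ?_⟩
      · intro x y hxy hy z h1 h2
        exact hy z h1 (h2.trans hxy)
      · intro y hy
        have hy2 : max w y ∈ L := IsCut.max_mem hwL hy
        set m := max w y with hm
        have hgm : g • m ≠ m := hy2 m (le_max_left _ _) le_rfl
        rcases lt_or_gt_of_ne hgm with h1 | h1
        · -- g m < m : points in [m, g⁻¹ m) are moved
          have h2 : m < g⁻¹ • m := by
            rw [← W_lt_iff g]; simpa using h1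
          have := hA.dense
          obtain ⟨m', h3, h4⟩ := exists_between h2
          refine ⟨m', ?_, (le_max_right _ _).trans_lt h3⟩
          intro z hz1 hz2
          rcases le_or_gt z m with h5 | h5
          · exact hy2 z hz1 h5
          · have h6 : g • z < m := by
              have := (W_lt_iff g).mpr (hz2.trans_lt h4)
              simpa using this
            exact (h6.trans h5).ne
        · have := hA.dense
          obtain ⟨m', h3, h4⟩ := exists_between h1
          refine ⟨m', ?_, (le_max_right _ _).trans_lt h3⟩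
          intro z hz1 hz2
          rcases le_or_gt z m with h5 | h5
          · exact hy2 z hz1 h5
          · have h6 : g • m < g • z := W_mono g h5
            exact ((hz2.trans_lt h4).trans h6).ne'
    obtain ⟨y, hy, z, hz, γ, c, haff⟩ := W_loc g L hL
    have hex : ∃ z', w ≤ z' ∧ z' ≤ z ∧ g • z' = z' := by
      by_contra hc
      push Not at hc
      exact hz hc
    obtain ⟨z', hz'1, hz'2, hz'3⟩ := hex
    have hz'L : z' ∉ L := fun h => h z' hz'1 le_rfl hz'3
    have hyz' : y < z' := hL.lt hy hz'L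
    refine ⟨z', hL.lt hwL hz'L, hz'3, ?_⟩
    intro v hv1 hv2 hv3
    have hvL : v ∉ L := fun h => h v hv1 le_rfl hv3
    have hyv : y < v := hL.lt hy hvL
    have e1 : γ • z' + c = z' := by
      rw [← haff z' hyz'.le hz'2]; exact hz'3
    have e2 : γ • v + c = v := by
      rw [← haff v hyv.le (hv2.le.trans hz'2)]; exact hv3
    have e3 : γ • (z' - v) = z' - v := by
      rw [smul_sub]
      calc γ • z' - γ • v = (γ • z' + c) - (γ • v + c) := by abel
        _ = z' - v := by rw [e1, e2]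
    have hγ : γ = 1 := hA.fix e3 (sub_ne_zero.mpr hv2.ne')
    have hc0 : c = 0 := by
      rw [hγ, one_smul] at e1
      exact left_eq_add.mp e1.symm
    -- then g fixes max w y
    have hm : max w y ∈ L := IsCut.max_mem hwL hy
    refine hm (max w y) (le_max_left _ _) le_rfl ?_
    have hmz : max w y ≤ z := (hL.lt hm hz).le
    have h7 := haff (max w y) (le_max_right _ _) hmz
    rw [hγ, hc0, one_smul, add_zero] at h7
    exact h7
  -- the left end
  have hleft : ∃ η : Ω, η < w ∧ g • η = η ∧ ∀ y, η < y → y ≤ w → g • y ≠ y := by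
    by_contra hcon
    push Not at hcon
    set L : Set Ω := {v | ∃ z, v ≤ z ∧ z ≤ w ∧ g • z = z} with hLdef
    obtain ⟨q, hq⟩ := exists_lt (min a w)
    have hqfix : g • q = q := hga q (Or.inl (hq.trans_le (min_le_left _ _)))
    have hqL : q ∈ L := ⟨q, le_rfl, (hq.trans_le (min_le_right _ _)).le, hqfix⟩
    have hwL : w ∉ L := by
      rintro ⟨z, h1, h2, h3⟩
      have : z = w := le_antisymm h2 h1
      rw [this] at h3
      exact hw h3
    have hstep : ∀ z, z ≤ w → g • z = z → ∃ z', z < z' ∧ z' ≤ w ∧ g • z' = z' := by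
      intro z h1 h2
      have h3 : z < w := lt_of_le_of_ne h1 (fun h => hw (h ▸ h2))
      obtain ⟨y, hy1, hy2, hy3⟩ := hcon z h3 h2
      exact ⟨y, hy1, hy2, hy3⟩
    have hL : IsCut L := by
      refine ⟨?_, ⟨q, hqL⟩, ⟨w, hwL⟩, ?_⟩
      · rintro x y hxy ⟨z, h1, h2, h3⟩
        exact ⟨z, hxy.trans h1, h2, h3⟩
      · rintro y ⟨z, h1, h2, h3⟩
        obtain ⟨z', h4, h5, h6⟩ := hstep z h2 h3
        exact ⟨z', ⟨z', le_rfl, h5, h6⟩, h1.trans_lt h4⟩
    obtain ⟨y, hy, z, hz, γ, c, haff⟩ := W_loc g L hL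
    obtain ⟨z₁, h1, h2, h3⟩ := hy
    obtain ⟨z₂, h4, h5, h6⟩ := hstep z₁ h2 h3
    have hz₂L : z₂ ∈ L := ⟨z₂, le_rfl, h5, h6⟩
    have hz₂z : z₂ < z := hL.lt hz₂L hz
    have e1 : γ • z₁ + c = z₁ := by
      rw [← haff z₁ h1 (h4.le.trans hz₂z.le)]; exact h3
    have e2 : γ • z₂ + c = z₂ := by
      rw [← haff z₂ (h1.trans h4.le) hz₂z.le]; exact h6
    have e3 : γ • (z₂ - z₁) = z₂ - z₁ := by
      rw [smul_sub]
      calc γ • z₂ - γ • z₁ = (γ • z₂ + c) - (γ • z₁ + c) := by abel
        _ = z₂ - z₁ := by rw [e1, e2]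
    have hγ : γ = 1 := hA.fix e3 (sub_ne_zero.mpr h4.ne')
    have hc0 : c = 0 := by
      rw [hγ, one_smul] at e1
      exact left_eq_add.mp e1.symm
    have hm : min z w ∉ L := IsCut.min_notMem hz hwL
    apply hm
    refine ⟨min z w, le_rfl, min_le_right _ _, ?_⟩
    have h7 := haff (min z w) ((h1.trans h4.le).trans (hL.lt hz₂L hm).le) (min_le_left _ _)
    rw [hγ, hc0, one_smul, add_zero] at h7
    exact h7
  obtain ⟨ξ, f1, f2, f3⟩ := hright
  obtain ⟨η, f4, f5, f6⟩ := hleft
  refine ⟨η, ξ, f4, f1, f5, f2, ?_⟩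
  intro y hy1 hy2
  rcases le_total y w with h | h
  · exact f6 y hy1 h
  · exact f3 y h hy2

/-- the contraction used in the tricks -/
theorem W_contract (hA : GoodAct Γ Ω) {p a b q : Ω} (h1 : p < a) (h2 : a < b) (h3 : b < q) :
    ∃ (s : WW Γ Ω) (e : Ω), Supp s p q ∧ p < e ∧ s • e = e ∧ s • b < a ∧
      (∀ n : ℕ, e < s ^ n • b) ∧ ∀ w, e < w → ∃ n : ℕ, s ^ n • b ≤ w := by
  have := hA.dense
  obtain ⟨σ, hσ1, hσ2⟩ := hA.contr
  obtain ⟨e, he1, he2⟩ := exists_between h1
  have heb : e < b := he2.trans h2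
  obtain ⟨m, hm⟩ := hσ2 (b - e) (a - e) (sub_pos.mpr heb) (sub_pos.mpr he2)
  set τ := σ ^ m with hτ
  have hf : Loc Γ (affIso hA τ (e - τ • e)) := Loc.aff hA _ _
  have hval : ∀ w, affIso hA τ (e - τ • e) w = e + τ • (w - e) := by
    intro w; rw [affIso_apply, smul_sub]; abel
  have hb : affIso hA τ (e - τ • e) b < a := by
    rw [hval]
    calc e + τ • (b - e) < e + (a - e) := by gcongr
      _ = a := by abel
  obtain ⟨s, hs, hsv⟩ := W_extend hA hf heb.le he1 (p := p) (q := q) (by rw [hval]; simpa using he1)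
    h3 (hb.trans (h2.trans h3))
  have hsv' : ∀ w, e ≤ w → w ≤ b → s • w = e + τ • (w - e) := by
    intro w hw1 hw2; rw [hsv w hw1 hw2, hval]
  have hse : s • e = e := by rw [hsv' e le_rfl heb.le]; simp
  have hsb : s • b < a := by rw [hsv b heb.le le_rfl]; exact hb
  have hsn : ∀ n : ℕ, s ^ n • b = e + τ ^ n • (b - e) ∧ s ^ n • b ≤ b := by
    intro n
    induction n with
    | zero => simp
    | succ n ih =>
      have h4 : s ^ n • b = e + τ ^ n • (b - e) := ih.1
      have h5 : e ≤ s ^ n • b := by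
        rw [h4]
        exact le_add_of_nonneg_right (hA.pos _ _ (sub_pos.mpr heb)).le
      have h6 : s ^ (n + 1) • b = s • (s ^ n • b) := by rw [pow_succ', mul_smul]
      constructor
      · rw [h6, hsv' _ h5 ih.2, h4, pow_succ', mul_smul]; simp
      · rw [h6]
        calc s • (s ^ n • b) ≤ s • b := W_mono_le s ih.2
          _ ≤ b := (hsb.trans h2).le
  refine ⟨s, e, hs, he1, hse, hsb, ?_, ?_⟩
  · intro n
    rw [(hsn n).1]
    exact lt_add_of_pos_right _ (hA.pos _ _ (sub_pos.mpr heb))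
  · intro w hw
    obtain ⟨k, hk⟩ := hσ2 (b - e) (w - e) (sub_pos.mpr heb) (sub_pos.mpr hw)
    refine ⟨k, ?_⟩
    have hm1 : 1 ≤ m := by
      rcases Nat.eq_zero_or_pos m with h | h
      · exfalso
        rw [hτ, h, pow_zero, one_smul] at hm
        exact absurd h2.le (not_le.mpr ((sub_lt_sub_iff_right e).mp hm))
      · exact h
    have hpow : ∀ (n : ℕ) (x : Ω), 0 ≤ x → σ ^ n • x ≤ x := by
      intro n
      induction n with
      | zero => intro x _; simp
      | succ n ih =>
        intro x hx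
        rw [pow_succ, mul_smul]
        rcases hx.lt_or_eq with h | h
        · exact (ih _ (hA.pos σ x h).le).trans (hσ1 x h).le
        · rw [← h]; simp
    have hle : τ ^ k • (b - e) ≤ σ ^ k • (b - e) := by
      rw [hτ, ← pow_mul]
      have h7 : k ≤ m * k := Nat.le_mul_of_pos_left k hm1
      obtain ⟨j, hj⟩ := Nat.exists_eq_add_of_le h7
      rw [hj, pow_add, mul_smul, hA.le_iff]
      exact hpow j _ (sub_pos.mpr heb).le
    rw [(hsn k).1]
    calc e + τ ^ k • (b - e) ≤ e + (w - e) := by gcongr; exact hle.trans hk.le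
      _ = w := by abel

theorem W_conj_supp (g : WW Γ Ω) {a b : Ω} (h : ∀ x, (x ≤ a ∨ b ≤ x) → g • x = x) (k : WW Γ Ω) :
    ∀ x, (x ≤ k • a ∨ k • b ≤ x) → (k * g * k⁻¹) • x = x := by
  intro x hx
  have h1 : k⁻¹ • x ≤ a ∨ b ≤ k⁻¹ • x := by
    rcases hx with hx | hx
    · left; rw [← W_le_iff k]; simpa using hx
    · right; rw [← W_le_iff k]; simpa using hx
  rw [mul_smul, mul_smul, h _ h1]; simp

theorem W_supp_le (hA : GoodAct Γ Ω) {g : WW Γ Ω} {a b : Ω} (h : Supp g a b) :
    ∀ x, (x ≤ a ∨ b ≤ x) → g • x = x := by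
  have := hA.dense
  have hne := hA.nontrivial
  intro x hx
  rcases hx with hx | hx
  · rcases hx.lt_or_eq with h1 | h1
    · exact h x (Or.inl h1)
    · -- x = a
      by_contra hne'
      rcases lt_or_gt_of_ne hne' with h2 | h2
      · obtain ⟨z, h3, h4⟩ := exists_between h2
        have h5 : g • z = z := h z (Or.inl (h1 ▸ h4))
        have h6 : g • z < g • x := W_mono g h4
        rw [h5] at h6
        exact absurd h3 (not_lt.mpr h6.le)
      · have h2' : g⁻¹ • x < x := by rw [← W_lt_iff g]; simpa using h2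
        obtain ⟨z, h3, h4⟩ := exists_between h2'
        have h5 : g • z = z := h z (Or.inl (h1 ▸ h4))
        have h6 : g • (g⁻¹ • x) < g • z := W_mono g h3
        rw [h5, smul_inv_smul] at h6
        exact absurd h4 (not_lt.mpr h6.le)
  · rcases hx.lt_or_eq with h1 | h1
    · exact h x (Or.inr h1)
    · by_contra hne'
      rcases lt_or_gt_of_ne hne' with h2 | h2
      · have h2' : x < g⁻¹ • x := by rw [← W_lt_iff g]; simpa using h2
        obtain ⟨z, h3, h4⟩ := exists_between h2'
        have h5 : g • z = z := h z (Or.inr (h1 ▸ h3))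
        have h6 : g • z < g • (g⁻¹ • x) := W_mono g h4
        rw [h5, smul_inv_smul] at h6
        exact absurd h3 (not_lt.mpr h6.le)
      · obtain ⟨z, h3, h4⟩ := exists_between h2
        have h5 : g • z = z := h z (Or.inr (h1 ▸ h3))
        have h6 : g • x < g • z := W_mono g h3
        rw [h5] at h6
        exact absurd h4 (not_lt.mpr h6.le)

/-- the infinite product `g (s g s⁻¹) (s² g s⁻²) ⋯`, and the alternating one -/
theorem W_product (hA : GoodAct Γ Ω) (inv : Bool) {g s : WW Γ Ω} {e a b : Ω} (he : s • e = e)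
    (hea : e < a) (hab : a < b) (hg : Supp g a b) (hs : s • b < a) (hs1 : ∀ n : ℕ, e < s ^ n • b)
    (hs2 : ∀ w, e < w → ∃ n : ℕ, s ^ n • b ≤ w) :
    ∃ h : WW Γ Ω, Supp h e b ∧
      h = g * (s * (cond inv h⁻¹ h) * s⁻¹) := by
  have hg' := W_supp_le hA hg
  -- the transformation
  let T : WW Γ Ω → WW Γ Ω := fun P => g * (s * (cond inv P⁻¹ P) * s⁻¹)
  obtain ⟨P, hP0, hPs⟩ : ∃ P : ℕ → WW Γ Ω, P 0 = 1 ∧ ∀ n, P (n + 1) = T (P n) :=
    ⟨fun n => Nat.rec 1 (fun _ Q => T Q) n, rfl, fun _ => rfl⟩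
  set x : ℕ → Ω := fun n => s ^ n • b with hx
  have hxs : ∀ n, x (n + 1) = s • x n := by
    intro n; simp only [hx]; rw [pow_succ', mul_smul]
  have hxb : ∀ n, x n ≤ b := by
    intro n
    induction n with
    | zero => simp [hx]
    | succ n ih => rw [hxs]; exact (W_mono_le s ih).trans (hs.trans hab).le
  have hxa : ∀ n, x (n + 1) < a := by
    intro n; rw [hxs]; exact (W_mono_le s (hxb n)).trans_lt hs
  have hxanti : ∀ n, x (n + 1) ≤ x n := by
    intro n
    induction n with
    | zero => exact hxb 1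
    | succ n ih =>
      have h1 : s • x (n + 1) ≤ s • x n := W_mono_le s ih
      rw [← hxs, ← hxs] at h1
      exact h1
  have hxanti' : ∀ n m, n ≤ m → x m ≤ x n := fun n m hnm => antitone_nat_of_succ_le hxanti hnm
  -- inversion facts
  have hinvfix : ∀ (Q : WW Γ Ω) (y : Ω), Q • y = y → (cond inv Q⁻¹ Q) • y = y := by
    intro Q y hQ
    cases inv
    · exact hQ
    · exact inv_fix hQ
  have hinvag : ∀ (Q R : WW Γ Ω) (y : Ω), Q • y = y → R • y = y → (∀ w, y ≤ w → Q • w = R • w) →
      ∀ w, y ≤ w → (cond inv Q⁻¹ Q) • w = (cond inv R⁻¹ R) • w := by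
    intro Q R y hQ hR h w hw
    cases inv
    · exact h w hw
    · show Q⁻¹ • w = R⁻¹ • w
      have h1 : y ≤ R⁻¹ • w := by
        rw [← W_le_iff R, smul_inv_smul, hR]; exact hw
      have h2 := h _ h1
      rw [smul_inv_smul] at h2
      calc Q⁻¹ • w = Q⁻¹ • (Q • (R⁻¹ • w)) := by rw [h2]
        _ = R⁻¹ • w := inv_smul_smul _ _
  -- fixing the points x k
  have hPfix : ∀ n k, P n • x k = x k := by
    intro n
    induction n with
    | zero => intro k; rw [hP0, one_smul]
    | succ n ih =>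
      intro k
      rw [hPs]
      show (g * (s * (cond inv (P n)⁻¹ (P n)) * s⁻¹)) • x k = x k
      rw [mul_smul, mul_smul, mul_smul]
      cases k with
      | zero =>
        have h1 : (P n) • (s⁻¹ • x 0) = s⁻¹ • x 0 := by
          -- s⁻¹ b ≥ b
          have h2 : b ≤ s⁻¹ • x 0 := by
            have hx0 : x 0 = b := by simp [hx]
            rw [hx0, ← W_le_iff s, smul_inv_smul]; exact (hs.trans hab).le
          have h3 : ∀ n, ∀ y, b ≤ y → P n • y = y := by
            intro n
            induction n with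
            | zero => intro y _; rw [hP0, one_smul]
            | succ n ih2 =>
              intro y hy
              rw [hPs]
              show (g * (s * (cond inv (P n)⁻¹ (P n)) * s⁻¹)) • y = y
              have h4 : b ≤ s⁻¹ • y := by
                rw [← W_le_iff s, smul_inv_smul]; exact (hs.trans hab).le.trans hy
              rw [mul_smul, mul_smul, mul_smul, hinvfix _ _ (ih2 _ h4), smul_inv_smul]
              exact hg' y (Or.inr hy)
          exact h3 n _ h2
        rw [hinvfix _ _ h1, smul_inv_smul]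
        exact hg' _ (Or.inr (by simp [hx]))
      | succ k =>
        have h1 : s⁻¹ • x (k + 1) = x k := by rw [hxs, inv_smul_smul]
        rw [h1, hinvfix _ _ (ih k), ← hxs]
        exact hg' _ (Or.inl (hxa k).le)
  have hPb : ∀ n, ∀ y, b ≤ y → P n • y = y := by
    intro n
    induction n with
    | zero => intro y _; rw [hP0, one_smul]
    | succ n ih2 =>
      intro y hy
      rw [hPs]
      show (g * (s * (cond inv (P n)⁻¹ (P n)) * s⁻¹)) • y = y
      have h4 : b ≤ s⁻¹ • y := by
        rw [← W_le_iff s, smul_inv_smul]; exact (hs.trans hab).le.trans hy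
      rw [mul_smul, mul_smul, mul_smul, hinvfix _ _ (ih2 _ h4), smul_inv_smul]
      exact hg' y (Or.inr hy)
  have hTag : ∀ (Q R : WW Γ Ω) (n : ℕ), Q • x n = x n → R • x n = x n →
      (∀ w, x n ≤ w → Q • w = R • w) → ∀ w, x (n + 1) ≤ w → T Q • w = T R • w := by
    intro Q R n hQ hR h w hw
    show (g * (s * (cond inv Q⁻¹ Q) * s⁻¹)) • w = (g * (s * (cond inv R⁻¹ R) * s⁻¹)) • w
    rw [mul_smul, mul_smul, mul_smul, mul_smul, mul_smul, mul_smul]
    have h1 : x n ≤ s⁻¹ • w := by
      rw [← W_le_iff s, smul_inv_smul, ← hxs]; exact hw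
    rw [hinvag Q R (x n) hQ hR h _ h1]
  have hstep : ∀ n, ∀ w, x n ≤ w → P (n + 1) • w = P n • w := by
    intro n
    induction n with
    | zero =>
      intro w hw
      have hw' : b ≤ w := by simpa [hx] using hw
      rw [hPb _ w hw', hPb _ w hw']
    | succ n ih =>
      intro w hw
      have h1 := hTag (P (n + 1)) (P n) n (hPfix _ _) (hPfix _ _) ih w hw
      rw [← hPs (n + 1), ← hPs n] at h1
      exact h1
  have hag : ∀ n m, n ≤ m → ∀ w, x n ≤ w → P m • w = P n • w := by
    intro n m hnm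
    induction m, hnm using Nat.le_induction with
    | base => intro w _; rfl
    | succ m hm ih =>
      intro w hw
      rw [hstep m w ((hxanti' n m hm).trans hw), ih w hw]
  obtain ⟨h, hloc, hh1, hh2⟩ := exists_limit (Γ := Γ) (e := e) (x := x) hs1 hs2
    (fun n => (P n).1) (fun n => W_loc (P n)) (fun n => hPfix n n) hag
  have hsupp : ∀ w, b ≤ w → h w = w := by
    intro w hw
    have h1 := hh2 0 w (by simpa [hx] using hw)
    rw [h1, hP0]; rfl
  let H : WW Γ Ω := mkW h hloc e b hh1 hsupp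
  refine ⟨H, mkW_supp _ _ _ _ _ _, ?_⟩
  have hHe : ∀ w, w ≤ e → H • w = w := hh1
  have hHP : ∀ n w, x n ≤ w → H • w = P n • w := hh2
  have key : ∀ w : Ω, H • w = T H • w := by
    intro w
    rcases le_or_gt w e with h1 | h1
    · rw [hHe w h1]
      show w = (g * (s * (cond inv H⁻¹ H) * s⁻¹)) • w
      rw [mul_smul, mul_smul, mul_smul]
      have h2 : s⁻¹ • w ≤ e := by rw [← W_le_iff s, smul_inv_smul, he]; exact h1
      rw [hinvfix _ _ (hHe _ h2), smul_inv_smul, hg' w (Or.inl (h1.trans hea.le))]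
    · obtain ⟨n, hn⟩ := hs2 w h1
      have h2 : x (n + 1) ≤ w := (hxanti n).trans hn
      rw [hHP (n + 1) w h2, hPs]
      have h3 : H • x n = x n := by rw [hHP n (x n) le_rfl, hPfix]
      exact hTag (P n) H n (hPfix _ _) h3 (fun v hv => (hHP n v hv).symm) w h2
  have h4 : (T H)⁻¹ * H = 1 := by
    apply W_faithful
    intro w
    rw [mul_smul, key w, inv_smul_smul]
  exact (inv_mul_eq_one.mp h4).symm

theorem W_nice (hA : GoodAct Γ Ω) : Nice (WW Γ Ω) Ω where
  mono g _ _ h := W_mono g h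
  faithful g h := W_faithful g h
  bdd g := by
    have := hA.nontrivial
    obtain ⟨_, a, b, hab⟩ := g.2
    obtain ⟨c, hc⟩ := exists_gt (max a b)
    refine ⟨a, c, (le_max_left _ _).trans_lt hc, ?_⟩
    intro x hx
    apply hab
    rcases hx with hx | hx
    · exact Or.inl hx
    · exact Or.inr (((le_max_right _ _).trans_lt hc).trans hx)
  trick g a b p q h1 h2 h3 hg := by
    obtain ⟨s, e, hs, hpe, hse, hsb, hs1, hs2⟩ := W_contract hA h1 h2 h3
    have hea : e < a := by
      have := hs1 1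
      rw [pow_one] at this
      exact this.trans hsb
    obtain ⟨h, hh, heq⟩ := W_product hA false hse hea h2 hg hsb hs1 hs2
    have heq' : h = g * (s * h * s⁻¹) := by
      conv_lhs => rw [heq]
      simp
    refine ⟨h, s, hh.mono hpe.le h3.le, hs, ?_, heq'⟩
    have hg' := W_supp_le hA hg
    have hk := W_conj_supp h (W_supp_le hA hh) s
    set k := s * h * s⁻¹ with hkdef
    have key : ∀ w : Ω, (g * k) • w = (k * g) • w := by
      intro w
      rw [mul_smul g k w, mul_smul k g w]
      rcases lt_or_ge w a with h4 | h4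
      · rw [hg' w (Or.inl h4.le)]
        apply hg'
        left
        rcases le_or_gt w (s • b) with h5 | h5
        · have h6 : k • w ≤ k • (s • b) := W_mono_le k h5
          rw [hk _ (Or.inr le_rfl)] at h6
          exact h6.trans hsb.le
        · rw [hk w (Or.inr h5.le)]; exact h4.le
      · rw [hk w (Or.inr (hsb.le.trans h4))]
        have h5 : a ≤ g • w := by
          have := W_mono_le g h4
          rwa [hg' a (Or.inl le_rfl)] at this
        exact (hk _ (Or.inr (hsb.le.trans h5))).symm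
    have h2' : (k * g)⁻¹ * (g * k) = 1 := by
      apply W_faithful
      intro x
      rw [mul_smul, key x, inv_smul_smul]
    show g * k = k * g
    exact (inv_mul_eq_one.mp h2').symm
  trans := W_trans hA
  cut := W_cut
  ends := W_ends hA

theorem W_supC (hA : GoodAct Γ Ω) : SupC (WW Γ Ω) Ω := by
  intro g
  obtain ⟨_, a, b, hab⟩ := g.2
  have hga : ∀ x, (x < a ∨ b < x) → g • x = x := hab
  set F : Ω → Ω := fun x => max (g • x) x with hF
  have hmono : StrictMono F := by
    intro x y hxy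
    exact max_lt_max (W_mono g hxy) hxy
  have hsurj : Function.Surjective F := by
    intro v
    rcases le_total (g • v) v with h1 | h1
    · exact ⟨v, max_eq_right h1⟩
    · refine ⟨g⁻¹ • v, ?_⟩
      have h2 : g⁻¹ • v ≤ v := by rw [← W_le_iff g, smul_inv_smul]; exact h1
      show max (g • (g⁻¹ • v)) (g⁻¹ • v) = v
      rw [smul_inv_smul, max_eq_left h2]
  let f : Ω ≃o Ω := StrictMono.orderIsoOfSurjective F hmono hsurj
  have hfF : ∀ x, f x = F x := fun x => rfl
  have hloc : Loc Γ f := by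
    intro L hL
    obtain ⟨y, hy, z, hz, γ, c, haff⟩ := W_loc g L hL
    have haff' : ∀ w, y ≤ w → w ≤ z → g • w = γ • w + c := haff
    -- the two possibilities on subintervals with constant sign
    have hpos : ∀ y' z', y ≤ y' → z' ≤ z → (∀ w, y' ≤ w → w ≤ z' → w ≤ g • w) →
        AffOn Γ f y' z' := by
      intro y' z' h1 h2 h3
      refine ⟨γ, c, fun w hw1 hw2 => ?_⟩
      rw [hfF]
      show max (g • w) w = _
      rw [max_eq_left (h3 w hw1 hw2), haff' w (h1.trans hw1) (hw2.trans h2)]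
    have hneg : ∀ y' z', y ≤ y' → z' ≤ z → (∀ w, y' ≤ w → w ≤ z' → g • w ≤ w) →
        AffOn Γ f y' z' := by
      intro y' z' h1 h2 h3
      refine ⟨1, 0, fun w hw1 hw2 => ?_⟩
      rw [hfF]
      show max (g • w) w = _
      rw [max_eq_right (h3 w hw1 hw2)]; simp
    by_cases hγ : γ = 1
    · rcases le_total 0 c with h0 | h0
      · refine ⟨y, hy, z, hz, hpos y z le_rfl le_rfl (fun w h1 h2 => ?_)⟩
        rw [haff' w h1 h2, hγ, one_smul]
        exact le_add_of_nonneg_right h0
      · refine ⟨y, hy, z, hz, hneg y z le_rfl le_rfl (fun w h1 h2 => ?_)⟩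
        rw [haff' w h1 h2, hγ, one_smul]
        exact add_le_of_nonpos_right h0
    · obtain ⟨w₀, hw₀⟩ := hA.surj γ hγ (-c)
      have hval : ∀ w, γ • w + c = w + (γ • (w - w₀) - (w - w₀)) := by
        intro w
        have h1 : c = w₀ - γ • w₀ := by
          have := congrArg Neg.neg hw₀
          simp only [neg_neg, neg_sub] at this
          exact this.symm
        rw [smul_sub, h1]; abel
      -- sign on each side of w₀
      have hside : (∀ w, w₀ ≤ w → w ≤ γ • w + c) ∧ (∀ w, w ≤ w₀ → γ • w + c ≤ w) ∨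
          (∀ w, w₀ ≤ w → γ • w + c ≤ w) ∧ (∀ w, w ≤ w₀ → w ≤ γ • w + c) := by
        rcases hA.expand γ hγ with he | he
        · left
          constructor
          · intro w hw
            rw [hval]
            apply le_add_of_nonneg_right
            rcases hw.lt_or_eq with h1 | h1
            · exact sub_nonneg.mpr (he _ (sub_pos.mpr h1)).le
            · rw [h1]; simp
          · intro w hw
            rw [hval]
            apply add_le_of_nonpos_right
            rcases hw.lt_or_eq with h1 | h1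
            · have h2 := he (w₀ - w) (sub_pos.mpr h1)
              have h3 : γ • (w - w₀) - (w - w₀) = -(γ • (w₀ - w) - (w₀ - w)) := by
                rw [smul_sub, smul_sub]; abel
              rw [h3]
              exact neg_nonpos.mpr (sub_nonneg.mpr h2.le)
            · rw [h1]; simp
        · right
          constructor
          · intro w hw
            rw [hval]
            apply add_le_of_nonpos_right
            rcases hw.lt_or_eq with h1 | h1
            · exact sub_nonpos.mpr (he _ (sub_pos.mpr h1)).le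
            · rw [h1]; simp
          · intro w hw
            rw [hval]
            apply le_add_of_nonneg_right
            rcases hw.lt_or_eq with h1 | h1
            · have h2 := he (w₀ - w) (sub_pos.mpr h1)
              have h3 : γ • (w - w₀) - (w - w₀) = -(γ • (w₀ - w) - (w₀ - w)) := by
                rw [smul_sub, smul_sub]; abel
              rw [h3]
              exact neg_nonneg.mpr (sub_nonpos.mpr h2.le)
            · rw [h1]; simp
      by_cases hw₀L : w₀ ∈ L
      · refine ⟨max y w₀, IsCut.max_mem hy hw₀L, z, hz, ?_⟩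
        rcases hside with h | h
        · refine hpos _ _ (le_max_left _ _) le_rfl (fun w h1 h2 => ?_)
          rw [haff' w ((le_max_left _ _).trans h1) h2]
          exact h.1 w ((le_max_right _ _).trans h1)
        · refine hneg _ _ (le_max_left _ _) le_rfl (fun w h1 h2 => ?_)
          rw [haff' w ((le_max_left _ _).trans h1) h2]
          exact h.1 w ((le_max_right _ _).trans h1)
      · refine ⟨y, hy, min z w₀, IsCut.min_notMem hz hw₀L, ?_⟩
        rcases hside with h | h
        · refine hneg _ _ le_rfl (min_le_left _ _) (fun w h1 h2 => ?_)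
          rw [haff' w h1 (h2.trans (min_le_left _ _))]
          exact h.2 w (h2.trans (min_le_right _ _))
        · refine hpos _ _ le_rfl (min_le_left _ _) (fun w h1 h2 => ?_)
          rw [haff' w h1 (h2.trans (min_le_left _ _))]
          exact h.2 w (h2.trans (min_le_right _ _))
  refine ⟨⟨f, hloc, a, b, ?_⟩, fun x => rfl⟩
  intro x hx
  rw [hfF]
  show max (g • x) x = x
  rw [hga x hx, max_self]

theorem W_alt (hA : GoodAct Γ Ω) : Alt (WW Γ Ω) Ω := by
  have := hA.dense
  have := hA.nontrivial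
  have hN := W_nice hA
  obtain ⟨a⟩ := (inferInstance : Nonempty Ω)
  obtain ⟨p, hp⟩ := exists_lt a
  obtain ⟨w₀, hw₀⟩ := exists_gt a
  obtain ⟨b, hb⟩ := exists_gt w₀
  obtain ⟨q, hq⟩ := exists_gt b
  have hab : a < b := hw₀.trans hb
  obtain ⟨g, hg, hgw⟩ := hN.exists_move hw₀ hb
  obtain ⟨s, e, hs, hpe, hse, hsb, hs1, hs2⟩ := W_contract hA hp hab hq
  have hea : e < a := by
    have := hs1 1
    rw [pow_one] at this
    exact this.trans hsb
  obtain ⟨h, hh, heq⟩ := W_product hA true hse hea hab hg hsb hs1 hs2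
  have heq' : h = g * (s * h⁻¹ * s⁻¹) := by
    conv_lhs => rw [heq]
    simp
  have hg' := W_supp_le hA hg
  have hhb : ∀ y, b ≤ y → h • y = y := fun y hy => W_supp_le hA hh y (Or.inr hy)
  obtain ⟨c, hc1, hc2⟩ := exists_between hsb
  refine ⟨c, s • w₀, g, h, s, ?_, ?_, ?_, ?_⟩
  · have h7 : g * (s * h⁻¹ * s⁻¹) * (s * h * s⁻¹) = g := by group
    rwa [← heq'] at h7
  · exact ⟨a, b, hc2, hc2.trans hab, hab, hg⟩
  · exact ((hN.lt_iff s).mpr hb).trans hc1
  · -- h moves s w₀
    -- first h w₀ = g w₀ since s⁻¹ w₀ ≥ b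
    intro hcon
    have h1 : h • w₀ = g • w₀ := by
      have e1 : (s * h⁻¹ * s⁻¹) • w₀ = w₀ := by
        apply W_conj_supp h⁻¹ (fun y hy => inv_fix (W_supp_le hA hh y hy)) s
        exact Or.inr (hsb.le.trans hw₀.le)
      conv_lhs => rw [heq', mul_smul, e1]
    have h2 : h • (s • w₀) = g • (s • (h⁻¹ • w₀)) := by
      conv_lhs => rw [heq']
      rw [mul_smul, mul_smul, mul_smul, inv_smul_smul]
    have h3 : h⁻¹ • w₀ ≤ b := by
      rw [← W_le_iff h, smul_inv_smul, hhb b le_rfl]; exact hb.le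
    have h4 : g • (s • (h⁻¹ • w₀)) = s • (h⁻¹ • w₀) := by
      apply hg'
      left
      exact ((W_mono_le s h3).trans hsb.le)
    rw [h2, h4] at hcon
    have h5 : h⁻¹ • w₀ = w₀ := (hN.eq_iff s).mp hcon
    have h6 : h • w₀ = w₀ := inv_fix_iff.mp h5
    rw [h1] at h6
    exact hgw.ne' h6

end Basic

end Pool.Agent.Lib.MP_aba4aa_al
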